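import Pool.Agent.WFG.ElimFin

/-!
# Output of the elimination (helper21)

`Num.low n a1 H` (`Count.lean`, with `ok_low`, `low_growth`): the letters `0, .., n - 2` and then one letter of
degree `a1` are eliminated (runs `< H`).
`elim_out`: from `Num.low` all words of length `< N` are eliminated on the side of the labelled graph `F` (constant
letters on the side of `E'`), then the room step.
-/

set_option autoImplicit false
set_option linter.unusedSectionVars false

noncomputable section

namespace Pool.Agent.WFG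

open Polynomial Matrix Pool.Agent.WFS Pool.Agent.WFS.Lab Pool.WFS.Lad

/-- the reduction at the last level: the room step -/
theorem rr_room {n : ℕ} {κ : Num} (hκ : κ.Ok) {I J : Type} [Fintype I] [DecidableEq I] [Fintype J]
    [DecidableEq J] (F : Fin n → Option I → Option I) {W : Finset (List (Fin n))}
    (hU : Uni κ (dW F W)) {N b : ℕ} (hN : 1 ≤ N)
    (hb : b ≤ (W.filter fun x => x.length = N ∧ ∃ c, ∀ q, wf F x q = c).card) (h : ℕ)
    {E' : Matrix J J ℤ[X]} (hE' : IsUnit (1 - E').det) (h0 : ∀ i j, (E' i j).coeff N = 0)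
    (hR : RelE (κ.room N b h) (kp (dW F W)) E') : RR κ F W E' := by
  classical
  intro w' hw'
  have hpW : κ.p = pW W := by
    rw [← hU.sum none, dW_sum]
  have hU' := uni_mat hE' hw'
  -- the constant letters on the first side
  let cst : Option I → ℕ := fun i => (W.filter fun x => x.length = N ∧ ∀ q, wf F x q = i).card
  have hcst : ∑ i, cst i = (W.filter fun x => x.length = N ∧ ∃ c, ∀ q, wf F x q = c).card := by
    rw [Finset.card_eq_sum_card_fiberwise (f := fun x => wf F x none) (t := Finset.univ)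
      (fun x _ => Finset.mem_coe.2 (Finset.mem_univ _))]
    refine Finset.sum_congr rfl fun i _ => ?_
    show (W.filter fun x => x.length = N ∧ ∀ q, wf F x q = i).card = _
    congr 1
    ext x
    simp only [Finset.mem_filter]
    constructor
    · rintro ⟨h1, h2, h3⟩
      exact ⟨⟨h1, h2, i, h3⟩, h3 none⟩
    · rintro ⟨⟨h1, h2, c, h3⟩, h4⟩
      refine ⟨h1, h2, fun q => ?_⟩
      rw [h3 q, ← h3 none, h4]
  obtain ⟨φ, hφ1, hφ2⟩ := exists_le_sum cst b (by rw [hcst]; exact hb)
  have hcstD : ∀ i j, (cst i : ℤ) ≤ (dW F W i j).coeff N := by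
    intro i j
    rw [coeff_dW]
    refine Int.ofNat_le.2 (Finset.card_le_card ?_)
    intro x hx
    rw [Finset.mem_filter] at hx ⊢
    exact ⟨hx.1, hx.2.1, hx.2.2 j⟩
  -- the constant letters on the second side
  have hcol : ∀ i j, (mat E' w' i j).coeff N = (w' i).coeff N := by
    intro i j
    unfold mat
    rw [Matrix.of_apply]
    rcases i with _ | i <;> rcases j with _ | j <;> simp [h0]
  have hnn : ∀ i, 0 ≤ (w' i).coeff N := by
    intro i
    rw [← hcol i none]
    exact (hw'.pos i none).2 _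
  obtain ⟨φ', hφ1', hφ2'⟩ := exists_le_sum (fun i => ((w' i).coeff N).toNat) b (by
    have h1 : ((∑ i, ((w' i).coeff N).toNat : ℕ) : ℤ) = κ.p.coeff N := by
      rw [← hw'.sum, finsetSum_coeff]
      push_cast
      exact Finset.sum_congr rfl fun i _ => Int.toNat_of_nonneg (hnn i)
    have h2 : (b : ℤ) ≤ κ.p.coeff N := by
      rw [hpW, coeff_pW]
      refine Int.ofNat_le.2 (hb.trans (Finset.card_le_card ?_))
      intro x hx
      rw [Finset.mem_filter] at hx ⊢
      exact ⟨hx.1, hx.2.1⟩
    rw [← h1] at h2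
    exact_mod_cast h2)
  have hPos : ∀ {V : Type} [Fintype V] [DecidableEq V] (D : Matrix V V ℤ[X]) (ψ : V → ℕ), Pos D →
      (∀ i j, (ψ i : ℤ) ≤ (D i j).coeff N) →
      Pos (Matrix.of fun i j => D i j - X ^ N * (ψ i : ℤ[X])) := by
    intro V _ _ D ψ hD hψ i j
    rw [Matrix.of_apply]
    have hc : ∀ d, (X ^ N * (ψ i : ℤ[X])).coeff d = if d = N then (ψ i : ℤ) else 0 := by
      intro d
      rw [← Polynomial.C_eq_natCast, Polynomial.coeff_mul_C, Polynomial.coeff_X_pow]
      split_ifs <;> simp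
    refine ⟨?_, fun d => ?_⟩
    · rw [coeff_sub, (hD i j).1, hc, if_neg (by omega), sub_zero]
    · rw [coeff_sub, hc]
      split_ifs with hd
      · rw [hd]
        have := hψ i j
        omega
      · rw [sub_zero]
        exact (hD i j).2 d
  have hle := hPos (dW F W) φ hU.pos fun i j =>
    (Int.ofNat_le.2 (hφ1 i)).trans (hcstD i j)
  have hle' := hPos (mat E' w') φ' hw'.pos fun i j => by
    rw [hcol i j]
    have h1 := hφ1' i
    have h2 := hnn i
    omega
  refine (rel_room hκ hU hU' N b h hN φ hφ2 hle φ' hφ2' hle').2 ?_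
  have hkp : ∀ {L : Type} [Fintype L] [DecidableEq L] (D : Matrix (Option L) (Option L) ℤ[X])
      (ψ : Option L → ℕ), kp (roomD D ψ N h) = kp D := by
    intro L _ _ D ψ
    ext1 i j
    show roomD D ψ N h (some i) (some j) - roomD D ψ N h (some i) none =
      D (some i) (some j) - D (some i) none
    unfold roomD
    rw [Matrix.of_apply, Matrix.of_apply]
    ring
  have hU1 := uni_room hU φ N h hN hle
  have hU2 := uni_room hU' φ' N h hN hle'
  rw [hφ2] at hU1
  rw [hφ2'] at hU2
  have e1 := mat_eq_of_kp hU1.sum (hkp (dW F W) φ)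
  have e2 := mat_eq_of_kp hU2.sum ((hkp (mat E' w') φ').trans (kp_mat E' w'))
  rw [e1, e2]
  refine hR _ _ ⟨hU1.sum none, ?_⟩ ⟨hU2.sum none, ?_⟩
  · rw [← e1]
    exact hU1.pos
  · rw [← e2]
    exact hU2.pos

theorem elim_out {n : ℕ} (hn : 2 ≤ n) {I : Type} [Fintype I] [DecidableEq I]
    (F : Fin n → Option I → Option I)
    (hnil : IsNilpotent (kq ((am F).map (Nat.cast : ℕ → ℤ)))) (N : ℕ) (hN : 2 ≤ N)
    (hF : ∀ w : List (Fin n), w ≠ [] → w.length < N → ∃ m c, ∀ q, (wf F w)^[m] q = c)
    (r C0 : ℝ) (hr : 0 < r) (hr1 : r ≤ 1) (hC0 : 1 ≤ C0) (hrN : 16 * N * C0 ≤ (n * r) ^ N)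
    (hW : ∀ W : Finset (List (Fin n)), (∀ x ∈ W, x.length = N ∧ ¬ ∃ c, ∀ q, wf F x q = c) →
      (W.card : ℝ) * r ^ N ≤ 1) :
    ∃ (E : Matrix I I ℤ[X]) (a0 : ℕ) (W : Finset (List (Fin n))),
      IsUnit (1 - E).det ∧ (∀ i j d, d < N → (E i j).coeff d = 0) ∧
      (∀ x ∈ W, N ≤ x.length ∧ ¬ ∃ c, ∀ q, wf F x q = c) ∧
      (∀ d, rm E d ≤ ∑ q', Finset.univ.sup fun q =>
        (W.filter fun x => x.length = d ∧ wf F x q = q').card) ∧
      (∃ M : SL I ℤ[X], (M : Matrix I I ℤ[X]) = 1 - E ∧ M ∈ Subgroup.closure (NilFac I)) ∧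
      ∀ a1, a0 ≤ a1 → ∀ H, a1 ≤ H → ∀ Δ : ℕ, ∃ κ' : Num, κ'.Ok ∧
        (∀ d, N ≤ d → d ≤ Δ → C0 ≤ (κ'.p.coeff d : ℝ) * r ^ d) ∧
        ∀ (J : Type) [Fintype J] [DecidableEq J] (E' : Matrix J J ℤ[X]), IsUnit (1 - E').det →
          (∀ i j d, d ≤ a1 → (E' i j).coeff d = 0) →
          (∀ d, 2 * (rm E' d : ℤ) ≤ (Num.low n a1 H).p.coeff d) →
          RelE (Num.low n a1 H) (0 : Matrix (Fin 0) (Fin 0) ℤ[X]) E' →
          RelE κ' E E' → Sse (toFin (am F)) ⟨1, Matrix.of fun _ _ => n⟩ := by
  classical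
  obtain ⟨m, rfl⟩ : ∃ m, n = m + 2 := ⟨n - 2, by omega⟩
  -- powers
  have hch : ∀ w : List (Fin (m + 2)), ∃ k, w ≠ [] → w.length < N → ∃ c, ∀ q, (wf F w)^[k] q = c := by
    intro w
    by_cases h1 : w ≠ [] ∧ w.length < N
    · obtain ⟨k, c, hk⟩ := hF w h1.1 h1.2
      exact ⟨k, fun _ _ => ⟨c, hk⟩⟩
    · exact ⟨0, fun h2 h3 => absurd ⟨h2, h3⟩ h1⟩
  choose cs hcs using hch
  -- the run
  obtain ⟨ws, hws, hrun⟩ := exists_run N N 0 _ (trn N (stps N (W0 (m + 2)) (lowL m N))) (by omega) (by
    intro x hx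
    rw [mem_trn] at hx
    exact ⟨(pc_stps pc_W0 (lowL_val hN le_rfl)).ne x hx.1, Nat.zero_le _, hx.2⟩) rfl
  let m0 : ℕ := ((letL m ++ ws).toFinset).sup cs
  have hm0 : ∀ w ∈ letL m ++ ws, ∀ k, m0 ≤ k → ∃ c, ∀ q, (wf F w)^[k] q = c := by
    intro w hw k hk
    have h1 : cs w ≤ m0 := Finset.le_sup (f := cs) (List.mem_toFinset.2 hw)
    have h2 : w ≠ [] ∧ w.length < N := by
      rcases List.mem_append.1 hw with h | h
      · obtain ⟨a, rfl⟩ := mem_letL h
        exact ⟨by simp, by simp; omega⟩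
      · exact hws w h
    obtain ⟨c, hc⟩ := hcs w h2.1 h2.2
    exact const_iter hc (by omega)
  let a0 : ℕ := 2 * N + m0 + 2
  -- the killing word is constant
  have hkill : ∀ a1, a0 ≤ a1 → ∃ c, ∀ q, wf F (killw m a1) q = c := by
    intro a1 ha1
    have h1 : ([0] : List (Fin (m + 2))) ∈ letL m ++ ws := by
      rw [letL_eq]
      simp
    obtain ⟨c, hc⟩ := hm0 _ h1 (a1 - 1) (by omega)
    refine ⟨wf F [Fin.last (m + 1)] c, fun q => ?_⟩
    unfold killw
    rw [wf_pw, hc]
  let full : ℕ → List (List (Fin (m + 2))) := fun a1 => lowL m a1 ++ ws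
  have hval : ∀ a1 H, a0 ≤ a1 → a1 ≤ H → Val H (W0 (m + 2)) (full a1) ∧
      ∀ x ∈ stps H (W0 (m + 2)) (full a1), N ≤ x.length := by
    intro a1 H ha1 hH
    have h1 := hrun H (by omega) (stps H (W0 (m + 2)) (lowL m a1))
      (trn_low (by omega) (by omega) le_rfl (by omega) le_rfl)
    refine ⟨(val_append H _ _ _).2 ⟨lowL_val (by omega) hH, h1.1⟩, ?_⟩
    intro x hx
    have hx' : x ∈ stps H (W0 (m + 2)) (lowL m a1 ++ ws) := hx
    rw [stps_append] at hx'
    exact h1.2 x hx'
  have hconst : ∀ a1 H, a0 ≤ a1 → a1 ≤ H → ∀ w ∈ full a1, ∃ c, ∀ q, (wf F w)^[H] q = c := by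
    intro a1 H ha1 hH w hw
    rcases List.mem_append.1 hw with h | h
    · rcases List.mem_append.1 h with h | h
      · exact hm0 w (List.mem_append_left _ h) H (by omega)
      · rw [List.mem_singleton] at h
        rw [h]
        obtain ⟨c, hc⟩ := hkill a1 ha1
        exact const_iter (m := 1) hc (by omega)
    · exact hm0 w (List.mem_append_right _ h) H (by omega)
  have hlen : ∀ a1, a0 ≤ a1 → ∀ w ∈ full a1, 1 ≤ w.length ∧ (w.length < N ∨ w.length = a1) := by
    intro a1 ha1 w hw
    rcases List.mem_append.1 hw with h | h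
    · rcases List.mem_append.1 h with h | h
      · obtain ⟨a, rfl⟩ := mem_letL h
        exact ⟨by simp, Or.inl (by simp; omega)⟩
      · rw [List.mem_singleton] at h
        rw [h, length_killw (by omega)]
        exact ⟨by omega, Or.inr rfl⟩
    · exact ⟨List.length_pos_iff.2 (hws w h).1, Or.inl (hws w h).2⟩
  -- the final words
  let WN : ℕ → ℕ → Finset (List (Fin (m + 2))) := fun a1 H => stps H (W0 (m + 2)) (full a1)
  have hUni : ∀ a1 H, a0 ≤ a1 → a1 ≤ H → Uni ((Num.base (m + 2)).evs H ((full a1).map List.length))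
      (dW F (WN a1 H)) := fun a1 H ha1 hH =>
    uni_run F (by omega) _ _ _ pc_W0 (hval a1 H ha1 hH).1 (hconst a1 H ha1 hH) (uni_W0 F hnil)
  let E : Matrix I I ℤ[X] := kp (dW F (WN a0 a0))
  have hE : ∀ a1 H, a0 ≤ a1 → a1 ≤ H → kp (dW F (WN a1 H)) = E := by
    intro a1 H ha1 hH
    show kp (dW F (stps H (W0 (m + 2)) (lowL m a1 ++ ws))) =
      kp (dW F (stps a0 (W0 (m + 2)) (lowL m a0 ++ ws)))
    have hv1 := (val_append H _ _ _).1 (hval a1 H ha1 hH).1
    have hv2 := (val_append a0 _ _ _).1 (hval a0 a0 le_rfl le_rfl).1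
    have hl1 := (val_append H _ _ _).1 hv1.1
    have hl2 := (val_append a0 _ _ _).1 hv2.1
    rw [stps_append, stps_append]
    refine kp_run_congr F (m0 := m0) (by omega) (by omega) ws _ _ (pc_stps pc_W0 hv1.1)
      (pc_stps pc_W0 hv2.1) hv1.2 hv2.2 (fun w hw => hm0 w (List.mem_append_right _ hw) m0 le_rfl) ?_
    unfold lowL
    rw [stps_append, stps_append]
    show kp (dW F (stp H _ (killw m a1))) = kp (dW F (stp a0 _ (killw m a0)))
    obtain ⟨c1, hc1⟩ := hkill a1 ha1
    obtain ⟨c2, hc2⟩ := hkill a0 le_rfl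
    rw [kp_const_step F (pc_stps pc_W0 hl1.1) hl1.2.1 hc1 (by omega),
      kp_const_step F (pc_stps pc_W0 hl2.1) hl2.2.1 hc2 (by omega)]
    exact kp_run_congr F (m0 := m0) (by omega) (by omega) (letL m) _ _ pc_W0 pc_W0 hl1.1 hl2.1
      (fun w hw => hm0 w (List.mem_append_left _ hw) m0 le_rfl) rfl
  refine ⟨E, a0, (WN a0 a0).filter fun x => ¬ ∃ c, ∀ q, wf F x q = c, ?_, ?_, ?_, ?_, ?_, ?_⟩
  · exact det_of_uni (hUni a0 a0 le_rfl le_rfl)
  · intro i j d hd
    show (dW F (WN a0 a0) (some i) (some j) - dW F (WN a0 a0) (some i) none).coeff d = 0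
    rw [coeff_sub, dW_low_coeff F (hval a0 a0 le_rfl le_rfl).2 _ _ hd,
      dW_low_coeff F (hval a0 a0 le_rfl le_rfl).2 _ _ hd, sub_zero]
  · intro x hx
    rw [Finset.mem_filter] at hx
    exact ⟨(hval a0 a0 le_rfl le_rfl).2 x hx.1, hx.2⟩
  · intro d
    convert rm_dW F (WN a0 a0) d
  · refine exists_SL hnil (((full a0).reverse.map fun w => (w.length, kq (mpZ (wf F w))))) ?_ ?_
    · intro x hx
      rw [List.mem_map] at hx
      obtain ⟨w, hw, rfl⟩ := hx
      rw [List.mem_reverse] at hw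
      obtain ⟨c, hc⟩ := hconst a0 a0 le_rfl le_rfl w hw
      exact ⟨(hlen a0 le_rfl w hw).1, nil_of_map hc⟩
    · have h1 := kp_run_prod F (full a0) (W0 (m + 2)) pc_W0 (hval a0 a0 le_rfl le_rfl).1
        (hconst a0 a0 le_rfl le_rfl)
      rw [kp_W0] at h1
      exact h1
  · intro a1 ha1 H hH Δ
    have hvf := hval a1 H ha1 hH
    have hcf := hconst a1 H ha1 hH
    have hH1 : 1 ≤ H := by omega
    -- the numerical part
    let κN : Num := (Num.base (m + 2)).evs H ((full a1).map List.length)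
    have hκN : κN.Ok := evs_ok hH1 pc_W0 hvf.1 pW_W0.symm (ok_base _)
    have hpN : κN.p = pW (WN a1 H) := evs_p pc_W0 hvf.1 pW_W0.symm
    have hUN : Uni κN (dW F (WN a1 H)) := hUni a1 H ha1 hH
    have hp0 : ∀ d, d < N → κN.p.coeff d = 0 := by
      intro d hd
      rw [hpN, coeff_pW]
      have : ((WN a1 H).filter fun w => w.length = d) = ∅ := by
        rw [Finset.filter_eq_empty_iff]
        intro x hx h
        have := hvf.2 x hx
        omega
      rw [this]
      simp
    have hcount : ∀ d, N ≤ d → d < 2 * N → (((m + 2 : ℕ) : ℤ)) ^ d ≤ 2 * d * κN.p.coeff d := by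
      intro d hd hd2
      refine count hn N H (by omega) (by omega) _ ?_ hp0 d hd hd2
      intro a ha
      rw [List.mem_map] at ha
      obtain ⟨w, hw, rfl⟩ := ha
      have := hlen a1 ha1 w hw
      exact ⟨this.1, by omega⟩
    let b : ℕ := (κN.p.coeff N).toNat / 2
    have hbp : (b : ℤ) ≤ κN.p.coeff N := by
      have h1 := hκN.p.2 N
      show (((κN.p.coeff N).toNat / 2 : ℕ) : ℤ) ≤ κN.p.coeff N
      omega
    refine ⟨κN.room N b Δ, ok_room hκN N b Δ (by omega) hbp, ?_, ?_⟩
    · intro d hd hd2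
      exact room_growth hκN hn (by omega) hcount r C0 hr hr1 hC0 (by exact_mod_cast hrN) Δ d hd hd2
    · intro J _ _ E' hE' h0' hleg hrot hrel
      -- the constant words of length `N`
      have hb : b ≤ ((WN a1 H).filter fun x => x.length = N ∧ ∃ c, ∀ q, wf F x q = c).card := by
        have h1 := hW ((WN a1 H).filter fun x => x.length = N ∧ ¬ ∃ c, ∀ q, wf F x q = c)
          (fun x hx => (Finset.mem_filter.1 hx).2)
        have h2 : ((WN a1 H).filter fun x => x.length = N ∧ ∃ c, ∀ q, wf F x q = c).card +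
            ((WN a1 H).filter fun x => x.length = N ∧ ¬ ∃ c, ∀ q, wf F x q = c).card =
            ((WN a1 H).filter fun x => x.length = N).card := by
          rw [← Finset.filter_filter, ← Finset.filter_filter,
            Finset.card_filter_add_card_filter_not]
        have h3 : κN.p.coeff N = (((WN a1 H).filter fun x => x.length = N).card : ℤ) := by
          rw [hpN, coeff_pW]
        have h4 := hcount N le_rfl (by omega)
        rw [h3] at h4
        set P := ((WN a1 H).filter fun x => x.length = N).card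
        set K := ((WN a1 H).filter fun x => x.length = N ∧ ¬ ∃ c, ∀ q, wf F x q = c).card
        have h5 : (((m + 2 : ℕ) : ℝ)) ^ N ≤ 2 * N * (P : ℝ) := by exact_mod_cast h4
        have hN0 : (0 : ℝ) < N := by exact_mod_cast (by omega : 0 < N)
        have hrN0 : 0 < r ^ N := pow_pos hr N
        have h6 : 16 * (N : ℝ) ≤ (((m + 2 : ℕ) : ℝ)) ^ N * r ^ N := by
          rw [← mul_pow]
          refine le_trans ?_ hrN
          nlinarith
        have h7 : 8 ≤ (P : ℝ) * r ^ N := by
          have h8 : (((m + 2 : ℕ) : ℝ)) ^ N * r ^ N ≤ 2 * N * (P : ℝ) * r ^ N :=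
            mul_le_mul_of_nonneg_right h5 hrN0.le
          nlinarith
        have h8 : (K : ℝ) * r ^ N * 8 ≤ (P : ℝ) * r ^ N := by linarith
        have h9 : (K : ℝ) * 8 ≤ P := by
          by_contra hcon
          push Not at hcon
          have := mul_lt_mul_of_pos_right hcon hrN0
          linarith
        have h10 : K * 8 ≤ P := by exact_mod_cast h9
        have h11 : b = P / 2 := by
          show (κN.p.coeff N).toNat / 2 = P / 2
          rw [h3, Int.toNat_natCast]
        omega
      have hRN : RR κN F (WN a1 H) E' := by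
        refine rr_room hκN F hUN (by omega) hb Δ hE' (fun i j => h0' i j N (by omega)) ?_
        rw [hE a1 H ha1 hH]
        exact hrel
      have hlow := low_eq m a1 H (by omega)
      have hsplit : κN = (Num.low (m + 2) a1 H).evs H (ws.map List.length) := by
        show (Num.base (m + 2)).evs H ((lowL m a1 ++ ws).map List.length) = _
        rw [List.map_append, evs_append, hlow]
      have hv1 := (val_append H _ _ _).1 hvf.1
      have hcl : ∀ w ∈ lowL m a1, ∃ v0, ∀ v, (wf F w)^[H] v = v0 := fun w hw =>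
        hcf w (List.mem_append_left _ hw)
      have hUl : Uni (Num.low (m + 2) a1 H) (dW F (stps H (W0 (m + 2)) (lowL m a1))) := by
        rw [← hlow]
        exact uni_run F hH1 _ _ _ pc_W0 hv1.1 hcl (uni_W0 F hnil)
      have hokl : (Num.low (m + 2) a1 H).Ok := ok_low hn a1 H (by omega) hH
      have hpl : (Num.low (m + 2) a1 H).p = pW (stps H (W0 (m + 2)) (lowL m a1)) := by
        rw [← hlow]
        exact evs_p pc_W0 hv1.1 pW_W0.symm
      have hRl : RR (Num.low (m + 2) a1 H) F (stps H (W0 (m + 2)) (lowL m a1)) E' := by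
        refine rr_run F hH1 hE' ws _ _ hokl (pc_stps pc_W0 hv1.1) hpl hUl hv1.2
          (fun w hw => hcf w (List.mem_append_right _ hw)) ?_ ?_
        · intro w hw i j
          exact h0' i j _ (by have := (hws w hw).2; omega)
        · rw [← hsplit]
          have h2 : stps H (stps H (W0 (m + 2)) (lowL m a1)) ws = WN a1 H := (stps_append H _ _ _).symm
          rw [h2]
          exact hRN
      -- to the trivial system
      obtain ⟨w', hw'⟩ := leg_of_rm hokl hleg
      have hR0 : RR (Num.low (m + 2) a1 H) F (stps H (W0 (m + 2)) (lowL m a1))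
          (0 : Matrix (Fin 0) (Fin 0) ℤ[X]) := by
        intro w0 hw0
        exact (hRl w' hw').trans hokl (hrot w0 w' hw0 hw').symm
      have h10 : IsUnit (1 - (0 : Matrix (Fin 0) (Fin 0) ℤ[X])).det := by
        rw [sub_zero, Matrix.det_one]
        exact isUnit_one
      have hRb : RR (Num.base (m + 2)) F (W0 (m + 2)) (0 : Matrix (Fin 0) (Fin 0) ℤ[X]) := by
        refine rr_run F hH1 h10 (lowL m a1) _ _ (ok_base _) pc_W0 pW_W0.symm (uni_W0 F hnil) hv1.1 hcl
          (fun w _ i j => by simp) ?_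
        rw [hlow]
        exact hR0
      have hleg0 : Leg (Num.base (m + 2)) (0 : Matrix (Fin 0) (Fin 0) ℤ[X])
          (fun _ => (Num.base (m + 2)).p) := by
        refine ⟨by simp, ?_⟩
        intro i j
        have h1 : mat (0 : Matrix (Fin 0) (Fin 0) ℤ[X]) (fun _ => (Num.base (m + 2)).p) i j =
            (Num.base (m + 2)).p := by
          rcases i with _ | i
          · rcases j with _ | j
            · simp [mat]
            · exact j.elim0
          · exact i.elim0
        rw [h1]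
        exact (ok_base (m + 2)).p
      have h1 := hRb _ hleg0
      have h2 := (rel_trivial (ok_base (m + 2)) (uni_mat h10 hleg0).pos (uni_mat h10 hleg0).sum
        (fun _ => (Num.base (m + 2)).p) (by
          intro i j
          rcases i with _ | i
          · rcases j with _ | j
            · simp [mat]
            · exact j.elim0
          · exact i.elim0)).2
      have h4 := h1.trans (ok_base (m + 2)) h2
      rw [dW_W0] at h4
      exact sse_of_rel _ h4

end Pool.Agent.WFG
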