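import Pool.Agent.WFG.Sys
import Pool.Agent.WFS.Room

/-!
# The elimination of a letter

PROOFS. Notation: `D0 i j = D i j - X ^ a [f j = i]` (nonnegative by `hle`), `f^[m] j = v0` for `m ≥ h`,
in particular `f v0 = v0`, and `v0` is the only fixed point of `f`.
`uni_ev`. Column sums and `Pos` are clear. `inv`: for `z` take `u` from `hD.inv`, put `u' = u - X^a F u`,
`(F u) i = ∑_j [f j = i] u j`. Then `∑ u' = 0` and `(evD) u' = D0 u`: telescoping sum, because
`F^h u = (∑ u) e_v0 = 0`. So `u' - evD u' = u - X^a F u - D0 u = u - D u = z`.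
`eqv_ev`. STEP 1 (splitting). `T0` on `V ⊕ Option c`: columns `inl j`, `j ≠ v0`: as in `κ.tot D Q` (0 at the
row `inr none`); columns `inl v0` and `inr none` equal: `D0 i v0` at `inl i`, `y s` at `inr (some s)`,
`X ^ a` at `inr none`; columns `inr (some s)`: `Q`, `Z`, `0`. `eqv_merge` with `π (inr none) = inl v0` gives
`Eqv T0 (κ.tot D Q)`. STEP 2. For a finset `G` of `V` let `TG` be `T0` with the columns `inl j`, `j ∈ G`,
replaced by `E_j` = (`evD i j` at `inl i`, `y s * ∑_(m<h) X^(am)` at `inr (some s)`, `X^(ah)` at `inr none`);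
`T_∅ = T0`, `T_univ` = the right-hand side. (a) `Eqv T_∅ T_{v0}`: `eqv_col` at `inl v0` with
`u = (∑_(1≤m<h) X^(am)) e_(inr none)`. (b) if `j ∉ G`, `j ≠ v0`, `f j ∈ G` then `Eqv T_G T_(insert j G)`:
`eqv_col` at `inl j` with `u = X^a e_(inl (f j)) - X^(ah) e_(inr none)`: the new column is
`T_j - u + X^a E_(f j) - X^(ah) T_(inr none)`, and `f^[h] j = v0`. (c) levels `G_r = {j | f^[r] j = v0}`:
from `G_r` to `G_(r+1)` insert the elements in any order (Finset.induction_on), each has `f j ∈ G_r`.
`exi_ev`, `ok_ev`: clear. `rel_ev`: both directions from `eqv_ev` on both sides and `eqv_exits`,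
`exi_exists`.
-/

set_option autoImplicit false
set_option linter.unusedSectionVars false

noncomputable section

namespace Pool.Agent.WFG

open Polynomial Matrix Pool.Agent.WFS

variable {V V' V'' W : Type} [Fintype V] [DecidableEq V] [Fintype V'] [DecidableEq V'] [Fintype V'']
  [DecidableEq V''] [Fintype W] [DecidableEq W]

private theorem pol_iff_evx {q : ℤ[X]} : Pol q ↔ PosP q := Iff.rfl

/-- the geometric sum of the runs -/
private def gsevx (a h : ℕ) : ℤ[X] := ∑ m ∈ Finset.range h, X ^ (a * m)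

private theorem gsevx_nn (a h : ℕ) (d : ℕ) : 0 ≤ (gsevx a h).coeff d :=
  nn_sum (fun _ _ => nn_pow nn_X _) d

private theorem gsevx_mul (a h : ℕ) : gsevx a h * (1 - X ^ a) = 1 - X ^ (a * h) := by
  unfold gsevx
  have h1 := geom_sum_mul_neg (X ^ a : ℤ[X]) h
  rw [← pow_mul] at h1
  rw [← h1]
  congr 1
  exact Finset.sum_congr rfl fun m _ => pow_mul _ _ _

private theorem iter_evx {f : V → V} {h : ℕ} {v0 : V} (hf : ∀ v, f^[h] v = v0) : f v0 = v0 := by
  have h1 := hf (f v0)
  rw [← Function.iterate_succ_apply, Function.iterate_succ_apply', hf] at h1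
  exact h1

private theorem iter_fix_evx {f : V → V} {v0 : V} (hf : f v0 = v0) (m : ℕ) : f^[m] v0 = v0 :=
  Function.iterate_fixed hf m

/-- the matrix without the letter -/
private def D0evx (D : Matrix V V ℤ[X]) (a : ℕ) (f : V → V) (i j : V) : ℤ[X] :=
  D i j - X ^ a * (if f j = i then 1 else 0)

private theorem evD_eq_evx (D : Matrix V V ℤ[X]) (a h : ℕ) (f : V → V) (i j : V) :
    evD D a h f i j = ∑ m ∈ Finset.range h, X ^ (a * m) * D0evx D a f i (f^[m] j) := by
  unfold evD D0evx
  rw [Matrix.of_apply]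
  refine Finset.sum_congr rfl fun m _ => ?_
  rw [Function.iterate_succ_apply']

private theorem D0_sum_evx {κ : Num} {D : Matrix V V ℤ[X]} (hD : ∀ j, ∑ i, D i j = κ.p) (a : ℕ)
    (f : V → V) (j : V) : ∑ i, D0evx D a f i j = κ.p - X ^ a := by
  unfold D0evx
  rw [Finset.sum_sub_distrib, hD, ← Finset.mul_sum, Finset.sum_ite_eq, if_pos (Finset.mem_univ _),
    mul_one]

private theorem pol_sub_evx {p : ℤ[X]} (hp : Pol p) {a : ℕ} (ha : 1 ≤ a) (h1 : 1 ≤ p.coeff a) :
    Pol (p - X ^ a) := by
  refine ⟨?_, fun d => ?_⟩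
  · rw [coeff_sub, hp.1, Polynomial.coeff_X_pow, if_neg (by omega), sub_zero]
  · rw [coeff_sub, Polynomial.coeff_X_pow]
    split_ifs with hd
    · subst hd
      linarith
    · rw [sub_zero]
      exact hp.2 d

theorem ok_ev {κ : Num} (hκ : κ.Ok) (a h : ℕ) (ha : 1 ≤ a) (hh : 1 ≤ h) (h1 : 1 ≤ κ.p.coeff a) :
    (κ.ev a h).Ok := by
  have hp := pol_sub_evx hκ.p ha h1
  refine ⟨?_, ?_, ?_, ?_⟩
  · exact PosP.mul_right hp (gsevx_nn a h)
  · rintro (_ | s)
    · exact hp
    · exact hκ.q s
  · rintro (_ | s)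
    · exact posP_X_pow (Nat.mul_pos ha hh)
    · exact PosP.mul_right (hκ.y s) (gsevx_nn a h)
  · rintro (_ | s) (_ | s')
    · exact posP_X_pow ha
    · exact PosP.zero
    · exact hκ.y s
    · exact hκ.Z s s'

/-- THE EVENT: elimination of the letter `X ^ a * mapM f`, `f^[h]` constant -/
theorem uni_ev {κ : Num} {D : Matrix V V ℤ[X]} (hD : Uni κ D) (a h : ℕ) (ha : 1 ≤ a) (hh : 1 ≤ h)
    (f : V → V) (v0 : V) (hf : ∀ v, f^[h] v = v0)
    (hle : Pos (Matrix.of fun i j => D i j - X ^ a * (if f j = i then 1 else 0))) :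
    Uni (κ.ev a h) (evD D a h f) := by
  refine ⟨?_, ?_, ?_⟩
  · intro i j
    rw [evD_eq_evx]
    exact PosP.sum fun m _ => PosP.mul_left (hle i (f^[m] j)) (nn_pow nn_X _)
  · intro j
    have h1 : ∀ i, evD D a h f i j = ∑ m ∈ Finset.range h, X ^ (a * m) * D0evx D a f i (f^[m] j) :=
      fun i => evD_eq_evx D a h f i j
    rw [Finset.sum_congr rfl fun i _ => h1 i, Finset.sum_comm]
    show _ = (κ.p - X ^ a) * ∑ m ∈ Finset.range h, X ^ (a * m)
    rw [Finset.mul_sum]
    refine Finset.sum_congr rfl fun m _ => ?_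
    rw [← Finset.mul_sum, D0_sum_evx hD.sum, mul_comm]
  · intro z hz
    obtain ⟨u, hu, huz⟩ := hD.inv z hz
    have hFu : ∀ g : V → ℤ[X], ∑ j, g j * ∑ k, (if f k = j then u k else 0) = ∑ k, g (f k) * u k := by
      intro g
      simp only [Finset.mul_sum]
      rw [Finset.sum_comm]
      refine Finset.sum_congr rfl fun k _ => ?_
      simp
    refine ⟨fun i => u i - X ^ a * ∑ k, (if f k = i then u k else 0), ?_, ?_⟩
    · rw [Finset.sum_sub_distrib, hu, ← Finset.mul_sum, Finset.sum_comm]
      simp [hu]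
    · intro i
      have key : ∑ j, evD D a h f i j * (u j - X ^ a * ∑ k, (if f k = j then u k else 0)) =
          ∑ j, D0evx D a f i j * u j := by
        have h1 : ∀ j, evD D a h f i j * (u j - X ^ a * ∑ k, (if f k = j then u k else 0)) =
            ∑ m ∈ Finset.range h, (X ^ (a * m) * (D0evx D a f i (f^[m] j) * u j) -
              X ^ (a * (m + 1)) * (D0evx D a f i (f^[m] j) * ∑ k, (if f k = j then u k else 0))) := by
          intro j
          rw [evD_eq_evx, Finset.sum_mul]
          refine Finset.sum_congr rfl fun m _ => ?_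
          rw [mul_add, pow_add, mul_one]
          ring
        rw [Finset.sum_congr rfl fun j _ => h1 j, Finset.sum_comm]
        have h2 : ∀ m ∈ Finset.range h, ∑ j, (X ^ (a * m) * (D0evx D a f i (f^[m] j) * u j) -
              X ^ (a * (m + 1)) * (D0evx D a f i (f^[m] j) * ∑ k, (if f k = j then u k else 0))) =
            X ^ (a * m) * (∑ j, D0evx D a f i (f^[m] j) * u j) -
              X ^ (a * (m + 1)) * (∑ j, D0evx D a f i (f^[m + 1] j) * u j) := by
          intro m _
          rw [Finset.sum_sub_distrib, ← Finset.mul_sum, ← Finset.mul_sum]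
          congr 2
          rw [hFu fun j => D0evx D a f i (f^[m] j)]
          rfl
        rw [Finset.sum_congr rfl h2, Finset.sum_range_sub'
          (fun m => X ^ (a * m) * (∑ j, D0evx D a f i (f^[m] j) * u j))]
        have h3 : ∑ j, D0evx D a f i (f^[h] j) * u j = 0 := by
          rw [Finset.sum_congr rfl fun j _ => by rw [hf j], ← Finset.mul_sum, hu, mul_zero]
        simp only [h3, mul_zero, pow_zero, one_mul, sub_zero]
        rfl
      rw [key, ← huz i]
      have h4 : ∑ j, D0evx D a f i j * u j = ∑ j, D i j * u j -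
          X ^ a * ∑ k, (if f k = i then u k else 0) := by
        rw [Finset.mul_sum, ← Finset.sum_sub_distrib]
        refine Finset.sum_congr rfl fun j _ => ?_
        unfold D0evx
        split_ifs <;> ring
      rw [h4]
      ring

theorem exi_ev {κ : Num} {D : Matrix V V ℤ[X]} (hD : Uni κ D) (a h : ℕ)
    (f : V → V) (v0 : V)
    (hle : Pos (Matrix.of fun i j => D i j - X ^ a * (if f j = i then 1 else 0)))
    {Q : Matrix V κ.c ℤ[X]} (hQ : Exi κ Q) : Exi (κ.ev a h) (evQ D Q a h f v0) := by
  refine ⟨?_, ?_⟩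
  · rintro i (_ | s)
    · exact hle i v0
    · exact hQ.pos i s
  · rintro (_ | s)
    · exact D0_sum_evx hD.sum a f v0
    · exact hQ.sum s

/-- the intermediate matrices -/
private def tGevx (κ : Num) (D : Matrix V V ℤ[X]) (Q : Matrix V κ.c ℤ[X]) (a h : ℕ) (f : V → V)
    (v0 : V) (G : Finset V) : Matrix (V ⊕ Option κ.c) (V ⊕ Option κ.c) ℤ[X] := Matrix.of fun p q =>
  match q, p with
  | Sum.inl j, Sum.inl i => if j ∈ G then evD D a h f i j else if j = v0 then D0evx D a f i v0 else D i j
  | Sum.inl j, Sum.inr (some s) => if j ∈ G then κ.y s * gsevx a h else κ.y s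
  | Sum.inl j, Sum.inr none => if j ∈ G then X ^ (a * h) else if j = v0 then X ^ a else 0
  | Sum.inr (some s'), Sum.inl i => Q i s'
  | Sum.inr (some s'), Sum.inr (some s) => κ.Z s s'
  | Sum.inr (some _), Sum.inr none => 0
  | Sum.inr none, Sum.inl i => D0evx D a f i v0
  | Sum.inr none, Sum.inr (some s) => κ.y s
  | Sum.inr none, Sum.inr none => X ^ a

private theorem tGevx_pos {κ : Num} (hκ : κ.Ok) {D : Matrix V V ℤ[X]} (hD : Pos D) (a h : ℕ)
    (ha : 1 ≤ a) (hh : 1 ≤ h) (f : V → V) (v0 : V)
    (hle : Pos (Matrix.of fun i j => D i j - X ^ a * (if f j = i then 1 else 0)))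
    {Q : Matrix V κ.c ℤ[X]} (hQ : ∀ i s, Pol (Q i s)) (G : Finset V) :
    Pos (tGevx κ D Q a h f v0 G) := by
  rintro (i | _ | s) (j | _ | s')
  · show PosP (if j ∈ G then evD D a h f i j else if j = v0 then D0evx D a f i v0 else D i j)
    split_ifs
    · rw [evD_eq_evx]
      exact PosP.sum fun m _ => PosP.mul_left (hle i (f^[m] j)) (nn_pow nn_X _)
    · exact hle i v0
    · exact hD i j
  · exact hle i v0
  · exact hQ i s'
  · show PosP (if j ∈ G then X ^ (a * h) else if j = v0 then X ^ a else 0)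
    split_ifs
    · exact posP_X_pow (Nat.mul_pos ha hh)
    · exact posP_X_pow ha
    · exact PosP.zero
  · exact posP_X_pow ha
  · exact PosP.zero
  · show PosP (if j ∈ G then κ.y s * gsevx a h else κ.y s)
    split_ifs
    · exact PosP.mul_right (hκ.y s) (gsevx_nn a h)
    · exact hκ.y s
  · exact hκ.y s
  · exact hκ.Z s s'

theorem eqv_ev {κ : Num} (hκ : κ.Ok) {D : Matrix V V ℤ[X]} (hD : Uni κ D) (a h : ℕ) (ha : 1 ≤ a)
    (hh : 1 ≤ h) (f : V → V) (v0 : V) (hf : ∀ v, f^[h] v = v0)
    (hle : Pos (Matrix.of fun i j => D i j - X ^ a * (if f j = i then 1 else 0)))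
    {Q : Matrix V κ.c ℤ[X]} (hQ : Exi κ Q) :
    Eqv (κ.tot D Q) ((κ.ev a h).tot (evD D a h f) (evQ D Q a h f v0)) := by
  have hfv : f v0 = v0 := iter_evx hf
  have hPos := tGevx_pos hκ hD.pos a h ha hh f v0 hle hQ.pos
  have hgm := gsevx_mul a h
  -- step 1
  have s1 : Eqv (tGevx κ D Q a h f v0 ∅) (κ.tot D Q) := by
    let π : V ⊕ Option κ.c → V ⊕ κ.c := Sum.elim Sum.inl (fun s => s.elim (Sum.inl v0) Sum.inr)
    let ι : V ⊕ κ.c → V ⊕ Option κ.c := Sum.elim Sum.inl (fun s => Sum.inr (some s))
    have h1 := eqv_merge π (tGevx κ D Q a h f v0 ∅)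
      (Matrix.of fun p q => tGevx κ D Q a h f v0 ∅ p (ι q)) (fun s w => hPos ∅ s (ι w)) (by
        rintro (i | _ | s) (j | _ | s')
        · rfl
        · simp [π, ι, tGevx]
        · rfl
        · rfl
        · simp [π, ι, tGevx]
        · rfl
        · rfl
        · simp [π, ι, tGevx]
        · rfl)
    have h2 : (Matrix.of fun w w' => ∑ s, if π s = w then
        (Matrix.of fun p q => tGevx κ D Q a h f v0 ∅ p (ι q)) s w' else 0) = κ.tot D Q := by
      ext1 w w'
      rw [Matrix.of_apply, Fintype.sum_sum_type, Fintype.sum_option]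
      rcases w with i | s <;> rcases w' with j | s'
      · by_cases hj : j = v0
        · subst hj
          simp only [π, ι, tGevx, Num.tot, D0evx, Sum.elim_inl, Sum.elim_inr, Option.elim_none,
            Option.elim_some, Matrix.of_apply, Finset.notMem_empty, if_false, if_true,
            Sum.inl.injEq, reduceCtorEq, Finset.sum_const_zero, add_zero, Finset.sum_ite_eq',
            Finset.mem_univ, Matrix.fromBlocks_apply₁₁, hfv]
          split_ifs <;> ring
        · simp [π, ι, tGevx, Num.tot, hj]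
      · simp [π, ι, tGevx, Num.tot]
      · simp [π, ι, tGevx, Num.tot]
      · simp [π, ι, tGevx, Num.tot]
    rwa [h2] at h1
  -- step 2 (a)
  have s2 : Eqv (tGevx κ D Q a h f v0 ∅) (tGevx κ D Q a h f v0 {v0}) := by
    have hE : ∀ i, evD D a h f i v0 = D0evx D a f i v0 * gsevx a h := by
      intro i
      rw [evD_eq_evx]
      unfold gsevx
      rw [Finset.mul_sum]
      refine Finset.sum_congr rfl fun m _ => ?_
      rw [iter_fix_evx hfv, mul_comm]
    refine eqv_col (hPos _) (hPos _) (Sum.inl v0)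
      (Sum.elim (fun _ => 0) (fun s => s.elim (gsevx a h - 1) (fun _ => 0))) rfl ?_ ?_
    · rintro (i | _ | s) (j | _ | s') hj
      · have hj' : j ≠ v0 := fun h => hj (by rw [h])
        simp [tGevx, hj']
      · rfl
      · rfl
      · have hj' : j ≠ v0 := fun h => hj (by rw [h])
        simp [tGevx, hj']
      · rfl
      · rfl
      · have hj' : j ≠ v0 := fun h => hj (by rw [h])
        simp [tGevx, hj']
      · rfl
      · rfl
    · rintro (i | _ | s)
      · rw [Fintype.sum_sum_type, Fintype.sum_option]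
        simp [tGevx, hE]
        ring
      · rw [Fintype.sum_sum_type, Fintype.sum_option]
        simp [tGevx]
        linear_combination (-1 : ℤ[X]) * hgm
      · rw [Fintype.sum_sum_type, Fintype.sum_option]
        simp [tGevx]
        ring
  -- step 2 (b)
  have s3 : ∀ (G : Finset V) (j : V), v0 ∈ G → j ∉ G → f j ∈ G →
      Eqv (tGevx κ D Q a h f v0 G) (tGevx κ D Q a h f v0 (insert j G)) := by
    intro G j hv hj hfj
    have hjv : j ≠ v0 := fun h => hj (h ▸ hv)
    have hfjj : f j ≠ j := fun h => hj (h ▸ hfj)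
    have hE : ∀ i, evD D a h f i j = D0evx D a f i j + X ^ a * evD D a h f i (f j) -
        X ^ (a * h) * D0evx D a f i v0 := by
      intro i
      have h1 : evD D a (h + 1) f i j = evD D a h f i j + X ^ (a * h) * D0evx D a f i v0 := by
        rw [evD_eq_evx, evD_eq_evx, Finset.sum_range_succ, hf]
      have h2 : evD D a (h + 1) f i j = D0evx D a f i j + X ^ a * evD D a h f i (f j) := by
        rw [evD_eq_evx, evD_eq_evx, Finset.sum_range_succ', add_comm, Finset.mul_sum]
        congr 1
        · simp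
        · refine Finset.sum_congr rfl fun m _ => ?_
          rw [Function.iterate_succ_apply, mul_add, mul_one, pow_add]
          ring
      linear_combination h2 - h1
    refine eqv_col (hPos _) (hPos _) (Sum.inl j)
      (Sum.elim (fun i => if i = f j then X ^ a else 0)
        (fun s => s.elim (- X ^ (a * h)) (fun _ => 0))) ?_ ?_ ?_
    · show (if j = f j then (X ^ a : ℤ[X]) else 0) = 0
      rw [if_neg (Ne.symm hfjj)]
    · rintro (i | _ | s) (l | _ | s') hl
      · have hl' : l ≠ j := fun h => hl (by rw [h])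
        simp [tGevx, hl']
      · rfl
      · rfl
      · have hl' : l ≠ j := fun h => hl (by rw [h])
        simp [tGevx, hl']
      · rfl
      · rfl
      · have hl' : l ≠ j := fun h => hl (by rw [h])
        simp [tGevx, hl']
      · rfl
      · rfl
    · rintro (i | _ | s)
      · rw [Fintype.sum_sum_type, Fintype.sum_option]
        simp [tGevx, hj, hjv, hfj]
        rw [hE i]
        unfold D0evx
        by_cases hi : i = f j
        · rw [if_pos hi, if_pos hi.symm]
          ring
        · rw [if_neg hi, if_neg (Ne.symm hi)]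
          ring
      · rw [Fintype.sum_sum_type, Fintype.sum_option]
        simp [tGevx, hj, hjv, hfj]
        ring
      · rw [Fintype.sum_sum_type, Fintype.sum_option]
        simp [tGevx, hj, hfj]
        linear_combination (-κ.y s) * hgm
  have s4 : ∀ (G S : Finset V), v0 ∈ G → (∀ j ∈ S, f j ∈ G) →
      Eqv (tGevx κ D Q a h f v0 G) (tGevx κ D Q a h f v0 (G ∪ S)) := by
    intro G S hv
    induction S using Finset.induction_on with
    | empty =>
      intro _
      rw [Finset.union_empty]
      exact Eqv.refl _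
    | insert j S hj ih =>
      intro hS
      refine (ih fun l hl => hS l (Finset.mem_insert_of_mem hl)).trans ?_
      rw [Finset.union_insert]
      by_cases hjG : j ∈ G ∪ S
      · rw [Finset.insert_eq_self.2 hjG]
        exact Eqv.refl _
      · exact s3 _ j (Finset.mem_union_left _ hv) hjG
          (Finset.mem_union_left _ (hS j (Finset.mem_insert_self _ _)))
  have s5 : ∀ r : ℕ, Eqv (tGevx κ D Q a h f v0 {v0})
      (tGevx κ D Q a h f v0 (Finset.univ.filter fun j => f^[r] j = v0)) := by
    intro r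
    induction r with
    | zero =>
      have : (Finset.univ.filter fun j => f^[0] j = v0) = {v0} := by
        ext j
        simp
      rw [this]
      exact Eqv.refl _
    | succ r ih =>
      refine ih.trans ?_
      have h1 := s4 (Finset.univ.filter fun j => f^[r] j = v0)
        (Finset.univ.filter fun j => f^[r + 1] j = v0) (by simp [iter_fix_evx hfv]) (by
          intro j hj
          rw [Finset.mem_filter] at hj ⊢
          exact ⟨Finset.mem_univ _, by rw [← Function.iterate_succ_apply]; exact hj.2⟩)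
      have h2 : (Finset.univ.filter fun j => f^[r] j = v0) ∪
          (Finset.univ.filter fun j => f^[r + 1] j = v0) =
          (Finset.univ.filter fun j => f^[r + 1] j = v0) := by
        rw [Finset.union_eq_right]
        intro j hj
        rw [Finset.mem_filter] at hj ⊢
        exact ⟨Finset.mem_univ _, by rw [Function.iterate_succ_apply', hj.2, hfv]⟩
      rwa [h2] at h1
  have s6 : tGevx κ D Q a h f v0 (Finset.univ.filter fun j => f^[h] j = v0) =
      (κ.ev a h).tot (evD D a h f) (evQ D Q a h f v0) := by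
    ext1 p q
    rcases p with i | _ | s <;> rcases q with j | _ | s'
    · exact if_pos (by simp [hf])
    · rfl
    · rfl
    · exact if_pos (by simp [hf])
    · rfl
    · rfl
    · exact if_pos (by simp [hf])
    · rfl
    · rfl
  rw [← s6]
  exact s1.symm.trans (s2.trans (s5 h))

/-- the same letter is eliminated in two systems -/
theorem rel_ev {κ : Num} (hκ : κ.Ok) {D : Matrix V V ℤ[X]} {D' : Matrix V' V' ℤ[X]} (hD : Uni κ D)
    (hD' : Uni κ D') (a h : ℕ) (ha : 1 ≤ a) (hh : 1 ≤ h) (f : V → V) (v0 : V)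
    (hf : ∀ v, f^[h] v = v0)
    (hle : Pos (Matrix.of fun i j => D i j - X ^ a * (if f j = i then 1 else 0)))
    (f' : V' → V') (v0' : V') (hf' : ∀ v, f'^[h] v = v0')
    (hle' : Pos (Matrix.of fun i j => D' i j - X ^ a * (if f' j = i then 1 else 0))) :
    Rel κ D D' ↔ Rel (κ.ev a h) (evD D a h f) (evD D' a h f') := by
  have h1 : 1 ≤ κ.p.coeff a := by
    have h2 := congrArg (fun q => Polynomial.coeff q a) (D0_sum_evx hD.sum a f v0)
    simp only [finsetSum_coeff, coeff_sub, Polynomial.coeff_X_pow_self] at h2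
    have h3 : 0 ≤ ∑ i, (D0evx D a f i v0).coeff a := Finset.sum_nonneg fun i _ => (hle i v0).2 a
    linarith
  have hκ' := ok_ev hκ a h ha hh h1
  have hE := uni_ev hD a h ha hh f v0 hf hle
  have hE' := uni_ev hD' a h ha hh f' v0' hf' hle'
  have : Nonempty V := ⟨v0⟩
  have : Nonempty V' := ⟨v0'⟩
  constructor
  · intro hR Q Q' hQ hQ'
    obtain ⟨R, hR1⟩ := exi_exists (V := V) hκ
    obtain ⟨R', hR1'⟩ := exi_exists (V := V') hκ
    refine (eqv_exits hκ' hE hQ (exi_ev hD a h f v0 hle hR1)).trans ?_
    refine (eqv_ev hκ hD a h ha hh f v0 hf hle hR1).symm.trans ?_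
    refine (hR R R' hR1 hR1').trans ?_
    refine (eqv_ev hκ hD' a h ha hh f' v0' hf' hle' hR1').trans ?_
    exact eqv_exits hκ' hE' (exi_ev hD' a h f' v0' hle' hR1') hQ'
  · intro hR Q Q' hQ hQ'
    refine (eqv_ev hκ hD a h ha hh f v0 hf hle hQ).trans ?_
    refine (hR _ _ (exi_ev hD a h f v0 hle hQ) (exi_ev hD' a h f' v0' hle' hQ')).trans ?_
    exact (eqv_ev hκ hD' a h ha hh f' v0' hf' hle' hQ').symm

end Pool.Agent.WFG
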