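import Pool.Agent.WFG.Face
import Pool.Agent.WFG.SysEv

/-!
# Stabilisation, reindexing and constant letters, at the level of K-parts

PROOFS. `relE_stab`. If `κ` has no legal column for `E` there is nothing to prove; let `w` be legal for `E`
and `w~` on `Option (I ⊕ J)` equal to `w` on `none`, `some (inl i)` and `0` on `some (inr j)`. It is legal for
the block matrix, the columns `some (inr j)` and `none` of `mat (E ⊕ 0) w~` are equal, the rows
`some (inr j)` are 0: `rel_merge` with `π (some (inr j)) = none` gives `mat E w`. Then `relE_of_rel`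
(`det (1 - E ⊕ 0) = det (1 - E)`, `Matrix.det_fromBlocks_zero₂₁`).
`relE_reindex`: `mat (E.submatrix e e) (w ∘ Option.map e) = (mat E w).submatrix (e.optionCongr) ..` and
`rel_reindex`.
`relE_ev'`. `f = fun _ => y`, `f' = fun _ => y'`, `rel_ev` with `D = mat E w`, `D' = mat E' w'` (`hy` gives
the hypothesis `hle`: subtract `X ^ a` in the row `y`). `evD (mat E w) a h f = mat E w1` with
`w1 i = w i - X ^ a [y = i] + ∑_(1 ≤ m < h) X ^ (a m) (mat E w i y - X ^ a [y = i])`. `uni_ev`, `ok_ev` and
`relE_of_rel` in both directions.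
`relE_ev`: base columns as in `leg_of_rm` (`w (some i)` = row maxima, `w none` the rest; then the row
`none` has an entry `≥ 1` in degree `a` in all columns), `y = none`, `y' = none`, and `relE_ev'`.
-/

set_option autoImplicit false
set_option linter.unusedSectionVars false

noncomputable section

namespace Pool.Agent.WFG

open Polynomial Matrix Pool.Agent.WFS

variable {I J L : Type} [Fintype I] [DecidableEq I] [Fintype J] [DecidableEq J] [Fintype L]
  [DecidableEq L]

private theorem polz_st : Pol 0 := ⟨by simp, fun d => by simp⟩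

private theorem leg_pol_st {κ : Num} {E : Matrix I I ℤ[X]} {w : Option I → ℤ[X]} (hw : Leg κ E w)
    (a : Option I) : Pol (w a) := by
  have h := hw.pos a none
  have e : mat E w a none = w a := by
    rcases a with _ | i
    · exact add_zero _
    · exact add_zero _
  rw [e] at h
  exact h

private theorem det_blk_st {E : Matrix I I ℤ[X]} (hE : IsUnit (1 - E).det) :
    IsUnit (1 - (Matrix.fromBlocks E 0 0 (0 : Matrix J J ℤ[X]) : Matrix (I ⊕ J) (I ⊕ J) ℤ[X])).det := by
  have h : (1 - (Matrix.fromBlocks E 0 0 (0 : Matrix J J ℤ[X]) : Matrix (I ⊕ J) (I ⊕ J) ℤ[X])) =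
      Matrix.fromBlocks (1 - E) 0 0 (1 : Matrix J J ℤ[X]) := by
    ext1 a b
    rcases a with a | a <;> rcases b with b | b <;>
      simp [Matrix.one_apply]
  rw [h, Matrix.det_fromBlocks_zero₂₁, Matrix.det_one, mul_one]
  exact hE

/-- the extended base column -/
private def wt_st (w : Option I → ℤ[X]) : Option (I ⊕ J) → ℤ[X]
  | none => w none
  | some (Sum.inl i) => w (some i)
  | some (Sum.inr _) => 0

private theorem leg_st {κ : Num} {E : Matrix I I ℤ[X]} {w : Option I → ℤ[X]} (hw : Leg κ E w) :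
    Leg κ (Matrix.fromBlocks E 0 0 (0 : Matrix J J ℤ[X])) (wt_st (J := J) w) := by
  refine ⟨?_, mat_pos ?_ ?_ ?_⟩
  · rw [Fintype.sum_option, Fintype.sum_sum_type]
    have h := hw.sum
    rw [Fintype.sum_option] at h
    show w none + (∑ i, w (some i) + ∑ _j : J, (0 : ℤ[X])) = κ.p
    rw [Finset.sum_const_zero, add_zero]
    exact h
  · rintro (_ | i | j)
    · exact leg_pol_st hw none
    · exact leg_pol_st hw (some i)
    · exact polz_st
  · rintro (i | j) (i' | j')
    · exact hw.pos (some i) (some i')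
    · show Pol (w (some i) + 0)
      rw [add_zero]
      exact leg_pol_st hw (some i)
    · show Pol (0 + 0)
      rw [add_zero]
      exact polz_st
    · show Pol (0 + 0)
      rw [add_zero]
      exact polz_st
  · rintro (i' | j')
    · rw [Fintype.sum_sum_type]
      show Pol (w none + - (∑ i, E i i' + ∑ _j : J, (0 : ℤ[X])))
      rw [Finset.sum_const_zero, add_zero]
      exact hw.pos none (some i')
    · rw [Fintype.sum_sum_type]
      show Pol (w none + - (∑ _i : I, (0 : ℤ[X]) + ∑ _j : J, (0 : ℤ[X])))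
      rw [Finset.sum_const_zero, Finset.sum_const_zero, add_zero, neg_zero, add_zero]
      exact leg_pol_st hw none

/-- the projection of the states -/
private def pi_st : Option (I ⊕ J) → Option I
  | none => none
  | some (Sum.inl i) => some i
  | some (Sum.inr _) => none

private theorem merge_st (E : Matrix I I ℤ[X]) (w : Option I → ℤ[X]) :
    mergeM (pi_st (I := I) (J := J))
      (Matrix.of fun a b => mat (Matrix.fromBlocks E 0 0 (0 : Matrix J J ℤ[X])) (wt_st (J := J) w) a
        (b.map Sum.inl)) = mat E w := by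
  ext1 a b
  show (∑ i : Option (I ⊕ J), if pi_st i = a then
    mat (Matrix.fromBlocks E 0 0 (0 : Matrix J J ℤ[X])) (wt_st (J := J) w) i (b.map Sum.inl) else 0) =
      mat E w a b
  rw [Fintype.sum_option, Fintype.sum_sum_type]
  have hr : ∀ j : J, mat (Matrix.fromBlocks E 0 0 (0 : Matrix J J ℤ[X])) (wt_st (J := J) w)
      (some (Sum.inr j)) (b.map Sum.inl) = 0 := by
    intro j
    rcases b with _ | b
    · exact add_zero _
    · exact add_zero _
  have hr' : (∑ j : J, if pi_st (some (Sum.inr j) : Option (I ⊕ J)) = a then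
      mat (Matrix.fromBlocks E 0 0 (0 : Matrix J J ℤ[X])) (wt_st (J := J) w)
        (some (Sum.inr j)) (b.map Sum.inl) else 0) = 0 := by
    refine Finset.sum_eq_zero fun j _ => ?_
    rw [hr j]
    simp
  rw [hr', add_zero]
  rcases a with _ | a
  · have h1 : (∑ i : I, if pi_st (some (Sum.inl i) : Option (I ⊕ J)) = none then
        mat (Matrix.fromBlocks E 0 0 (0 : Matrix J J ℤ[X])) (wt_st (J := J) w)
          (some (Sum.inl i)) (b.map Sum.inl) else 0) = 0 := by
      refine Finset.sum_eq_zero fun i _ => if_neg ?_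
      show ¬ (some i = none)
      simp
    rw [h1, add_zero]
    refine (if_pos (show pi_st (none : Option (I ⊕ J)) = none from rfl)).trans ?_
    rcases b with _ | b
    · rfl
    · show w none + - ∑ i : I ⊕ J, Matrix.fromBlocks E 0 0 (0 : Matrix J J ℤ[X]) i (Sum.inl b) =
        w none + - ∑ i, E i b
      rw [Fintype.sum_sum_type]
      show w none + - (∑ i, E i b + ∑ _j : J, (0 : ℤ[X])) = _
      rw [Finset.sum_const_zero, add_zero]
  · have h0 : ¬ (pi_st (none : Option (I ⊕ J)) = some a) := by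
      show ¬ (none = some a)
      simp
    rw [if_neg h0, zero_add, Finset.sum_eq_single a]
    · refine (if_pos (show pi_st (some (Sum.inl a) : Option (I ⊕ J)) = some a from rfl)).trans ?_
      rcases b with _ | b
      · rfl
      · rfl
    · intro i _ hi
      refine if_neg ?_
      show ¬ (some i = some a)
      simpa using hi
    · intro hc
      exact absurd (Finset.mem_univ _) hc

/-- (ST) stabilisation -/
theorem relE_stab {κ : Num} (hκ : κ.Ok) {E : Matrix I I ℤ[X]} (hE : IsUnit (1 - E).det) :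
    RelE κ E (Matrix.fromBlocks E 0 0 (0 : Matrix J J ℤ[X])) := by
  intro w w' hw hw'
  have hE2 := det_blk_st (J := J) hE
  have hw2 := leg_st (J := J) hw
  have hU := uni_mat hE2 hw2
  have h1 := rel_merge hκ hU (pi_st (I := I) (J := J))
    (by
      rintro (_ | i)
      · exact ⟨none, rfl⟩
      · exact ⟨some (Sum.inl i), rfl⟩)
    (Matrix.of fun a b => mat (Matrix.fromBlocks E 0 0 (0 : Matrix J J ℤ[X])) (wt_st (J := J) w) a
        (b.map Sum.inl))
    (fun a b => hU.pos a _)
    (by
      intro a b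
      rcases b with _ | b | b
      · rfl
      · rfl
      · rcases a with _ | a | a
        · show w none + - ∑ i : I ⊕ J, Matrix.fromBlocks E 0 0 (0 : Matrix J J ℤ[X]) i (Sum.inr b) =
            w none + 0
          rw [Fintype.sum_sum_type]
          show w none + - (∑ _i : I, (0 : ℤ[X]) + ∑ _j : J, (0 : ℤ[X])) = _
          rw [Finset.sum_const_zero, Finset.sum_const_zero, add_zero, neg_zero]
        · rfl
        · rfl)
  rw [merge_st] at h1
  exact relE_of_rel hκ hE hE2 hw hw2 h1.symm w w' hw hw'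

theorem relE_reindex {κ : Num} (hκ : κ.Ok) {E : Matrix I I ℤ[X]} (hE : IsUnit (1 - E).det)
    (e : J ≃ I) : RelE κ E (E.submatrix e e) := by
  intro w w' hw hw'
  have hE2 : IsUnit (1 - E.submatrix e e).det := by
    have h : (1 - E.submatrix e e) = (1 - E).submatrix e e := by
      rw [Matrix.submatrix_sub]
      show 1 - E.submatrix e e = (1 : Matrix I I ℤ[X]).submatrix e e - E.submatrix e e
      rw [Matrix.submatrix_one_equiv]
    rw [h, Matrix.det_submatrix_equiv_self]
    exact hE
  have hm : mat (E.submatrix e e) (fun a => w (a.map e)) =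
      (mat E w).submatrix e.optionCongr e.optionCongr := by
    ext1 a b
    rcases a with _ | a
    · rcases b with _ | b
      · rfl
      · show w none + - ∑ i, E (e i) (e b) = w none + - ∑ i, E i (e b)
        rw [Equiv.sum_comp e fun i => E i (e b)]
    · rcases b with _ | b
      · rfl
      · rfl
  have hw2 : Leg κ (E.submatrix e e) (fun a => w (a.map e)) := by
    refine ⟨?_, ?_⟩
    · have h := hw.sum
      rw [← Equiv.sum_comp e.optionCongr] at h
      exact h
    · rw [hm]
      exact fun a b => hw.pos _ _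
  have h1 := (rel_reindex hκ (uni_mat hE hw) e.optionCongr).2
  rw [← hm] at h1
  exact relE_of_rel hκ hE hE2 hw hw2 h1 w w' hw hw'

/-- the base column after the elimination of a constant letter -/
private def w1_st (E : Matrix I I ℤ[X]) (w : Option I → ℤ[X]) (a h : ℕ) (y : Option I) :
    Option I → ℤ[X] := fun i =>
  w i + (- (X ^ a * (if y = i then 1 else 0)) + ∑ m ∈ Finset.range (h - 1),
    X ^ (a * (m + 1)) * (mat E w i y - X ^ a * (if y = i then 1 else 0)))

private theorem mat_add_st (E : Matrix I I ℤ[X]) (w c : Option I → ℤ[X]) (a b : Option I) :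
    mat E (fun i => w i + c i) a b = mat E w a b + c a := by
  unfold mat
  rw [Matrix.of_apply, Matrix.of_apply]
  ring

private theorem evD_st (E : Matrix I I ℤ[X]) (w : Option I → ℤ[X]) (a h : ℕ) (hh : 1 ≤ h)
    (y : Option I) : evD (mat E w) a h (fun _ => y) = mat E (w1_st E w a h y) := by
  ext1 i j
  unfold w1_st
  rw [mat_add_st]
  show ∑ m ∈ Finset.range h, X ^ (a * m) * (mat E w i ((fun _ => y)^[m] j) -
    X ^ a * (if (fun _ => y)^[m + 1] j = i then 1 else 0)) = _
  obtain ⟨k, rfl⟩ : ∃ k, h = k + 1 := ⟨h - 1, by omega⟩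
  have hit : ∀ (m : ℕ) (v : Option I), (fun _ : Option I => y)^[m + 1] v = y := by
    intro m v
    rw [Function.iterate_succ_apply']
  rw [Finset.sum_range_succ', Nat.add_sub_cancel]
  simp only [hit, Function.iterate_zero, id_eq, mul_zero, pow_zero, one_mul, Nat.zero_add]
  ring

private theorem hle_st {κ : Num} {E : Matrix I I ℤ[X]} {w : Option I → ℤ[X]} (hw : Leg κ E w)
    {a : ℕ} (ha : 1 ≤ a) (y : Option I) (hy : ∀ b, 1 ≤ (mat E w y b).coeff a) :
    Pos (Matrix.of fun i j => mat E w i j - X ^ a * (if (fun _ : Option I => y) j = i then 1 else 0)) := by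
  intro i j
  rw [Matrix.of_apply]
  show (mat E w i j - X ^ a * (if y = i then 1 else 0)).coeff 0 = 0 ∧
    ∀ d, 0 ≤ (mat E w i j - X ^ a * (if y = i then 1 else 0)).coeff d
  have hp := hw.pos i j
  by_cases h : y = i
  · subst h
    rw [if_pos rfl, mul_one]
    refine ⟨?_, fun d => ?_⟩
    · rw [Polynomial.coeff_sub, Polynomial.coeff_X_pow, if_neg (by omega), hp.1, sub_zero]
    · rw [Polynomial.coeff_sub, Polynomial.coeff_X_pow]
      by_cases hd : d = a
      · subst hd
        rw [if_pos rfl]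
        linarith [hy j]
      · rw [if_neg hd, sub_zero]
        exact hp.2 d
  · rw [if_neg h, mul_zero, sub_zero]
    exact hp

private theorem coeff_p_st {κ : Num} {E : Matrix I I ℤ[X]} {w : Option I → ℤ[X]} (hw : Leg κ E w)
    {a : ℕ} (y : Option I) (hy : ∀ b, 1 ≤ (mat E w y b).coeff a) : 1 ≤ κ.p.coeff a := by
  have h1 := (mat_sum E w none).trans hw.sum
  rw [← h1, Polynomial.finsetSum_coeff]
  exact (hy none).trans (Finset.single_le_sum (f := fun i => (mat E w i none).coeff a)
    (fun i _ => (hw.pos i none).2 a) (Finset.mem_univ y))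

private theorem relE_ev'_st {κ : Num} (hκ : κ.Ok) {E : Matrix I I ℤ[X]} {E' : Matrix J J ℤ[X]}
    (hE : IsUnit (1 - E).det) (hE' : IsUnit (1 - E').det) (a h : ℕ) (ha : 1 ≤ a) (hh : 1 ≤ h)
    {w : Option I → ℤ[X]} {w' : Option J → ℤ[X]} (hw : Leg κ E w) (hw' : Leg κ E' w')
    (y : Option I) (y' : Option J) (hy : ∀ b, 1 ≤ (mat E w y b).coeff a)
    (hy' : ∀ b, 1 ≤ (mat E' w' y' b).coeff a) :
    RelE κ E E' ↔ RelE (κ.ev a h) E E' := by
  have hκ' : (κ.ev a h).Ok := ok_ev hκ a h ha hh (coeff_p_st hw y hy)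
  have hf : ∀ v : Option I, (fun _ : Option I => y)^[h] v = y := by
    intro v
    obtain ⟨k, rfl⟩ : ∃ k, h = k + 1 := ⟨h - 1, by omega⟩
    rw [Function.iterate_succ_apply']
  have hf' : ∀ v : Option J, (fun _ : Option J => y')^[h] v = y' := by
    intro v
    obtain ⟨k, rfl⟩ : ∃ k, h = k + 1 := ⟨h - 1, by omega⟩
    rw [Function.iterate_succ_apply']
  have hl := hle_st hw ha y hy
  have hl' := hle_st hw' ha y' hy'
  have hU := uni_ev (uni_mat hE hw) a h ha hh (fun _ => y) y hf hl
  have hU' := uni_ev (uni_mat hE' hw') a h ha hh (fun _ => y') y' hf' hl'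
  rw [evD_st E w a h hh y] at hU
  rw [evD_st E' w' a h hh y'] at hU'
  have hL : Leg (κ.ev a h) E (w1_st E w a h y) := ⟨(mat_sum E _ none).symm.trans (hU.sum none), hU.pos⟩
  have hL' : Leg (κ.ev a h) E' (w1_st E' w' a h y') :=
    ⟨(mat_sum E' _ none).symm.trans (hU'.sum none), hU'.pos⟩
  have hR := rel_ev hκ (uni_mat hE hw) (uni_mat hE' hw') a h ha hh (fun _ => y) y hf hl
    (fun _ => y') y' hf' hl'
  rw [evD_st E w a h hh y, evD_st E' w' a h hh y'] at hR
  constructor
  · intro h1
    exact relE_of_rel hκ' hE hE' hL hL' (hR.1 (h1 w w' hw hw'))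
  · intro h1
    exact relE_of_rel hκ hE hE' hw hw' (hR.2 (h1 _ _ hL hL'))

private theorem leg_room_st {κ : Num} (hκ : κ.Ok) {E : Matrix I I ℤ[X]} (a : ℕ)
    (h : ∀ d, 2 * (rm E d : ℤ) + (if d = a then 1 else 0) ≤ κ.p.coeff d) :
    ∃ w, Leg κ E w ∧ ∀ b, 1 ≤ (mat E w none b).coeff a := by
  obtain ⟨N, hN⟩ := exists_rm_bd E
  have hr : ∀ d, ((rm E d : ℕ) : ℤ) = ∑ i, (rmx E i d : ℤ) := fun d => by
    rw [rm_eq, Nat.cast_sum]
  have h' : ∀ d, 2 * (rm E d : ℤ) ≤ κ.p.coeff d := fun d => by
    have := h d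
    split_ifs at this <;> linarith
  have hc : ∀ i d, (polyOf N fun d => (rmx E i d : ℤ)).coeff d = (rmx E i d : ℤ) := fun i d =>
    polyOf_coeff N _ (fun d hd => by simp [hN i d hd]) d
  have ha := h a
  rw [if_pos rfl] at ha
  have hpos : (0 : ℤ) ≤ (rm E a : ℤ) := by positivity
  have hL := leg_of_coeff hκ (E := E) N (fun i d => (rmx E i d : ℤ))
    (fun i d hd => by simp [hN i d hd]) (fun i d => by positivity)
    (fun i j d => by
      have := (abs_le.1 (abs_le_rmx E i j d)).1
      linarith)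
    (fun d => by
      rw [← hr]
      have h1 : (0 : ℤ) ≤ (rm E d : ℤ) := by positivity
      linarith [h' d])
    (fun j d => by
      rw [← hr]
      have := (abs_le.1 (abs_sum_le_rm E j d)).2
      linarith [h' d])
  refine ⟨_, hL, fun b => ?_⟩
  have hn : (κ.p - ∑ i, polyOf N (fun d => (rmx E i d : ℤ))).coeff a = κ.p.coeff a - (rm E a : ℤ) := by
    rw [Polynomial.coeff_sub, Polynomial.finsetSum_coeff, hr]
    simp only [hc]
  rcases b with _ | j
  · show 1 ≤ (κ.p - ∑ i, polyOf N (fun d => (rmx E i d : ℤ)) + 0).coeff a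
    rw [add_zero, hn]
    linarith
  · show 1 ≤ (κ.p - ∑ i, polyOf N (fun d => (rmx E i d : ℤ)) + - ∑ i, E i j).coeff a
    rw [Polynomial.coeff_add, hn, Polynomial.coeff_neg, Polynomial.finsetSum_coeff]
    have := (abs_le.1 (abs_sum_le_rm E j a)).2
    linarith

/-- (EC) the elimination of a constant letter of degree `a` -/
theorem relE_ev {κ : Num} (hκ : κ.Ok) {E : Matrix I I ℤ[X]} {E' : Matrix J J ℤ[X]}
    (hE : IsUnit (1 - E).det) (hE' : IsUnit (1 - E').det) (a h : ℕ) (ha : 1 ≤ a) (hh : 1 ≤ h)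
    (room : ∀ d, 2 * (rm E d : ℤ) + (if d = a then 1 else 0) ≤ κ.p.coeff d)
    (room' : ∀ d, 2 * (rm E' d : ℤ) + (if d = a then 1 else 0) ≤ κ.p.coeff d) :
    RelE κ E E' ↔ RelE (κ.ev a h) E E' := by
  obtain ⟨w, hw, hy⟩ := leg_room_st hκ a room
  obtain ⟨w', hw', hy'⟩ := leg_room_st hκ a room'
  exact relE_ev'_st hκ hE hE' a h ha hh hw hw' none none hy hy'

/-- (EC), with explicit legal base columns -/
theorem relE_ev' {κ : Num} (hκ : κ.Ok) {E : Matrix I I ℤ[X]} {E' : Matrix J J ℤ[X]}
    (hE : IsUnit (1 - E).det) (hE' : IsUnit (1 - E').det) (a h : ℕ) (ha : 1 ≤ a) (hh : 1 ≤ h)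
    {w : Option I → ℤ[X]} {w' : Option J → ℤ[X]} (hw : Leg κ E w) (hw' : Leg κ E' w')
    (y : Option I) (y' : Option J) (hy : ∀ b, 1 ≤ (mat E w y b).coeff a)
    (hy' : ∀ b, 1 ≤ (mat E' w' y' b).coeff a) :
    RelE κ E E' ↔ RelE (κ.ev a h) E E' :=
  relE_ev'_st hκ hE hE' a h ha hh hw hw' y y' hy hy'

end Pool.Agent.WFG
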