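import Pool.Agent.WFG.FaceTv
import Pool.Agent.WFS.LadF

/-!
# From small paths to related systems

A chain of right letters `Ch (wz r) (X ^ n) e g h` with a bound `Δ` for all degrees (`Ch.deg`) gives
`RelE κ (1 - g) (1 - h)` as soon as `8 e ≤ κ.p.coeff d * r ^ d` for `n ≤ d ≤ Δ`.
-/

set_option autoImplicit false
set_option linter.unusedSectionVars false

noncomputable section

namespace Pool.Agent.WFG

open Polynomial Matrix Pool.Agent.WFS Pool.WFS.Lad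

variable {ι : Type} [Fintype ι] [DecidableEq ι]

theorem rm_sub_comm (A B : Matrix ι ι ℤ[X]) (d : ℕ) : rm (A - B) d = rm (B - A) d := by
  unfold rm
  refine Finset.sum_congr rfl fun i _ => ?_
  congr 1
  funext j
  rw [Matrix.sub_apply, Matrix.sub_apply, Polynomial.coeff_sub, Polynomial.coeff_sub, ← Int.natAbs_neg]
  congr 1
  ring

theorem rm_eq_zero {E : Matrix ι ι ℤ[X]} {d : ℕ} (h : ∀ i j, (E i j).coeff d = 0) : rm E d = 0 := by
  unfold rm
  refine Finset.sum_eq_zero fun i _ => ?_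
  rw [← Nat.bot_eq_zero, Finset.sup_eq_bot_iff]
  intro j _
  rw [h i j]
  rfl

/-- the size of one member of the chain -/
theorem rm_le_of_small {κ : Num} (hκ : κ.Ok) {r e : ℝ} (hr : 0 < r) {n Δ c : ℕ} (hc : 0 < c)
    (hp : ∀ d, n ≤ d → d ≤ Δ → c * e ≤ (κ.p.coeff d : ℝ) * r ^ d) {g : SL ι ℤ[X]}
    (h1 : nr (wz r) e g) (h2 : Cg (X ^ n) g) (h3 : DegLe Δ g) (hn : 1 ≤ n) (d : ℕ) :
    (c : ℤ) * rm (1 - (g : Matrix ι ι ℤ[X])) d ≤ κ.p.coeff d := by
  rw [rm_sub_comm]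
  rcases lt_or_ge d n with hd | hd
  · have : rm ((g : Matrix ι ι ℤ[X]) - 1) d = 0 :=
      rm_eq_zero fun i j => Polynomial.X_pow_dvd_iff.1 (h2 i j) d hd
    rw [this]
    simpa using hκ.p.2 d
  rcases le_or_gt d Δ with hd' | hd'
  · have h4 := Sm.coeff_sup hr h1 d
    have h5 := hp d hd hd'
    have h6 : ((rm ((g : Matrix ι ι ℤ[X]) - 1) d : ℕ) : ℝ) * r ^ d ≤ e := h4
    have hrd : 0 < r ^ d := pow_pos hr d
    have hc' : (0 : ℝ) < c := by exact_mod_cast hc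
    have h7 : ((c : ℝ) * (rm ((g : Matrix ι ι ℤ[X]) - 1) d : ℕ)) * r ^ d ≤ (κ.p.coeff d : ℝ) * r ^ d := by
      rw [mul_assoc]
      exact (mul_le_mul_of_nonneg_left h6 hc'.le).trans h5
    have h8 := le_of_mul_le_mul_right h7 hrd
    exact_mod_cast h8
  · have : rm ((g : Matrix ι ι ℤ[X]) - 1) d = 0 := by
      refine rm_eq_zero fun i j => ?_
      rw [Matrix.sub_apply, Polynomial.coeff_sub,
        Polynomial.coeff_eq_zero_of_natDegree_lt (lt_of_le_of_lt (h3 i j) hd')]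
      have hd0 : d ≠ 0 := by omega
      by_cases hij : i = j
      · subst hij
        simp [Polynomial.coeff_one, hd0]
      · simp [Matrix.one_apply, hij]
    rw [this]
    simpa using hκ.p.2 d

theorem det_one_sub_one_sub (g : SL ι ℤ[X]) : IsUnit (1 - (1 - (g : Matrix ι ι ℤ[X]))).det := by
  rw [sub_sub_cancel, Matrix.SpecialLinearGroup.det_coe]
  exact isUnit_one

/-- THE BRIDGE -/
theorem relE_of_ch {κ : Num} (hκ : κ.Ok) {r e : ℝ} (hr : 0 < r) {n Δ : ℕ} (hn : 1 ≤ n)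
    (hp : ∀ d, n ≤ d → d ≤ Δ → 8 * e ≤ (κ.p.coeff d : ℝ) * r ^ d) {g h : SL ι ℤ[X]}
    (hc : Relation.ReflTransGen (fun a b : SL ι ℤ[X] => (nr (wz r) e a ∧ Cg (X ^ n) a ∧ DegLe Δ a) ∧
      (nr (wz r) e b ∧ Cg (X ^ n) b ∧ DegLe Δ b) ∧ Mv (wz r) (X ^ n) e (a⁻¹ * b)) g h) :
    RelE κ (1 - (g : Matrix ι ι ℤ[X])) (1 - (h : Matrix ι ι ℤ[X])) := by
  have key : ∀ a : SL ι ℤ[X], nr (wz r) e a ∧ Cg (X ^ n) a ∧ DegLe Δ a →
      ∀ d, (8 : ℤ) * rm (1 - (a : Matrix ι ι ℤ[X])) d ≤ κ.p.coeff d := by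
    intro a ha d
    have := rm_le_of_small hκ hr (c := 8) (by norm_num)
      (fun d h1 h2 => by simpa using hp d h1 h2) ha.1 ha.2.1 ha.2.2 hn d
    simpa using this
  induction hc with
  | refl => exact RelE.refl hκ (det_one_sub_one_sub g)
  | @tail a b _ hab ih =>
    obtain ⟨ha, hb, hm⟩ := hab
    refine ih.trans hκ (leg_of_rm hκ fun d => ?_) ?_
    · have h1 := key a ha d
      have h2 : (0 : ℤ) ≤ (rm (1 - (a : Matrix ι ι ℤ[X])) d : ℤ) := by positivity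
      linarith
    · obtain ⟨v, x, h1, h2, -⟩ := hm
      refine relE_tv hκ (det_one_sub_one_sub a) v x ?_ ?_ ?_
      · rw [dotProduct] at h2
        exact_mod_cast h2
      · rw [sub_sub_cancel, sub_sub_cancel]
        have h3 : (b : Matrix ι ι ℤ[X]) = (a : Matrix ι ι ℤ[X]) * ((a⁻¹ * b : SL ι ℤ[X]) :
            Matrix ι ι ℤ[X]) := by
          rw [← Matrix.SpecialLinearGroup.coe_mul, mul_inv_cancel_left]
        rw [h3, h1]
        rfl
      · intro d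
        have h3 := key a ha d
        have h4 := key b hb d
        linarith

/-- the bridge in the form used by the assembly: the degree bound `Δ` depends on the chain only -/
theorem exists_relE_of_ch {r e : ℝ} (hr : 0 < r) {n : ℕ} (hn : 1 ≤ n) {g h : SL ι ℤ[X]}
    (hg : Cg (X ^ n) g) (hc : Ch (wz r) (X ^ n) e g h) :
    ∃ Δ : ℕ, ∀ κ : Num, κ.Ok → (∀ d, n ≤ d → d ≤ Δ → 8 * e ≤ (κ.p.coeff d : ℝ) * r ^ d) →
      RelE κ (1 - (g : Matrix ι ι ℤ[X])) (1 - (h : Matrix ι ι ℤ[X])) := by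
  obtain ⟨Δ, hΔ⟩ := hc.deg hg
  exact ⟨Δ, fun κ hκ hp => relE_of_ch hκ hr hn hp hΔ⟩

end Pool.Agent.WFG
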