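import Pool.Agent.WFG.SysEv

/-!
# The number of letters after the elimination

`κ.evs h l`: letters of the degrees in the list `l` are eliminated, with runs `< h`. `Num.low n a1 H`: the letters of
degree 1 except one, then one letter of degree `a1`.

PROOFS. `star`: for one event `p' = (p - X^a) G`, `G = ∑_(m<h) X^(a m)`, `G (1 - X^a) = 1 - X^(a h)`, so
`(1 - p') (1 - X^a) = (1 - p) (1 - X^(a h)) + X^(a h) (1 - X^a) - ...`, precisely
`1 - p' = (1 - p) G + X^(a h)` (because `1 - p' = 1 - (p - X^a) G` and `G (1 - X^a) = 1 - X^(a h)`), hence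
`(1 - p') (1 - X^a) - (1 - p)` is a multiple of `X^(a h)`, and `M ≤ h ≤ a h`. Induction on `l` (`List.foldl`; it is
convenient to prove the statement for an arbitrary start `κ` instead of `Num.base n`).
`count`: put `Π = ∏_(a ∈ l) (1 - X^a)`, `θ q = X q'` (`Polynomial.derivative`). From `star` with `M = 2 N`:
`(1 - p) Π ≡ 1 - n X`, so `θ(1 - p) Π + (1 - p) θΠ ≡ - n X` mod `X^(2N)`. In the power series ring `ℤ⟦X⟧` all of
`1 - p`, `Π`, `1 - n X`, `1 - X^a` are invertible; `L u = θ(u) u⁻¹` is additive on products, congruent for congruent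
arguments, `L (1 - n X) = - ∑_(i ≥ 1) n^i X^i`, `L (1 - X^a) = - ∑_(a ∣ i, i ≥ 1) a X^i`, and `L (1 - p) ≡ - θ p` mod
`X^(2N)` because `p = 0` mod `X^N`. So for `1 ≤ i < 2 N`: `i p_i = n^i - ∑_(a ∈ l, a ∣ i) a` (the elements of `l` are
`< N` or `≥ 2N`, the latter do not divide `i`). For `i < N` the left-hand side is 0, hence
`a E_a ≤ ∑_(b ∈ l, b ∣ a) b = n^a`, `E_a` = number of `a` in `l`, for all `1 ≤ a < N`. For `N ≤ i < 2N`: the divisors
`a < N` of `i` are `< i`, hence `≤ i / 2 =: m`, and `∑_(a ∈ l, a ∣ i) a ≤ ∑_(1 ≤ a ≤ m) a E_a ≤ ∑_(1 ≤ a ≤ m) n^a ≤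
2 (n^m - 1)`; `4 (n^m - 1) ≤ n^(2m) ≤ n^i` (square). So `2 i p_i ≥ 2 n^i - n^i = n^i`.
(A recursive version without power series is fine as well: `t_i = i p_i + ∑_(0<k<i) p_k t_(i-k)`.)
`low_growth`: the events of degree 1: by induction on `k ≤ n - 1`: `p_(k) 1 = n - k` and `p_(k) d ≥ 1` for `1 ≤ d ≤ H`
(`(q G) d = ∑_(m < H, m ≤ d) q (d - m)`, `q = p_(k) - X` has coefficients `≥ 0`; `p_(1) d = n - 1` for `1 ≤ d ≤ H`).
The event of degree `a1`: `p' d = ∑_(m < H, a1 m ≤ d) (p - X^a1) (d - a1 m)`; the terms with `a1 m ≤ d - 1` are `≥ 1`,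
except that with `d - a1 m = a1`, which is `≥ 0`.
-/

set_option autoImplicit false
set_option linter.unusedSectionVars false

noncomputable section

namespace Pool.Agent.WFG

open Polynomial Matrix Pool.Agent.WFS

/-- the elimination of letters of the degrees in the list, runs `< h` -/
def Num.evs (κ : Num) (h : ℕ) (l : List ℕ) : Num := l.foldl (fun κ a => κ.ev a h) κ

/-- `n - 1` letters of degree 1 and one of degree `a1` are eliminated -/
def Num.low (n a1 H : ℕ) : Num := ((Num.base n).evs H (List.replicate (n - 1) 1)).ev a1 H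

private theorem gs_cnt (a h : ℕ) :
    (∑ m ∈ Finset.range h, X ^ (a * m) : ℤ[X]) * (1 - X ^ a) = 1 - X ^ (a * h) := by
  induction h with
  | zero => simp
  | succ h ih =>
    rw [Finset.sum_range_succ, add_mul, ih]
    ring

theorem star (κ : Num) (h M : ℕ) (hM : M ≤ h) (l : List ℕ) (hl : ∀ a ∈ l, 1 ≤ a) :
    (X ^ M : ℤ[X]) ∣ (1 - (κ.evs h l).p) * (l.map fun a => (1 - X ^ a : ℤ[X])).prod - (1 - κ.p) := by
  induction l generalizing κ with
  | nil => simp [Num.evs]
  | cons a l ih =>
    have h1 := ih (κ.ev a h) (fun b hb => hl b (List.mem_cons_of_mem _ hb))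
    have ha : 1 ≤ a := hl a List.mem_cons_self
    have h2 : (X ^ M : ℤ[X]) ∣ (1 - (κ.ev a h).p) * (1 - X ^ a) - (1 - κ.p) := by
      have e : (1 - (κ.ev a h).p) * (1 - X ^ a) - (1 - κ.p) = X ^ (a * h) * (κ.p - X ^ a) := by
        have := gs_cnt a h
        show (1 - (κ.p - X ^ a) * ∑ m ∈ Finset.range h, X ^ (a * m)) * (1 - X ^ a) - (1 - κ.p) = _
        linear_combination (-(κ.p - X ^ a)) * this
      rw [e]
      exact Dvd.dvd.mul_right (pow_dvd_pow X (hM.trans (Nat.le_mul_of_pos_left h ha))) _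
    have e3 : (1 - (κ.evs h (a :: l)).p) * ((a :: l).map fun a => (1 - X ^ a : ℤ[X])).prod - (1 - κ.p)
        = ((1 - ((κ.ev a h).evs h l).p) * (l.map fun a => (1 - X ^ a : ℤ[X])).prod
            - (1 - (κ.ev a h).p)) * (1 - X ^ a) + ((1 - (κ.ev a h).p) * (1 - X ^ a) - (1 - κ.p)) := by
      rw [List.map_cons, List.prod_cons]
      show (1 - ((κ.ev a h).evs h l).p) * _ - _ = _
      ring
    rw [e3]
    exact dvd_add (Dvd.dvd.mul_right h1 _) h2

/-- the sum of the divisors -/
private def sd_cnt (l : List ℕ) (i : ℕ) : ℤ := (l.map fun a => if a ∣ i then (a : ℤ) else 0).sum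

private def Al_cnt (l : List ℕ) : PowerSeries ℤ :=
  PowerSeries.mk fun i => if i = 0 then 0 else sd_cnt l i

private theorem B_cnt (a : ℕ) (ha : 1 ≤ a) :
    (PowerSeries.mk fun i => if i = 0 then (0 : ℤ) else if a ∣ i then (a : ℤ) else 0) *
      (1 - PowerSeries.X ^ a) = (a : PowerSeries ℤ) * PowerSeries.X ^ a := by
  ext i
  rw [mul_sub, mul_one, map_sub, PowerSeries.coeff_mul_X_pow', PowerSeries.coeff_mul_X_pow',
    PowerSeries.coeff_mk]
  have hc : ∀ j, PowerSeries.coeff j (a : PowerSeries ℤ) = if j = 0 then (a : ℤ) else 0 := by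
    intro j
    have : (a : PowerSeries ℤ) = PowerSeries.C (a : ℤ) := by simp
    rw [this, PowerSeries.coeff_C]
  rw [hc]
  by_cases h : a ≤ i
  · rw [if_pos h, if_pos h, PowerSeries.coeff_mk]
    have hi : i ≠ 0 := by omega
    rw [if_neg hi]
    have hd : a ∣ i - a ↔ a ∣ i := by
      rw [Nat.dvd_sub_iff_left h dvd_rfl]
    by_cases h0 : i - a = 0
    · have : i = a := by omega
      subst this
      simp
    · rw [if_neg h0, if_neg h0]
      by_cases h2 : a ∣ i
      · rw [if_pos h2, if_pos (hd.2 h2)]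
        ring
      · rw [if_neg h2, if_neg (fun h3 => h2 (hd.1 h3))]
        ring
  · rw [if_neg h, if_neg h]
    by_cases hi : i = 0
    · simp [hi]
    · have : ¬ a ∣ i := fun h2 => h (Nat.le_of_dvd (by omega) h2)
      simp [hi, this]

private theorem theta_prod_cnt (l : List ℕ) (hl : ∀ a ∈ l, 1 ≤ a) :
    ((X * derivative (l.map fun a => (1 - X ^ a : ℤ[X])).prod : ℤ[X]) : PowerSeries ℤ) =
      - (Al_cnt l * (((l.map fun a => (1 - X ^ a : ℤ[X])).prod : ℤ[X]) : PowerSeries ℤ)) := by
  induction l with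
  | nil =>
    have : Al_cnt [] = 0 := by
      ext i
      simp [Al_cnt, sd_cnt]
    simp [this]
  | cons a l ih =>
    have h1 := ih (fun b hb => hl b (List.mem_cons_of_mem _ hb))
    have ha : 1 ≤ a := hl a List.mem_cons_self
    have hB := B_cnt a ha
    have hA : Al_cnt (a :: l) = Al_cnt l +
        PowerSeries.mk fun i => if i = 0 then (0 : ℤ) else if a ∣ i then (a : ℤ) else 0 := by
      ext i
      simp only [Al_cnt, sd_cnt, PowerSeries.coeff_mk, map_add, List.map_cons, List.sum_cons]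
      split_ifs <;> simp [add_comm]
    have hd : (X * derivative (1 - X ^ a : ℤ[X]) : ℤ[X]) = - ((a : ℤ[X]) * X ^ a) := by
      have hC : (C ((a : ℕ) : ℤ) : ℤ[X]) = (a : ℤ[X]) := by simp
      have hX : (X ^ a : ℤ[X]) = X * X ^ (a - 1) := by
        rw [← pow_succ']
        congr 1
        omega
      rw [derivative_sub, derivative_one, zero_sub, derivative_X_pow, hC]
      rw [hX]
      ring
    rw [List.map_cons, List.prod_cons, hA]
    set R := (l.map fun a => (1 - X ^ a : ℤ[X])).prod
    have e : (X * derivative ((1 - X ^ a) * R) : ℤ[X]) =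
        (X * derivative (1 - X ^ a : ℤ[X])) * R + (1 - X ^ a) * (X * derivative R) := by
      rw [derivative_mul]
      ring
    rw [e, hd]
    push_cast [Polynomial.coe_mul, Polynomial.coe_add, Polynomial.coe_neg, Polynomial.coe_sub,
      Polynomial.coe_one, Polynomial.coe_pow, Polynomial.coe_X] at h1 ⊢
    have hca : ((a : ℤ[X]) : PowerSeries ℤ) = (a : PowerSeries ℤ) := by
      have h3 : (a : ℤ[X]) = C ((a : ℕ) : ℤ) := by simp
      rw [h3, Polynomial.coe_C]
      simp
    rw [h1, hca]
    linear_combination (R : PowerSeries ℤ) * hB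

private theorem gn_cnt (n : ℕ) :
    (PowerSeries.mk fun i => if i = 0 then (0 : ℤ) else (n : ℤ) ^ i) *
      (1 - (n : PowerSeries ℤ) * PowerSeries.X) = (n : PowerSeries ℤ) * PowerSeries.X := by
  have hc : (n : PowerSeries ℤ) = PowerSeries.C (n : ℤ) := by simp
  rw [hc]
  ext i
  rcases i with _ | i
  · simp
  · rw [mul_sub, mul_one, map_sub, PowerSeries.coeff_mk,
      show (PowerSeries.mk fun i => if i = 0 then (0 : ℤ) else (n : ℤ) ^ i) *
        (PowerSeries.C (n : ℤ) * PowerSeries.X) = PowerSeries.C (n : ℤ) *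
          ((PowerSeries.mk fun i => if i = 0 then (0 : ℤ) else (n : ℤ) ^ i) * PowerSeries.X) by ring,
      PowerSeries.coeff_C_mul, PowerSeries.coeff_C_mul, PowerSeries.coeff_succ_mul_X,
      PowerSeries.coeff_mk, PowerSeries.coeff_X]
    rcases i with _ | i
    · simp
    · simp [pow_succ]
      ring

private theorem evs_one_cnt {n : ℕ} (N h : ℕ) (hN : 1 ≤ N) (hh : 2 * N ≤ h) (l : List ℕ)
    (hl : ∀ a ∈ l, 1 ≤ a)
    (h0 : ∀ d, d < N → ((Num.base n).evs h l).p.coeff d = 0) (i : ℕ) (hi : 1 ≤ i)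
    (hi2 : i < 2 * N) :
    (i : ℤ) * ((Num.base n).evs h l).p.coeff i = (n : ℤ) ^ i - sd_cnt l i := by
  set P := ((Num.base n).evs h l).p with hP
  set R := (l.map fun a => (1 - X ^ a : ℤ[X])).prod with hR
  have hs := star (Num.base n) h (2 * N) hh l hl
  rw [← hP, ← hR] at hs
  have hb : (Num.base n).p = C (n : ℤ) * X := rfl
  rw [hb] at hs
  obtain ⟨K, hK⟩ := hs
  -- the derivative
  have hd : X * (- derivative P) * R + (1 - P) * (X * derivative R) + C (n : ℤ) * X =
      X ^ (2 * N) * (C ((2 * N : ℕ) : ℤ) * K + X * derivative K) := by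
    have h1 := congrArg (fun q => X * derivative q) hK
    simp only [derivative_sub, derivative_mul, derivative_one, derivative_C, derivative_X,
      zero_sub, derivative_X_pow] at h1
    have hX : (X ^ (2 * N) : ℤ[X]) = X * X ^ (2 * N - 1) := by
      rw [← pow_succ']
      congr 1
      omega
    rw [hX] at h1 ⊢
    linear_combination h1
  have hth := theta_prod_cnt l hl
  rw [← hR] at hth
  have hgn := gn_cnt n
  set A := Al_cnt l
  set G : PowerSeries ℤ := PowerSeries.mk fun i => if i = 0 then (0 : ℤ) else (n : ℤ) ^ i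
  have hd' := congrArg (fun q : ℤ[X] => (q : PowerSeries ℤ)) hd
  have hK' := congrArg (fun q : ℤ[X] => (q : PowerSeries ℤ)) hK
  have hCn : ((C (n : ℤ) : ℤ[X]) : PowerSeries ℤ) = (n : PowerSeries ℤ) := by
    rw [Polynomial.coe_C]
    simp
  simp only [Polynomial.coe_mul, Polynomial.coe_add, Polynomial.coe_neg, Polynomial.coe_sub,
    Polynomial.coe_one, Polynomial.coe_pow, Polynomial.coe_X, hCn] at hd' hK' hth
  set P' : PowerSeries ℤ := (P : PowerSeries ℤ)
  set R' : PowerSeries ℤ := (R : PowerSeries ℤ)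
  set D' : PowerSeries ℤ := ((derivative P : ℤ[X]) : PowerSeries ℤ)
  -- divisibility in the power series ring
  have h1 : (PowerSeries.X ^ (2 * N) : PowerSeries ℤ) ∣
      R' * (- (PowerSeries.X * D') + (1 - P') * (G - A)) := by
    refine ⟨(((C ((2 * N : ℕ) : ℤ) : ℤ[X]) : PowerSeries ℤ) * (K : PowerSeries ℤ) +
      PowerSeries.X * ((derivative K : ℤ[X]) : PowerSeries ℤ)) + G * (K : PowerSeries ℤ), ?_⟩
    linear_combination hd' + G * hK' + hgn - (1 - P') * hth
  have hRu : IsUnit R' := by
    rw [PowerSeries.isUnit_iff_constantCoeff]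
    have : PowerSeries.constantCoeff R' = R.coeff 0 := by
      rw [← PowerSeries.coeff_zero_eq_constantCoeff_apply, Polynomial.coeff_coe]
    rw [this]
    have : R.coeff 0 = 1 := by
      rw [hR, Polynomial.coeff_zero_eq_eval_zero, Polynomial.eval_list_prod]
      have : ∀ x ∈ ((l.map fun a => (1 - X ^ a : ℤ[X])).map (Polynomial.eval 0)), x = 1 := by
        intro x hx
        simp only [List.map_map, List.mem_map, Function.comp] at hx
        obtain ⟨a, ha, rfl⟩ := hx
        have := hl a ha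
        have ha0 : a ≠ 0 := by omega
        simp [ha0]
      rw [List.prod_eq_one this]
    rw [this]
    exact isUnit_one
  have h2 : (PowerSeries.X ^ (2 * N) : PowerSeries ℤ) ∣
      (- (PowerSeries.X * D') + (1 - P') * (G - A)) := (hRu.dvd_mul_left).1 h1
  have hPN : (PowerSeries.X ^ N : PowerSeries ℤ) ∣ P' := by
    rw [PowerSeries.X_pow_dvd_iff]
    intro m hm
    rw [Polynomial.coeff_coe]
    exact h0 m hm
  have hDN : (PowerSeries.X ^ N : PowerSeries ℤ) ∣ PowerSeries.X * D' := by
    rw [PowerSeries.X_pow_dvd_iff]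
    intro m hm
    rcases m with _ | m
    · simp
    · rw [PowerSeries.coeff_succ_X_mul, Polynomial.coeff_coe, Polynomial.coeff_derivative,
        h0 (m + 1) hm, zero_mul]
  have hPu : IsUnit (1 - P') := by
    rw [PowerSeries.isUnit_iff_constantCoeff]
    have : PowerSeries.constantCoeff P' = P.coeff 0 := by
      rw [← PowerSeries.coeff_zero_eq_constantCoeff_apply, Polynomial.coeff_coe]
    rw [map_sub, this, h0 0 (by omega)]
    simp
  have h3 : (PowerSeries.X ^ N : PowerSeries ℤ) ∣ G - A := by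
    have h4 : (PowerSeries.X ^ N : PowerSeries ℤ) ∣ (1 - P') * (G - A) := by
      have h5 := (pow_dvd_pow (PowerSeries.X : PowerSeries ℤ) (show N ≤ 2 * N by omega)).trans h2
      have h6 := dvd_add h5 hDN
      have e : - (PowerSeries.X * D') + (1 - P') * (G - A) + PowerSeries.X * D' =
          (1 - P') * (G - A) := by ring
      rwa [e] at h6
    exact (hPu.dvd_mul_left).1 h4
  have h5 : (PowerSeries.X ^ (2 * N) : PowerSeries ℤ) ∣ PowerSeries.X * D' - (G - A) := by
    have h6 : (PowerSeries.X ^ (2 * N) : PowerSeries ℤ) ∣ P' * (G - A) := by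
      rw [two_mul, pow_add]
      exact mul_dvd_mul hPN h3
    have h7 := dvd_add h2 h6
    have e : PowerSeries.X * D' - (G - A) =
        - (- (PowerSeries.X * D') + (1 - P') * (G - A) + P' * (G - A)) := by ring
    rw [e]
    exact (dvd_neg).2 h7
  rw [PowerSeries.X_pow_dvd_iff] at h5
  have h6 := h5 i hi2
  obtain ⟨j, rfl⟩ : ∃ j, i = j + 1 := ⟨i - 1, by omega⟩
  have hG : PowerSeries.coeff (j + 1) G = (n : ℤ) ^ (j + 1) := by
    simp [G]
  have hA : PowerSeries.coeff (j + 1) A = sd_cnt l (j + 1) := by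
    simp [A, Al_cnt]
  rw [map_sub, map_sub, PowerSeries.coeff_succ_X_mul, Polynomial.coeff_coe,
    Polynomial.coeff_derivative, hG, hA] at h6
  push_cast
  linarith

private theorem geo_cnt {n : ℕ} (hn : 2 ≤ n) (m : ℕ) :
    ∑ j ∈ Finset.Icc 1 m, (n : ℤ) ^ j ≤ 2 * ((n : ℤ) ^ m - 1) := by
  induction m with
  | zero => simp
  | succ m ih =>
    rw [Finset.sum_Icc_succ_top (by omega)]
    have h1 : (0 : ℤ) ≤ (n : ℤ) ^ m := by positivity
    have h2 : (2 : ℤ) ≤ n := by exact_mod_cast hn
    have h3 : (n : ℤ) ^ (m + 1) = n ^ m * n := pow_succ _ _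
    nlinarith

theorem count {n : ℕ} (hn : 2 ≤ n) (N h : ℕ) (hN : 1 ≤ N) (hh : 2 * N ≤ h) (l : List ℕ)
    (hl : ∀ a ∈ l, 1 ≤ a ∧ (a < N ∨ 2 * N ≤ a))
    (h0 : ∀ d, d < N → ((Num.base n).evs h l).p.coeff d = 0) (d : ℕ) (hd : N ≤ d)
    (hd2 : d < 2 * N) : (n : ℤ) ^ d ≤ 2 * d * ((Num.base n).evs h l).p.coeff d := by
  have hl1 : ∀ a ∈ l, 1 ≤ a := fun a ha => (hl a ha).1
  have key := fun i => evs_one_cnt N h hN hh l hl1 h0 i
  have hlow : ∀ j ∈ Finset.Icc 1 (d / 2), sd_cnt l j = (n : ℤ) ^ j := by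
    intro j hj
    rw [Finset.mem_Icc] at hj
    have h1 := key j hj.1 (by omega)
    rw [h0 j (by omega), mul_zero] at h1
    linarith
  have hsd : sd_cnt l d ≤ ∑ j ∈ Finset.Icc 1 (d / 2), sd_cnt l j := by
    have hgen : ∀ l' : List ℕ, (∀ a ∈ l', 1 ≤ a ∧ (a < N ∨ 2 * N ≤ a)) →
        sd_cnt l' d ≤ ∑ j ∈ Finset.Icc 1 (d / 2), sd_cnt l' j := by
      intro l'
      induction l' with
      | nil => simp [sd_cnt]
      | cons a l' ih =>
        intro hl'
        have h1 := ih (fun b hb => hl' b (List.mem_cons_of_mem _ hb))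
        have h2 := hl' a List.mem_cons_self
        have e : ∀ i, sd_cnt (a :: l') i = (if a ∣ i then (a : ℤ) else 0) + sd_cnt l' i := by
          intro i
          simp [sd_cnt]
        simp only [e, Finset.sum_add_distrib]
        refine add_le_add ?_ h1
        by_cases had : a ∣ d
        · rw [if_pos had]
          have hle : a ≤ d := Nat.le_of_dvd (by omega) had
          have haN : a < N := by omega
          have had2 : a ≤ d / 2 := by
            obtain ⟨c, hc⟩ := had
            have hc2 : 2 ≤ c := by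
              rcases c with _ | _ | c
              · omega
              · omega
              · omega
            rw [Nat.le_div_iff_mul_le (by norm_num), hc]
            exact Nat.mul_le_mul_left a hc2
          have hmem : a ∈ Finset.Icc 1 (d / 2) := Finset.mem_Icc.2 ⟨h2.1, had2⟩
          have h3 := Finset.single_le_sum (f := fun j => if a ∣ j then (a : ℤ) else 0)
            (fun j _ => by
              split_ifs
              · exact Int.natCast_nonneg a
              · exact le_refl _) hmem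
          simpa using h3
        · rw [if_neg had]
          exact Finset.sum_nonneg fun j _ => by
            split_ifs
            · exact Int.natCast_nonneg a
            · exact le_refl _
    exact hgen l hl
  rw [Finset.sum_congr rfl hlow] at hsd
  have h1 := key d (by omega) hd2
  have h2 := geo_cnt hn (d / 2)
  have h3 : ((n : ℤ) ^ (d / 2)) ^ 2 ≤ (n : ℤ) ^ d := by
    rw [← pow_mul]
    exact pow_le_pow_right₀ (by exact_mod_cast (by omega : 1 ≤ n)) (by omega)
  nlinarith [sq_nonneg ((n : ℤ) ^ (d / 2) - 2)]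

private theorem evc_cnt (κ : Num) (a h d : ℕ) :
    (κ.ev a h).p.coeff d =
      ∑ m ∈ Finset.range h, if a * m ≤ d then (κ.p - X ^ a).coeff (d - a * m) else 0 := by
  show ((κ.p - X ^ a) * ∑ m ∈ Finset.range h, X ^ (a * m) : ℤ[X]).coeff d = _
  rw [Finset.mul_sum, finsetSum_coeff]
  exact Finset.sum_congr rfl fun m _ => coeff_mul_X_pow' _ _ _

private theorem evs_rep_cnt (κ : Num) (h k : ℕ) :
    κ.evs h (List.replicate (k + 1) 1) = (κ.evs h (List.replicate k 1)).ev 1 h := by
  rw [List.replicate_succ']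
  simp [Num.evs, List.foldl_append]

private theorem early_cnt {n : ℕ} (hn : 2 ≤ n) (H : ℕ) (hH : 2 ≤ H) (k : ℕ) (hk : k ≤ n - 1) :
    ((Num.base n).evs H (List.replicate k 1)).Ok ∧
    ((Num.base n).evs H (List.replicate k 1)).p.coeff 1 = (n : ℤ) - k ∧
    (1 ≤ k → ∀ d, 1 ≤ d → d ≤ H →
      1 ≤ ((Num.base n).evs H (List.replicate k 1)).p.coeff d) := by
  induction k with
  | zero =>
    refine ⟨?_, ?_, ?_⟩
    · exact ok_base n
    · show (C (n : ℤ) * X : ℤ[X]).coeff 1 = _
      simp
    · intro h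
      omega
  | succ k ih =>
    obtain ⟨h1, h2, -⟩ := ih (by omega)
    rw [evs_rep_cnt]
    set κ := (Num.base n).evs H (List.replicate k 1)
    have hq0 : (κ.p - X ^ 1).coeff 0 = 0 := by
      rw [coeff_sub, h1.p.1]
      simp
    have hq1 : (κ.p - X ^ 1).coeff 1 = (n : ℤ) - (k + 1) := by
      rw [coeff_sub, h2]
      simp
      ring
    have hq : ∀ j, 0 ≤ (κ.p - X ^ 1).coeff j := by
      intro j
      by_cases hj : j = 1
      · subst hj
        rw [hq1]
        have : ((k + 1 : ℕ) : ℤ) ≤ n := by exact_mod_cast (by omega : k + 1 ≤ n)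
        push_cast at this
        linarith
      · rw [coeff_sub, pow_one, coeff_X]
        have := h1.p.2 j
        rw [if_neg (fun h => hj h.symm)]
        linarith
    have hge : ∀ d, 1 ≤ d → d ≤ H → (n : ℤ) - (k + 1) ≤ (κ.ev 1 H).p.coeff d := by
      intro d hd hdH
      rw [evc_cnt]
      have hmem : d - 1 ∈ Finset.range H := by
        rw [Finset.mem_range]
        omega
      have h3 := Finset.single_le_sum
        (f := fun m => if 1 * m ≤ d then (κ.p - X ^ 1).coeff (d - 1 * m) else 0)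
        (fun m _ => by
          show 0 ≤ (if 1 * m ≤ d then (κ.p - X ^ 1).coeff (d - 1 * m) else 0)
          split_ifs
          · exact hq _
          · exact le_refl _) hmem
      have e : (if 1 * (d - 1) ≤ d then (κ.p - X ^ 1).coeff (d - 1 * (d - 1)) else 0) =
          (n : ℤ) - (k + 1) := by
        rw [if_pos (by omega), show d - 1 * (d - 1) = 1 by omega, hq1]
      exact e ▸ h3
    have hnk : (1 : ℤ) ≤ (n : ℤ) - k := by
      have : ((k + 1 : ℕ) : ℤ) ≤ n := by exact_mod_cast (by omega : k + 1 ≤ n)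
      push_cast at this
      linarith
    refine ⟨?_, ?_, ?_⟩
    · exact ok_ev h1 1 H le_rfl (by omega) (by rw [h2]; exact hnk)
    · rw [evc_cnt]
      have : ∀ m ∈ Finset.range H, (if 1 * m ≤ 1 then (κ.p - X ^ 1).coeff (1 - 1 * m) else 0) =
          if m = 0 then (n : ℤ) - (k + 1) else 0 := by
        intro m _
        rcases m with _ | _ | m
        · simp only [mul_zero, Nat.zero_le, if_true, Nat.sub_zero]
          exact hq1
        · simp only [zero_add, mul_one, le_refl, if_true, Nat.sub_self, one_ne_zero, if_false]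
          exact hq0
        · rw [if_neg (by omega), if_neg (by omega)]
      rw [Finset.sum_congr rfl this, Finset.sum_ite_eq', if_pos (Finset.mem_range.2 (by omega))]
      push_cast
      ring
    · intro _ d hd hdH
      have h4 := hge d hd hdH
      have : ((k + 1 + 1 : ℕ) : ℤ) ≤ n := by exact_mod_cast (by omega : k + 1 + 1 ≤ n)
      push_cast at this
      linarith

theorem ok_low {n : ℕ} (hn : 2 ≤ n) (a1 H : ℕ) (ha : 2 ≤ a1) (hH : a1 ≤ H) : (Num.low n a1 H).Ok := by
  obtain ⟨h1, -, h3⟩ := early_cnt hn H (by omega) (n - 1) le_rfl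
  exact ok_ev h1 a1 H (by omega) (by omega) (h3 (by omega) a1 (by omega) hH)

/-- the growth of `p` at the early stage -/
theorem low_growth {n : ℕ} (hn : 2 ≤ n) (a1 H : ℕ) (ha : 2 ≤ a1) (hH : a1 ≤ H) :
    (∀ d, 1 ≤ d → d ≤ H → d ≠ a1 → 1 ≤ (Num.low n a1 H).p.coeff d) ∧
    (∀ d, d ≤ H → (((d - 1) / a1 : ℕ) : ℤ) ≤ (Num.low n a1 H).p.coeff d) := by
  obtain ⟨h1, -, h3⟩ := early_cnt hn H (by omega) (n - 1) le_rfl
  have h3 := h3 (by omega)
  unfold Num.low
  set κ := (Num.base n).evs H (List.replicate (n - 1) 1)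
  have hqa : 0 ≤ (κ.p - X ^ a1).coeff a1 := by
    have := h3 a1 (by omega) hH
    rw [coeff_sub, coeff_X_pow, if_pos rfl]
    linarith
  have hqne : ∀ j, j ≠ a1 → (κ.p - X ^ a1).coeff j = κ.p.coeff j := by
    intro j hj
    rw [coeff_sub, coeff_X_pow, if_neg hj, sub_zero]
  have hq : ∀ j, 0 ≤ (κ.p - X ^ a1).coeff j := by
    intro j
    by_cases hj : j = a1
    · rw [hj]
      exact hqa
    · rw [hqne j hj]
      exact h1.p.2 j
  have hnn : ∀ d m, 0 ≤ (if a1 * m ≤ d then (κ.p - X ^ a1).coeff (d - a1 * m) else 0) := by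
    intro d m
    split_ifs
    · exact hq _
    · exact le_refl _
  refine ⟨?_, ?_⟩
  · intro d hd hdH hda
    rw [evc_cnt]
    have hmem : 0 ∈ Finset.range H := Finset.mem_range.2 (by omega)
    have h4 := Finset.single_le_sum
      (f := fun m => if a1 * m ≤ d then (κ.p - X ^ a1).coeff (d - a1 * m) else 0)
      (fun m _ => hnn d m) hmem
    have e : (if a1 * 0 ≤ d then (κ.p - X ^ a1).coeff (d - a1 * 0) else 0) = κ.p.coeff d := by
      rw [mul_zero, if_pos (Nat.zero_le _), Nat.sub_zero, hqne d hda]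
    exact (h3 d hd hdH).trans (e ▸ h4)
  · intro d hdH
    rw [evc_cnt]
    rcases Nat.eq_zero_or_pos d with hd0 | hd0
    · subst hd0
      have h5 : (0 : ℤ) ≤ ∑ m ∈ Finset.range H,
          (if a1 * m ≤ 0 then (κ.p - X ^ a1).coeff (0 - a1 * m) else 0) :=
        Finset.sum_nonneg fun m _ => hnn 0 m
      simpa using h5
    set K := (d - 1) / a1 with hK
    have hKm : a1 * K ≤ d - 1 := by
      rw [hK]
      exact Nat.mul_div_le _ _
    have hKH : K + 1 ≤ H := by
      have : K ≤ (d - 1) / 2 := Nat.div_le_div_left ha (by norm_num)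
      omega
    have hsub : Finset.range (K + 1) ⊆ Finset.range H := Finset.range_subset_range.2 hKH
    refine le_trans ?_ (Finset.sum_le_sum_of_subset_of_nonneg hsub fun m _ _ => hnn d m)
    have hterm : ∀ m ∈ Finset.range (K + 1), (if m = d / a1 - 1 then (0 : ℤ) else 1) ≤
        (if a1 * m ≤ d then (κ.p - X ^ a1).coeff (d - a1 * m) else 0) := by
      intro m hm
      rw [Finset.mem_range] at hm
      have hm1 : a1 * m ≤ d - 1 := le_trans (Nat.mul_le_mul_left a1 (by omega)) hKm
      by_cases hm0 : m = d / a1 - 1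
      · rw [if_pos hm0]
        exact hnn d m
      · rw [if_neg hm0, if_pos (by omega)]
        have hne : d - a1 * m ≠ a1 := by
          intro h5
          apply hm0
          have h6 : d = a1 * (m + 1) := by
            rw [mul_add, mul_one]
            omega
          rw [h6, Nat.mul_div_cancel_left _ (by omega)]
          omega
        rw [hqne _ hne]
        exact h3 _ (by omega) (by omega)
    refine le_trans ?_ (Finset.sum_le_sum hterm)
    have e : ∑ m ∈ Finset.range (K + 1), (if m = d / a1 - 1 then (0 : ℤ) else 1) =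
        (K + 1 : ℕ) - ∑ m ∈ Finset.range (K + 1), (if m = d / a1 - 1 then (1 : ℤ) else 0) := by
      rw [eq_sub_iff_add_eq, ← Finset.sum_add_distrib]
      have : ∀ m ∈ Finset.range (K + 1), ((if m = d / a1 - 1 then (0 : ℤ) else 1) +
          if m = d / a1 - 1 then (1 : ℤ) else 0) = 1 := by
        intro m _
        split_ifs <;> norm_num
      rw [Finset.sum_congr rfl this]
      simp
    rw [e, Finset.sum_ite_eq']
    split_ifs <;> push_cast <;> linarith

end Pool.Agent.WFG
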