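import Pool.Agent.WFG.ElimK

/-!
# The run of the elimination
-/

set_option autoImplicit false
set_option linter.unusedSectionVars false

noncomputable section

namespace Pool.Agent.WFG

open Polynomial Matrix Pool.Agent.WFS Pool.Agent.WFS.Lab

variable {n : ℕ} {I J : Type} [Fintype I] [DecidableEq I] [Fintype J] [DecidableEq J]

/-- the letters as words -/
def W0 (n : ℕ) : Finset (List (Fin n)) := Finset.univ.image fun a => [a]

theorem mem_W0 (a : Fin n) : [a] ∈ W0 n := Finset.mem_image.2 ⟨a, Finset.mem_univ _, rfl⟩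

theorem pc_W0 : Pc (W0 n) := by
  refine ⟨?_, ?_⟩
  · intro w hw
    obtain ⟨a, -, rfl⟩ := Finset.mem_image.1 hw
    simp
  · intro u hu v hv h
    obtain ⟨a, -, rfl⟩ := Finset.mem_image.1 hu
    obtain ⟨b, -, rfl⟩ := Finset.mem_image.1 hv
    exact h.eq_of_length rfl

theorem sum_W0 {M : Type} [AddCommMonoid M] (g : List (Fin n) → M) :
    ∑ w ∈ W0 n, g w = ∑ a, g [a] := by
  unfold W0
  rw [Finset.sum_image]
  intro a _ b _ h
  exact List.head_eq_of_cons_eq h

theorem pW_W0 : pW (W0 n) = (Num.base n).p := by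
  unfold pW
  rw [sum_W0]
  simp [Num.base]

theorem dW_W0 {V : Type} [DecidableEq V] (F : Fin n → V → V) :
    dW F (W0 n) = Matrix.of fun i j => C (am F i j : ℤ) * X := by
  ext1 i j
  unfold dW
  rw [Matrix.of_apply, sum_W0, Matrix.of_apply, am_eq_sum]
  push_cast
  rw [map_sum, Finset.sum_mul]
  refine Finset.sum_congr rfl fun a _ => ?_
  show X ^ 1 * (if F a j = i then (1 : ℤ[X]) else 0) = _
  split_ifs <;> simp

theorem kp_W0 (F : Fin n → Option I → Option I) :
    kp (dW F (W0 n)) = (X : ℤ[X]) • (kq ((am F).map (Nat.cast : ℕ → ℤ))).map C := by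
  rw [dW_W0]
  ext1 i j
  show C (am F (some i) (some j) : ℤ) * X - C (am F (some i) none : ℤ) * X =
    X * C ((am F (some i) (some j) : ℤ) - (am F (some i) none : ℤ))
  rw [map_sub]
  ring

theorem uni_of_kp {κ : Num} {D : Matrix (Option I) (Option I) ℤ[X]} (hD : Pos D)
    (hs : ∀ j, ∑ i, D i j = κ.p) (hu : IsUnit (1 - kp D).det) : Uni κ D := by
  have h1 := mat_kp hs
  rw [← h1]
  refine uni_mat hu ⟨hs none, ?_⟩
  rw [h1]
  exact hD

theorem uni_W0 (F : Fin n → Option I → Option I)
    (hnil : IsNilpotent (kq ((am F).map (Nat.cast : ℕ → ℤ)))) :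
    Uni (Num.base n) (dW F (W0 n)) := by
  refine uni_of_kp (nn_dW F pc_W0.ne) (fun j => by rw [dW_sum, pW_W0]) ?_
  rw [kp_W0]
  have h := det_one_sub_nil hnil (a := 1) le_rfl
  rw [pow_one] at h
  rw [h]
  exact isUnit_one

/-- the K-part does not depend on the length of the runs -/
theorem kp_run_congr (F : Fin n → Option I → Option I) {h h' m0 : ℕ} (hh : m0 ≤ h) (hh' : m0 ≤ h') :
    ∀ (ws : List (List (Fin n))) (W W' : Finset (List (Fin n))), Pc W → Pc W' → Val h W ws →
      Val h' W' ws → (∀ w ∈ ws, ∃ v0, ∀ v, (wf F w)^[m0] v = v0) → kp (dW F W) = kp (dW F W') →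
      kp (dW F (stps h W ws)) = kp (dW F (stps h' W' ws)) := by
  intro ws
  induction ws with
  | nil => exact fun W W' _ _ _ _ _ h => h
  | cons w ws ih =>
    intro W W' hW hW' hv hv' hc hk
    refine ih _ _ (hW.stp hv.1 h) (hW'.stp hv'.1 h') hv.2 hv'.2
      (fun u hu => hc u (List.mem_cons_of_mem _ hu)) ?_
    obtain ⟨v0, hv0⟩ := hc w List.mem_cons_self
    rw [← evD_dW F hW hv.1 h, ← evD_dW F hW' hv'.1 h']
    exact kp_evD_congr hk _ _ hv0 hh hh'

/-- the product formula -/
theorem kp_run_prod (F : Fin n → Option I → Option I) {h : ℕ} :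
    ∀ (ws : List (List (Fin n))) (W : Finset (List (Fin n))), Pc W → Val h W ws →
      (∀ w ∈ ws, ∃ v0, ∀ v, (wf F w)^[h] v = v0) →
      (1 - kp (dW F (stps h W ws))) * ((ws.reverse.map fun w => (w.length, kq (mpZ (wf F w)))).map
        fun x => 1 - (X ^ x.1 : ℤ[X]) • x.2.map C).prod = 1 - kp (dW F W) := by
  intro ws
  induction ws with
  | nil => intro W _ _ _; simp [stps]
  | cons w ws ih =>
    intro W hW hv hc
    have h1 := ih _ (hW.stp hv.1 h) hv.2 (fun u hu => hc u (List.mem_cons_of_mem _ hu))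
    obtain ⟨v0, hv0⟩ := hc w List.mem_cons_self
    rw [List.reverse_cons, List.map_append, List.map_append, List.prod_append, ← mul_assoc]
    show (1 - kp (dW F (stps h (stp h W w) ws))) * _ * _ = _
    rw [h1, ← evD_dW F hW hv.1 h]
    simp only [List.map_cons, List.map_nil, List.prod_cons, List.prod_nil, mul_one]
    exact kp_evD_mul _ _ _ _ hv0

/-- everything along a run -/
theorem uni_run (F : Fin n → Option I → Option I) {h : ℕ} (hh : 1 ≤ h) :
    ∀ (ws : List (List (Fin n))) (W : Finset (List (Fin n))) (κ : Num), Pc W → Val h W ws →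
      (∀ w ∈ ws, ∃ v0, ∀ v, (wf F w)^[h] v = v0) → Uni κ (dW F W) →
      Uni (κ.evs h (ws.map List.length)) (dW F (stps h W ws)) := by
  intro ws
  induction ws with
  | nil => exact fun W κ _ _ _ hU => hU
  | cons w ws ih =>
    intro W κ hW hv hc hU
    obtain ⟨v0, hv0⟩ := hc w List.mem_cons_self
    rw [List.map_cons, evs_cons]
    refine ih _ _ (hW.stp hv.1 h) hv.2 (fun u hu => hc u (List.mem_cons_of_mem _ hu)) ?_
    rw [← evD_dW F hW hv.1 h]
    exact uni_ev hU _ _ (List.length_pos_iff.2 (hW.ne w hv.1)) hh _ v0 hv0 (le_dW F hW hv.1)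

/-- the system of the words `W` is related to all systems with the K-part `E'` -/
def RR (κ : Num) (F : Fin n → Option I → Option I) (W : Finset (List (Fin n)))
    (E' : Matrix J J ℤ[X]) : Prop :=
  ∀ w', Leg κ E' w' → Rel κ (dW F W) (mat E' w')

theorem mat_eq_of_kp {D : Matrix (Option J) (Option J) ℤ[X]} {p : ℤ[X]} {E' : Matrix J J ℤ[X]}
    (hs : ∀ j, ∑ i, D i j = p) (hk : kp D = E') : D = mat E' (fun a => D a none) := by
  rw [← hk]
  exact (mat_kp hs).symm

/-- one step -/
theorem rr_step {κ : Num} (hκ : κ.Ok) (F : Fin n → Option I → Option I)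
    {W : Finset (List (Fin n))} (hW : Pc W) (hp : κ.p = pW W) (hU : Uni κ (dW F W))
    {w : List (Fin n)} (hw : w ∈ W) {h : ℕ} (hh : 1 ≤ h) {v0 : Option I}
    (hv0 : ∀ v, (wf F w)^[h] v = v0) {E' : Matrix J J ℤ[X]} (hE' : IsUnit (1 - E').det)
    (h0 : ∀ i j, (E' i j).coeff w.length = 0)
    (hR : RR (κ.ev w.length h) F (stp h W w) E') : RR κ F W E' := by
  intro w' hw'
  have ha : 1 ≤ w.length := List.length_pos_iff.2 (hW.ne w hw)
  have hcol : ∀ i j, (mat E' w' i j).coeff w.length = (w' i).coeff w.length := by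
    intro i j
    unfold mat
    rw [Matrix.of_apply]
    rcases i with _ | i <;> rcases j with _ | j <;> simp [h0]
  have hnn : ∀ i, 0 ≤ (w' i).coeff w.length := by
    intro i
    rw [← hcol i none]
    exact (hw'.pos i none).2 _
  obtain ⟨y, hy⟩ : ∃ y, 1 ≤ (w' y).coeff w.length := by
    by_contra hcon
    push Not at hcon
    have h1 : ∑ y, (w' y).coeff w.length = κ.p.coeff w.length := by
      rw [← finsetSum_coeff, hw'.sum]
    have h2 : ∑ y, (w' y).coeff w.length ≤ 0 := Finset.sum_nonpos fun y _ => by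
      have := hcon y
      omega
    have h3 := one_le_coeff_pW hw
    rw [← hp, ← h1] at h3
    omega
  have hle' : Pos (Matrix.of fun i j => mat E' w' i j - X ^ w.length *
      (if (fun _ : Option J => y) j = i then 1 else 0)) := by
    intro i j
    rw [Matrix.of_apply]
    have h1 := hw'.pos i j
    by_cases hi : y = i
    · have e1 : (if (fun _ : Option J => y) j = i then (1 : ℤ[X]) else 0) = 1 := if_pos hi
      rw [e1, mul_one]
      refine ⟨?_, fun d => ?_⟩
      · rw [coeff_sub, h1.1, Polynomial.coeff_X_pow, if_neg (by omega), sub_zero]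
      · rw [coeff_sub, Polynomial.coeff_X_pow]
        split_ifs with hd
        · rw [hd, hcol, ← hi]
          omega
        · rw [sub_zero]
          exact h1.2 d
    · have e1 : (if (fun _ : Option J => y) j = i then (1 : ℤ[X]) else 0) = 0 := if_neg hi
      rw [e1, mul_zero, sub_zero]
      exact h1
  have hit : ∀ v, (fun _ : Option J => y)^[h] v = y := by
    intro v
    obtain ⟨t, rfl⟩ := Nat.exists_eq_add_of_le' hh
    rw [Function.iterate_succ_apply']
  have hU' := uni_mat hE' hw'
  refine (rel_ev hκ hU hU' w.length h ha hh (wf F w) v0 hv0 (le_dW F hW hw) (fun _ => y) y hit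
    hle').2 ?_
  rw [evD_dW F hW hw h]
  have hUe := uni_ev hU' w.length h ha hh (fun _ => y) y hit hle'
  have hk : kp (evD (mat E' w') w.length h (fun _ => y)) = E' := by
    have h1 := kp_evD_mul (mat E' w') w.length h (fun _ => y) hit
    have h2 : kq (mpZ (fun _ : Option J => y)) = 0 := by
      refine kq_eq_zero fun i j => rfl
    rw [h2, kp_mat] at h1
    have h3 : (0 : Matrix J J ℤ).map (C : ℤ →+* ℤ[X]) = 0 := by
      ext1 i j
      simp
    rw [h3, smul_zero, sub_zero, mul_one] at h1
    exact sub_right_injective h1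
  rw [mat_eq_of_kp hUe.sum hk]
  refine hR _ ⟨hUe.sum none, ?_⟩
  rw [← mat_eq_of_kp hUe.sum hk]
  exact hUe.pos

theorem rr_run (F : Fin n → Option I → Option I) {h : ℕ} (hh : 1 ≤ h) {E' : Matrix J J ℤ[X]}
    (hE' : IsUnit (1 - E').det) : ∀ (ws : List (List (Fin n))) (W : Finset (List (Fin n))) (κ : Num),
      κ.Ok → Pc W → κ.p = pW W → Uni κ (dW F W) → Val h W ws →
      (∀ w ∈ ws, ∃ v0, ∀ v, (wf F w)^[h] v = v0) →
      (∀ w ∈ ws, ∀ i j, (E' i j).coeff w.length = 0) →
      RR (κ.evs h (ws.map List.length)) F (stps h W ws) E' → RR κ F W E' := by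
  intro ws
  induction ws with
  | nil => exact fun W κ _ _ _ _ _ _ _ hR => hR
  | cons w ws ih =>
    intro W κ hκ hW hp hU hv hc h0 hR
    obtain ⟨v0, hv0⟩ := hc w List.mem_cons_self
    have ha : 1 ≤ w.length := List.length_pos_iff.2 (hW.ne w hv.1)
    refine rr_step hκ F hW hp hU hv.1 hh hv0 hE' (h0 w List.mem_cons_self) ?_
    refine ih _ _ ?_ (hW.stp hv.1 h) ?_ ?_ hv.2 (fun u hu => hc u (List.mem_cons_of_mem _ hu))
      (fun u hu => h0 u (List.mem_cons_of_mem _ hu)) hR
    · refine ok_ev hκ _ _ ha hh ?_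
      rw [hp]
      exact one_le_coeff_pW hv.1
    · rw [pW_stp hW hv.1, ← hp]
      rfl
    · rw [← evD_dW F hW hv.1 h]
      exact uni_ev hU _ _ ha hh _ v0 hv0 (le_dW F hW hv.1)

/-! ### the first phase -/

theorem val_nodup {h : ℕ} (hh : 1 ≤ h) : ∀ (ws : List (List (Fin n))) (W : Finset (List (Fin n))),
    ws.Nodup → (∀ w ∈ ws, w ∈ W) → Val h W ws := by
  intro ws
  induction ws with
  | nil => exact fun _ _ _ => trivial
  | cons w ws ih =>
    intro W hn hW
    rw [List.nodup_cons] at hn
    refine ⟨hW w List.mem_cons_self, ih _ hn.2 fun u hu => ?_⟩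
    refine mem_stp_of_mem hh (hW u (List.mem_cons_of_mem _ hu)) fun h0 => ?_
    rw [h0] at hu
    exact hn.1 hu

/-- the letters `0, .., m` as words in the alphabet with `m + 2` letters -/
def letL (m : ℕ) : List (List (Fin (m + 2))) := (List.finRange (m + 1)).map fun i => [i.castSucc]

/-- the word `0 ^ (a - 1) (m + 1)` -/
def killw (m a : ℕ) : List (Fin (m + 2)) := pw [0] [Fin.last (m + 1)] (a - 1)

/-- the first phase -/
def lowL (m a : ℕ) : List (List (Fin (m + 2))) := letL m ++ [killw m a]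

theorem length_killw {m a : ℕ} (ha : 1 ≤ a) : (killw m a).length = a := by
  unfold killw
  rw [length_pw]
  simp
  omega

theorem letL_eq (m : ℕ) : letL m = [0] :: (List.finRange m).map fun i => [i.succ.castSucc] := by
  unfold letL
  rw [List.finRange_succ, List.map_cons, List.map_map]
  rfl

theorem letL_nodup (m : ℕ) : (letL m).Nodup := by
  refine List.Nodup.map ?_ (List.nodup_finRange _)
  intro a b h
  exact Fin.castSucc_injective _ (List.head_eq_of_cons_eq h)

theorem letL_length (m : ℕ) : (letL m).map List.length = List.replicate (m + 1) 1 := by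
  unfold letL
  rw [List.map_map]
  have : (List.length ∘ fun i : Fin (m + 1) => [i.castSucc]) = fun _ => 1 := rfl
  rw [this, List.map_const', List.length_finRange]

theorem mem_letL {m : ℕ} {w : List (Fin (m + 2))} (hw : w ∈ letL m) : ∃ a, w = [a] := by
  unfold letL at hw
  rw [List.mem_map] at hw
  obtain ⟨i, -, rfl⟩ := hw
  exact ⟨_, rfl⟩

theorem lowL_val {m a H : ℕ} (ha : 2 ≤ a) (hH : a ≤ H) : Val H (W0 (m + 2)) (lowL m a) := by
  unfold lowL
  rw [val_append]
  refine ⟨val_nodup (by omega) _ _ (letL_nodup m) fun w hw => ?_, ?_, trivial⟩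
  · obtain ⟨a, rfl⟩ := mem_letL hw
    exact mem_W0 a
  · rw [letL_eq]
    show killw m a ∈ stps H (stp H (W0 (m + 2)) [0]) ((List.finRange m).map fun i => [i.succ.castSucc])
    refine mem_stps_of_mem (by omega) ?_ ?_
    · refine mem_stp.2 ⟨[Fin.last (m + 1)], mem_W0 _, ?_, a - 1, by omega, rfl⟩
      intro h0
      have := List.head_eq_of_cons_eq h0
      have h1 := congrArg Fin.val this
      simp at h1
    · intro h0
      rw [List.mem_map] at h0
      obtain ⟨i, -, hi⟩ := h0
      have := congrArg List.length hi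
      rw [length_killw (by omega)] at this
      simp at this
      omega

theorem low_eq (m a H : ℕ) (ha : 1 ≤ a) :
    (Num.base (m + 2)).evs H ((lowL m a).map List.length) = Num.low (m + 2) a H := by
  unfold lowL
  rw [List.map_append, letL_length, evs_append]
  simp only [List.map_cons, List.map_nil, length_killw ha]
  rfl

theorem trn_stp_long {N h : ℕ} (hh : 1 ≤ h) {W : Finset (List (Fin n))} {w : List (Fin n)}
    (hw : N ≤ w.length) : trn N (stp h W w) = trn N W := by
  ext x
  rw [mem_trn, mem_trn]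
  constructor
  · rintro ⟨h1, h2⟩
    obtain ⟨y, hy, hyw, j, hj, rfl⟩ := mem_stp.1 h1
    rw [length_pw] at h2
    have : j = 0 := by
      by_contra h0
      have : w.length * 1 ≤ w.length * j := Nat.mul_le_mul_left _ (by omega)
      omega
    subst this
    rw [pw_zero]
    exact ⟨hy, by omega⟩
  · rintro ⟨h1, h2⟩
    refine ⟨mem_stp_of_mem hh h1 fun h0 => ?_, h2⟩
    rw [h0] at h2
    omega

theorem trn_stps {N h h' : ℕ} (hh : N ≤ h) (hh' : N ≤ h') : ∀ (ws : List (List (Fin n)))
    (W W' : Finset (List (Fin n))), (∀ w ∈ ws, w ≠ []) → trn N W = trn N W' →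
    trn N (stps h W ws) = trn N (stps h' W' ws) := by
  intro ws
  induction ws with
  | nil => exact fun _ _ _ h => h
  | cons w ws ih =>
    intro W W' hw hT
    exact ih _ _ (fun u hu => hw u (List.mem_cons_of_mem _ hu))
      (trn_stp hh hh' (hw w List.mem_cons_self) hT)

theorem trn_low {N m a a' H H' : ℕ} (hN : 1 ≤ N) (ha : N ≤ a) (ha' : N ≤ a') (hH : N ≤ H) (hH' : N ≤ H') :
    trn N (stps H (W0 (m + 2)) (lowL m a)) = trn N (stps H' (W0 (m + 2)) (lowL m a')) := by
  unfold lowL
  rw [stps_append, stps_append]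
  show trn N (stp H _ _) = trn N (stp H' _ _)
  rw [trn_stp_long (by omega) (by rw [length_killw (by omega)]; exact ha),
    trn_stp_long (by omega) (by rw [length_killw (by omega)]; exact ha')]
  refine trn_stps hH hH' _ _ _ (fun w hw => ?_) rfl
  obtain ⟨a, rfl⟩ := mem_letL hw
  simp

end Pool.Agent.WFG
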