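import Pool.Agent.WFG.RoomRel
import Pool.Agent.WFG.ElimRun
import Pool.Agent.WFS.Emb

/-!
# Lemmas for the output of the elimination

`Num.low n a1 H` (`Count.lean`, with `ok_low`, `low_growth`): the letters `0, .., n - 2` and then one letter of
degree `a1` are eliminated (runs `< H`).
`elim_out`: from `Num.low` all words of length `< N` are eliminated on the side of the labelled graph `F` (constant
letters on the side of `E'`), then the room step.
-/

set_option autoImplicit false
set_option linter.unusedSectionVars false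

noncomputable section

namespace Pool.Agent.WFG

open Polynomial Matrix Pool.Agent.WFS Pool.Agent.WFS.Lab Pool.WFS.Lad

variable {n : ℕ} {I J : Type} [Fintype I] [DecidableEq I] [Fintype J] [DecidableEq J]

theorem const_iter {V : Type} {g : V → V} {m k : ℕ} {c : V} (h : ∀ v, g^[m] v = c) (hk : m ≤ k) :
    ∃ c', ∀ v, g^[k] v = c' := by
  obtain ⟨t, rfl⟩ := Nat.exists_eq_add_of_le' hk
  exact ⟨g^[t] c, fun v => by rw [Function.iterate_add_apply, h]⟩

theorem coeff_dW {V : Type} [DecidableEq V] (F : Fin n → V → V) (W : Finset (List (Fin n)))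
    (i j : V) (d : ℕ) : (dW F W i j).coeff d =
      ((W.filter fun w => w.length = d ∧ wf F w j = i).card : ℤ) := by
  unfold dW
  rw [Matrix.of_apply, finsetSum_coeff, Finset.card_filter]
  push_cast
  refine Finset.sum_congr rfl fun w _ => ?_
  by_cases h : wf F w j = i
  · by_cases h' : w.length = d
    · simp [h, h']
    · rw [if_pos h, mul_one, Polynomial.coeff_X_pow, if_neg (Ne.symm h'), if_neg (fun hc => h' hc.1)]
  · rw [if_neg h, mul_zero, if_neg (fun hc => h hc.2), Polynomial.coeff_zero]

theorem dW_low_coeff {V : Type} [DecidableEq V] (F : Fin n → V → V) {W : Finset (List (Fin n))}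
    {N : ℕ} (hW : ∀ x ∈ W, N ≤ x.length) (i j : V) {d : ℕ} (hd : d < N) :
    (dW F W i j).coeff d = 0 := by
  rw [coeff_dW]
  have : (W.filter fun w => w.length = d ∧ wf F w j = i) = ∅ := by
    rw [Finset.filter_eq_empty_iff]
    intro x hx h
    have := hW x hx
    omega
  rw [this]
  simp

/-- the K-part is small -/
theorem rm_dW (F : Fin n → Option I → Option I) (W : Finset (List (Fin n))) (d : ℕ)
    [DecidablePred fun x : List (Fin n) => ¬ ∃ c, ∀ q, wf F x q = c] :
    rm (kp (dW F W)) d ≤ ∑ q', Finset.univ.sup fun q =>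
      ((W.filter fun x => ¬ ∃ c, ∀ q, wf F x q = c).filter
        fun x => x.length = d ∧ wf F x q = q').card := by
  classical
  rw [Fintype.sum_option]
  refine le_trans ?_ (Nat.le_add_left _ _)
  unfold rm
  refine Finset.sum_le_sum fun i _ => ?_
  refine Finset.sup_le fun j _ => ?_
  -- splitting into constant and non-constant words
  have key : ∀ v : Option I, (dW F W (some i) v).coeff d =
      (((W.filter fun x => ∃ c, ∀ q, wf F x q = c).filter
        fun x => x.length = d ∧ wf F x none = some i).card : ℤ) +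
      (((W.filter fun x => ¬ ∃ c, ∀ q, wf F x q = c).filter
        fun x => x.length = d ∧ wf F x v = some i).card : ℤ) := by
    intro v
    rw [coeff_dW]
    have h1 : (W.filter fun w => w.length = d ∧ wf F w v = some i) =
        ((W.filter fun x => ∃ c, ∀ q, wf F x q = c).filter
          fun x => x.length = d ∧ wf F x none = some i) ∪
        ((W.filter fun x => ¬ ∃ c, ∀ q, wf F x q = c).filter
          fun x => x.length = d ∧ wf F x v = some i) := by
      ext x
      simp only [Finset.mem_union, Finset.mem_filter]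
      constructor
      · rintro ⟨h1, h2, h3⟩
        by_cases hc : ∃ c, ∀ q, wf F x q = c
        · left
          obtain ⟨c, hc'⟩ := hc
          exact ⟨⟨h1, c, hc'⟩, h2, by rw [hc' none, ← hc' v]; exact h3⟩
        · right
          exact ⟨⟨h1, hc⟩, h2, h3⟩
      · rintro (⟨⟨h1, c, hc⟩, h2, h3⟩ | ⟨⟨h1, hc⟩, h2, h3⟩)
        · exact ⟨h1, h2, by rw [hc v, ← hc none]; exact h3⟩
        · exact ⟨h1, h2, h3⟩
    rw [h1, Finset.card_union_of_disjoint]
    · push_cast
      rfl
    · rw [Finset.disjoint_left]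
      intro x hx hx'
      simp only [Finset.mem_filter] at hx hx'
      exact hx'.1.2 hx.1.2
  have h1 : (kp (dW F W) i j).coeff d =
      (((W.filter fun x => ¬ ∃ c, ∀ q, wf F x q = c).filter
        fun x => x.length = d ∧ wf F x (some j) = some i).card : ℤ) -
      (((W.filter fun x => ¬ ∃ c, ∀ q, wf F x q = c).filter
        fun x => x.length = d ∧ wf F x none = some i).card : ℤ) := by
    show (dW F W (some i) (some j) - dW F W (some i) none).coeff d = _
    rw [coeff_sub, key, key]
    ring
  rw [h1]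
  have h2 : ∀ v : Option I, ((W.filter fun x => ¬ ∃ c, ∀ q, wf F x q = c).filter
        fun x => x.length = d ∧ wf F x v = some i).card ≤ Finset.univ.sup fun q =>
      ((W.filter fun x => ¬ ∃ c, ∀ q, wf F x q = c).filter
        fun x => x.length = d ∧ wf F x q = some i).card := fun v =>
    Finset.le_sup (f := fun q => ((W.filter fun x => ¬ ∃ c, ∀ q, wf F x q = c).filter
        fun x => x.length = d ∧ wf F x q = some i).card) (Finset.mem_univ v)
  have h3 := h2 (some j)
  have h4 := h2 none
  omega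

theorem exists_le_sum {V : Type} [Fintype V] [DecidableEq V] (f : V → ℕ) (b : ℕ)
    (hb : b ≤ ∑ i, f i) : ∃ φ : V → ℕ, (∀ i, φ i ≤ f i) ∧ ∑ i, φ i = b := by
  induction b with
  | zero => exact ⟨fun _ => 0, fun _ => Nat.zero_le _, by simp⟩
  | succ b ih =>
    obtain ⟨φ, h1, h2⟩ := ih (by omega)
    obtain ⟨i, hi⟩ : ∃ i, φ i < f i := by
      by_contra hcon
      push Not at hcon
      have : ∑ i, f i ≤ ∑ i, φ i := Finset.sum_le_sum fun i _ => hcon i
      omega
    refine ⟨fun j => φ j + if j = i then 1 else 0, fun j => ?_, ?_⟩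
    · by_cases h : j = i
      · subst h
        simp
        omega
      · simp [h, h1 j]
    · rw [Finset.sum_add_distrib, h2]
      simp

/-- a constant word does not change the K-part -/
theorem kp_const_step (F : Fin n → Option I → Option I) {W : Finset (List (Fin n))} (hW : Pc W)
    {w : List (Fin n)} (hw : w ∈ W) {c : Option I} (hc : ∀ v, wf F w v = c) {h : ℕ} (hh : 1 ≤ h) :
    kp (dW F (stp h W w)) = kp (dW F W) := by
  obtain ⟨c', hc'⟩ := const_iter (m := 1) (k := h) (g := wf F w) hc hh
  have h1 := kp_evD_mul (dW F W) w.length h (wf F w) hc'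
  have h2 : kq (mpZ (wf F w)) = 0 := by
    refine kq_eq_zero fun i j => ?_
    show (if wf F w j = i then (1 : ℤ) else 0) = if wf F w none = i then 1 else 0
    rw [hc, hc]
  have h3 : (0 : Matrix I I ℤ).map (C : ℤ →+* ℤ[X]) = 0 := by
    ext1 i j
    simp
  rw [h2, h3, smul_zero, sub_zero, mul_one, evD_dW F hW hw] at h1
  exact sub_right_injective h1

/-- the elements of `SL` from the product formula -/
theorem exists_SL {E : Matrix I I ℤ[X]} {N0 : Matrix I I ℤ} (hN0 : IsNilpotent N0) :
    ∀ (L : List (ℕ × Matrix I I ℤ)), (∀ x ∈ L, 1 ≤ x.1 ∧ IsNilpotent x.2) →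
      (1 - E) * (L.map fun x => 1 - (X ^ x.1 : ℤ[X]) • x.2.map C).prod =
        1 - (X : ℤ[X]) • N0.map C →
      ∃ M : SL I ℤ[X], (M : Matrix I I ℤ[X]) = 1 - E ∧ M ∈ Subgroup.closure (NilFac I) := by
  intro L hL hE
  have key : ∀ L : List (ℕ × Matrix I I ℤ), (∀ x ∈ L, 1 ≤ x.1 ∧ IsNilpotent x.2) →
      ∃ M : SL I ℤ[X], (M : Matrix I I ℤ[X]) =
        (L.map fun x => 1 - (X ^ x.1 : ℤ[X]) • x.2.map C).prod ∧ M ∈ Subgroup.closure (NilFac I) := by
    intro L
    induction L with
    | nil => exact fun _ => ⟨1, by simp, Subgroup.one_mem _⟩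
    | cons x L ih =>
      intro hL
      obtain ⟨M, h1, h2⟩ := ih fun y hy => hL y (List.mem_cons_of_mem _ hy)
      obtain ⟨h3, h4⟩ := hL x List.mem_cons_self
      refine ⟨⟨_, det_one_sub_nil h4 h3⟩ * M, ?_, Subgroup.mul_mem _ (Subgroup.subset_closure
        ⟨x.1, h3, x.2, h4, rfl⟩) h2⟩
      rw [Matrix.SpecialLinearGroup.coe_mul, h1, List.map_cons, List.prod_cons]
  obtain ⟨M, h1, h2⟩ := key L hL
  have h3 := det_one_sub_nil hN0 (a := 1) le_rfl
  rw [pow_one] at h3
  let G : SL I ℤ[X] := ⟨1 - (X : ℤ[X]) • N0.map C, h3⟩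
  have hG : G ∈ Subgroup.closure (NilFac I) :=
    Subgroup.subset_closure ⟨1, le_rfl, N0, hN0, by rw [pow_one]⟩
  refine ⟨G * M⁻¹, ?_, Subgroup.mul_mem _ hG (Subgroup.inv_mem _ h2)⟩
  rw [Matrix.SpecialLinearGroup.coe_mul]
  show (1 - (X : ℤ[X]) • N0.map C) * _ = _
  rw [← hE, ← h1, mul_assoc, ← Matrix.SpecialLinearGroup.coe_mul, mul_inv_cancel,
    Matrix.SpecialLinearGroup.coe_one, mul_one]

end Pool.Agent.WFG
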