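import Pool.Agent.WFG.SysMerge

/-!
# The K-part of a unital system: the interface for the algebra

The states are `Option I`. `mat E w` is the matrix with the column `w` at `none` and the columns
`w + ∑_i E i j (e_i - e_none)` at `some j`: `E` is the matrix of its restriction to the vectors of sum 0 in
the basis `e_i - e_none`. `RelE κ E E'`: all legal (nonnegative) matrices with the K-parts `E`, `E'` are
related. `rm E d` is the sum over the rows of the largest absolute value of a coefficient of degree `d`.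
-/

set_option autoImplicit false
set_option linter.unusedSectionVars false

noncomputable section

namespace Pool.Agent.WFG

open Polynomial Matrix Pool.Agent.WFS

variable {I J L : Type} [Fintype I] [DecidableEq I] [Fintype J] [DecidableEq J] [Fintype L]
  [DecidableEq L]

/-- the matrix with the K-part `E` and the base column `w` -/
def mat (E : Matrix I I ℤ[X]) (w : Option I → ℤ[X]) : Matrix (Option I) (Option I) ℤ[X] :=
  Matrix.of fun a b => w a + match a, b with
    | _, none => 0
    | some i, some j => E i j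
    | none, some j => - ∑ i, E i j

/-- the K-part of a matrix on `Option I` -/
def kp (D : Matrix (Option I) (Option I) ℤ[X]) : Matrix I I ℤ[X] :=
  Matrix.of fun i j => D (some i) (some j) - D (some i) none

/-- sum over the rows of the maximal absolute values of the coefficients of degree `d` -/
def rm (E : Matrix I J ℤ[X]) (d : ℕ) : ℕ :=
  ∑ i, Finset.univ.sup fun j => ((E i j).coeff d).natAbs

/-- `w` is a legal base column -/
structure Leg (κ : Num) (E : Matrix I I ℤ[X]) (w : Option I → ℤ[X]) : Prop where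
  sum : ∑ a, w a = κ.p
  pos : Pos (mat E w)

/-- the systems with the K-parts `E`, `E'` are related -/
def RelE (κ : Num) (E : Matrix I I ℤ[X]) (E' : Matrix J J ℤ[X]) : Prop :=
  ∀ w w', Leg κ E w → Leg κ E' w' → Rel κ (mat E w) (mat E' w')

theorem kp_mat (E : Matrix I I ℤ[X]) (w : Option I → ℤ[X]) : kp (mat E w) = E := by
  ext1 i j
  show w (some i) + E i j - (w (some i) + 0) = E i j
  ring

theorem mat_kp {D : Matrix (Option I) (Option I) ℤ[X]} {p : ℤ[X]} (h : ∀ j, ∑ i, D i j = p) :
    mat (kp D) (fun a => D a none) = D := by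
  ext1 a b
  rcases b with _ | j
  · rcases a with _ | i
    · show D none none + 0 = D none none
      ring
    · show D (some i) none + 0 = D (some i) none
      ring
  · rcases a with _ | i
    · show D none none + - ∑ i, (D (some i) (some j) - D (some i) none) = D none (some j)
      have h1 := h (some j)
      have h2 := h none
      rw [Fintype.sum_option] at h1 h2
      rw [Finset.sum_sub_distrib]
      linear_combination h2 - h1
    · show D (some i) none + (D (some i) (some j) - D (some i) none) = D (some i) (some j)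
      ring

theorem mat_sum (E : Matrix I I ℤ[X]) (w : Option I → ℤ[X]) (j : Option I) :
    ∑ i, mat E w i j = ∑ a, w a := by
  rw [Fintype.sum_option, Fintype.sum_option]
  rcases j with _ | j
  · show w none + 0 + ∑ i, (w (some i) + 0) = _
    simp
  · show w none + - ∑ i, E i j + ∑ i, (w (some i) + E i j) = _
    rw [Finset.sum_add_distrib]
    ring

/-- the polynomial with given coefficients in the degrees `< N` -/
def polyOf (N : ℕ) (f : ℕ → ℤ) : ℤ[X] := ∑ d ∈ Finset.range N, C (f d) * X ^ d

theorem polyOf_coeff (N : ℕ) (f : ℕ → ℤ) (hf : ∀ d, N ≤ d → f d = 0) (d : ℕ) :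
    (polyOf N f).coeff d = f d := by
  unfold polyOf
  rw [Polynomial.finsetSum_coeff]
  simp only [Polynomial.coeff_C_mul, Polynomial.coeff_X_pow]
  by_cases hd : d < N
  · rw [Finset.sum_eq_single d]
    · simp
    · intro b _ hb
      simp [Ne.symm hb]
    · intro h
      exact absurd (Finset.mem_range.2 hd) h
  · rw [hf d (by omega), Finset.sum_eq_zero]
    intro b hb
    rw [Finset.mem_range] at hb
    have : d ≠ b := by omega
    simp [this]

/-- the row maximum of the coefficients of degree `d` -/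
def rmx (E : Matrix I J ℤ[X]) (i : I) (d : ℕ) : ℕ := Finset.univ.sup fun j => ((E i j).coeff d).natAbs

theorem rm_eq (E : Matrix I J ℤ[X]) (d : ℕ) : rm E d = ∑ i, rmx E i d := rfl

theorem abs_le_rmx (E : Matrix I J ℤ[X]) (i : I) (j : J) (d : ℕ) :
    |(E i j).coeff d| ≤ (rmx E i d : ℤ) := by
  rw [Int.abs_eq_natAbs]
  exact_mod_cast Finset.le_sup (f := fun j => ((E i j).coeff d).natAbs) (Finset.mem_univ j)

theorem abs_sum_le_rm (E : Matrix I J ℤ[X]) (j : J) (d : ℕ) :
    |∑ i, (E i j).coeff d| ≤ (rm E d : ℤ) := by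
  refine (Finset.abs_sum_le_sum_abs _ _).trans ?_
  rw [rm_eq, Nat.cast_sum]
  exact Finset.sum_le_sum fun i _ => abs_le_rmx E i j d

theorem exists_rm_bd (E : Matrix I J ℤ[X]) : ∃ N, ∀ i d, N ≤ d → rmx E i d = 0 := by
  refine ⟨1 + ∑ i, ∑ j, (E i j).natDegree, fun i d hd => ?_⟩
  unfold rmx
  rw [← Nat.bot_eq_zero, Finset.sup_eq_bot_iff]
  intro j _
  rw [Nat.bot_eq_zero, Int.natAbs_eq_zero]
  refine Polynomial.coeff_eq_zero_of_natDegree_lt ?_
  have h1 : (E i j).natDegree ≤ ∑ j', (E i j').natDegree :=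
    Finset.single_le_sum (f := fun j' => (E i j').natDegree) (fun _ _ => Nat.zero_le _)
      (Finset.mem_univ j)
  have h2 : ∑ j', (E i j').natDegree ≤ ∑ i', ∑ j', (E i' j').natDegree :=
    Finset.single_le_sum (f := fun i' => ∑ j', (E i' j').natDegree) (fun _ _ => Nat.zero_le _)
      (Finset.mem_univ i)
  omega

theorem mat_pos {E : Matrix I I ℤ[X]} {w : Option I → ℤ[X]} (h0 : ∀ a, Pol (w a))
    (h1 : ∀ i j, Pol (w (some i) + E i j)) (h2 : ∀ j, Pol (w none + - ∑ i, E i j)) :
    Pos (mat E w) := by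
  intro a b
  rcases b with _ | j
  · have : mat E w a none = w a := by
      rcases a with _ | i
      · exact add_zero _
      · exact add_zero _
    rw [this]
    exact h0 a
  · rcases a with _ | i
    · exact h2 j
    · exact h1 i j

/-- legality, coefficient by coefficient -/
theorem leg_of_coeff {κ : Num} (hκ : κ.Ok) {E : Matrix I I ℤ[X]} (N : ℕ) (f : I → ℕ → ℤ)
    (hf : ∀ i d, N ≤ d → f i d = 0) (h0 : ∀ i d, 0 ≤ f i d)
    (h1 : ∀ i j d, 0 ≤ f i d + (E i j).coeff d)
    (h2 : ∀ d, ∑ i, f i d ≤ κ.p.coeff d)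
    (h3 : ∀ j d, ∑ i, f i d + ∑ i, (E i j).coeff d ≤ κ.p.coeff d) :
    Leg κ E (fun a => a.elim (κ.p - ∑ i, polyOf N (f i)) fun i => polyOf N (f i)) := by
  have hc : ∀ i d, (polyOf N (f i)).coeff d = f i d := fun i d => polyOf_coeff N (f i) (hf i) d
  have hn : ∀ d, (κ.p - ∑ i, polyOf N (f i)).coeff d = κ.p.coeff d - ∑ i, f i d := by
    intro d
    rw [Polynomial.coeff_sub, Polynomial.finsetSum_coeff]
    simp only [hc]
  have hp0 : κ.p.coeff 0 = 0 := hκ.p.1
  have hf0 : ∀ i, f i 0 = 0 := by
    intro i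
    have := h2 0
    rw [hp0] at this
    have h4 := Finset.single_le_sum (f := fun i => f i 0) (fun i _ => h0 i 0) (Finset.mem_univ i)
    exact le_antisymm (h4.trans this) (h0 i 0)
  have hs0 : ∑ i, f i 0 = 0 := Finset.sum_eq_zero fun i _ => hf0 i
  have hE0 : ∀ i j, (E i j).coeff 0 = 0 := by
    intro i j
    have h4 := h3 j 0
    rw [hp0, hs0, zero_add] at h4
    have h5 : ∀ i, 0 ≤ (E i j).coeff 0 := fun i => by
      have := h1 i j 0
      rwa [hf0, zero_add] at this
    have h6 := Finset.single_le_sum (f := fun i => (E i j).coeff 0) (fun i _ => h5 i)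
      (Finset.mem_univ i)
    exact le_antisymm (h6.trans h4) (h5 i)
  refine ⟨?_, mat_pos ?_ ?_ ?_⟩
  · rw [Fintype.sum_option]
    show κ.p - ∑ i, polyOf N (f i) + ∑ i, polyOf N (f i) = κ.p
    ring
  · intro a
    rcases a with _ | i
    · show Pol (κ.p - ∑ i, polyOf N (f i))
      refine ⟨?_, fun d => ?_⟩
      · rw [hn, hp0, hs0, sub_zero]
      · rw [hn]
        linarith [h2 d]
    · show Pol (polyOf N (f i))
      exact ⟨by rw [hc, hf0], fun d => by rw [hc]; exact h0 i d⟩
  · intro i j
    show Pol (polyOf N (f i) + E i j)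
    refine ⟨?_, fun d => ?_⟩
    · rw [Polynomial.coeff_add, hc, hf0, hE0, add_zero]
    · rw [Polynomial.coeff_add, hc]
      exact h1 i j d
  · intro j
    show Pol (κ.p - ∑ i, polyOf N (f i) + - ∑ i, E i j)
    refine ⟨?_, fun d => ?_⟩
    · rw [Polynomial.coeff_add, hn, Polynomial.coeff_neg, Polynomial.finsetSum_coeff, hp0, hs0,
        Finset.sum_eq_zero fun i _ => hE0 i j]
      simp
    · rw [Polynomial.coeff_add, hn, Polynomial.coeff_neg, Polynomial.finsetSum_coeff]
      linarith [h3 j d]

/-- legality for small matrices -/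
theorem leg_of_rm {κ : Num} (hκ : κ.Ok) {E : Matrix I I ℤ[X]}
    (h : ∀ d, 2 * (rm E d : ℤ) ≤ κ.p.coeff d) : ∃ w, Leg κ E w := by
  obtain ⟨N, hN⟩ := exists_rm_bd E
  have hr : ∀ d, ((rm E d : ℕ) : ℤ) = ∑ i, (rmx E i d : ℤ) := fun d => by
    rw [rm_eq, Nat.cast_sum]
  refine ⟨_, leg_of_coeff hκ N (fun i d => (rmx E i d : ℤ)) ?_ ?_ ?_ ?_ ?_⟩
  · intro i d hd
    simp [hN i d hd]
  · intro i d
    positivity
  · intro i j d
    have := (abs_le.1 (abs_le_rmx E i j d)).1
    linarith
  · intro d
    rw [← hr]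
    have h1 : (0 : ℤ) ≤ (rm E d : ℤ) := by positivity
    linarith [h d]
  · intro j d
    rw [← hr]
    have := (abs_le.1 (abs_sum_le_rm E j d)).2
    linarith [h d]

theorem uni_mat {κ : Num} {E : Matrix I I ℤ[X]} (hE : IsUnit (1 - E).det) {w : Option I → ℤ[X]}
    (hw : Leg κ E w) : Uni κ (mat E w) := by
  refine ⟨hw.pos, fun j => (mat_sum E w j).trans hw.sum, fun z hz => ?_⟩
  let v : I → ℤ[X] := (1 - E)⁻¹.mulVec fun i => z (some i)
  have hv : (1 - E).mulVec v = fun i => z (some i) := by
    show (1 - E).mulVec ((1 - E)⁻¹.mulVec _) = _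
    rw [Matrix.mulVec_mulVec, Matrix.mul_nonsing_inv _ hE, Matrix.one_mulVec]
  have hv' : ∀ i, v i - ∑ j, E i j * v j = z (some i) := by
    intro i
    have := congrFun hv i
    rw [Matrix.sub_mulVec, Matrix.one_mulVec] at this
    exact this
  refine ⟨fun a => a.elim (- ∑ i, v i) v, ?_, fun a => ?_⟩
  · rw [Fintype.sum_option]
    show - ∑ i, v i + ∑ i, v i = 0
    ring
  · have h1 : ∀ a, ∑ j : Option I, mat E w a j * (fun a : Option I => a.elim (- ∑ i, v i) v) j =
        match a with
        | some i => ∑ j, E i j * v j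
        | none => - ∑ i, ∑ j, E i j * v j := by
      intro a
      rw [Fintype.sum_option]
      rcases a with _ | i
      · show (w none + 0) * (- ∑ i, v i) + ∑ j, (w none + - ∑ i, E i j) * v j = - ∑ i, ∑ j, E i j * v j
        have h2 : ∀ j, (w none + - ∑ i, E i j) * v j = w none * v j - ∑ i, E i j * v j := fun j => by
          rw [add_mul, neg_mul, Finset.sum_mul]
          ring
        rw [Finset.sum_congr rfl fun j _ => h2 j, Finset.sum_sub_distrib, ← Finset.mul_sum,
          Finset.sum_comm (f := fun j i => E i j * v j)]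
        ring
      · show (w (some i) + 0) * (- ∑ i, v i) + ∑ j, (w (some i) + E i j) * v j = ∑ j, E i j * v j
        have h2 : ∀ j, (w (some i) + E i j) * v j = w (some i) * v j + E i j * v j := fun j => by
          ring
        rw [Finset.sum_congr rfl fun j _ => h2 j, Finset.sum_add_distrib, ← Finset.mul_sum]
        ring
    rw [h1]
    rcases a with _ | i
    · show (- ∑ i, v i) - (- ∑ i, ∑ j, E i j * v j) = z none
      rw [Fintype.sum_option] at hz
      have h3 : ∑ i, (v i - ∑ j, E i j * v j) = ∑ i, z (some i) :=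
        Finset.sum_congr rfl fun i _ => hv' i
      rw [Finset.sum_sub_distrib] at h3
      linear_combination -h3 - hz
    · exact hv' i

theorem det_of_uni {κ : Num} {D : Matrix (Option I) (Option I) ℤ[X]} (h : Uni κ D) :
    IsUnit (1 - kp D).det := by
  -- a right inverse column by column
  have key : ∀ k : I, ∃ v : I → ℤ[X], (1 - kp D).mulVec v = Pi.single k 1 := by
    intro k
    obtain ⟨u, hu0, hu⟩ := h.inv (fun a => a.elim (-1) (Pi.single k 1)) (by
      rw [Fintype.sum_option]
      show (-1 : ℤ[X]) + ∑ i, (Pi.single k 1 : I → ℤ[X]) i = 0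
      rw [Finset.sum_pi_single']
      simp)
    refine ⟨fun i => u (some i), ?_⟩
    funext i
    rw [Matrix.sub_mulVec, Matrix.one_mulVec]
    have h1 := hu (some i)
    rw [Fintype.sum_option] at h1 hu0
    show u (some i) - ∑ j, (D (some i) (some j) - D (some i) none) * u (some j) = _
    have h2 : ∀ j, (D (some i) (some j) - D (some i) none) * u (some j) =
        D (some i) (some j) * u (some j) - D (some i) none * u (some j) := fun j => by ring
    rw [Finset.sum_congr rfl fun j _ => h2 j, Finset.sum_sub_distrib, ← Finset.mul_sum]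
    change _ = (Pi.single k 1 : I → ℤ[X]) i at h1
    linear_combination h1 + (D (some i) none) * hu0
  choose v hv using key
  have h1 : (1 - kp D) * (Matrix.of fun i k => v k i) = 1 := by
    ext1 i k
    rw [Matrix.mul_apply]
    have h2 := congrFun (hv k) i
    have h3 : ((1 - kp D).mulVec (v k)) i = ∑ j, (1 - kp D) i j * v k j := rfl
    rw [h3] at h2
    rw [show ∑ j, (1 - kp D) i j * (Matrix.of fun i k => v k i) j k =
      ∑ j, (1 - kp D) i j * v k j from rfl, h2, Matrix.one_apply, Pi.single_apply]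
  have h2 := congrArg Matrix.det h1
  rw [Matrix.det_mul, Matrix.det_one] at h2
  exact IsUnit.of_mul_eq_one _ h2

theorem rel_mat {κ : Num} (hκ : κ.Ok) {E : Matrix I I ℤ[X]} (hE : IsUnit (1 - E).det)
    {w w' : Option I → ℤ[X]} (hw : Leg κ E w) (hw' : Leg κ E w') :
    Rel κ (mat E w) (mat E w') := by
  refine (rel_const hκ (uni_mat hE hw) hw'.pos (fun a => w a - w' a) ?_ ?_).2
  · rw [Finset.sum_sub_distrib, hw.sum, hw'.sum, sub_self]
  · intro a b
    show w a + _ - (w' a + _) = w a - w' a
    ring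

theorem relE_of_rel {κ : Num} (hκ : κ.Ok) {E : Matrix I I ℤ[X]} {E' : Matrix J J ℤ[X]}
    (hE : IsUnit (1 - E).det) (hE' : IsUnit (1 - E').det) {w : Option I → ℤ[X]}
    {w' : Option J → ℤ[X]} (hw : Leg κ E w) (hw' : Leg κ E' w')
    (h : Rel κ (mat E w) (mat E' w')) : RelE κ E E' :=
  fun _ _ h1 h2 => (rel_mat hκ hE h1 hw).trans hκ (h.trans hκ (rel_mat hκ hE' hw' h2))

theorem RelE.refl {κ : Num} (hκ : κ.Ok) {E : Matrix I I ℤ[X]} (hE : IsUnit (1 - E).det) :
    RelE κ E E :=
  fun _ _ h1 h2 => rel_mat hκ hE h1 h2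

theorem RelE.symm {κ : Num} {E : Matrix I I ℤ[X]} {E' : Matrix J J ℤ[X]} (h : RelE κ E E') :
    RelE κ E' E :=
  fun w w' hw hw' => (h w' w hw' hw).symm

theorem RelE.trans {κ : Num} (hκ : κ.Ok) {E : Matrix I I ℤ[X]} {E' : Matrix J J ℤ[X]}
    {E'' : Matrix L L ℤ[X]} (h : RelE κ E E') (hE' : ∃ w, Leg κ E' w) (h' : RelE κ E' E'') :
    RelE κ E E'' := by
  obtain ⟨w', hw'⟩ := hE'
  exact fun w w'' hw hw'' => (h w w' hw hw').trans hκ (h' w' w'' hw' hw'')

/-- trivial K-parts -/
theorem relE_zero {κ : Num} (hκ : κ.Ok) : RelE κ (0 : Matrix I I ℤ[X]) (0 : Matrix J J ℤ[X]) := by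
  have key : ∀ (U : Type) [Fintype U] [DecidableEq U] (w : Option U → ℤ[X]),
      Leg κ (0 : Matrix U U ℤ[X]) w → Rel κ (mat (0 : Matrix U U ℤ[X]) w)
        (Matrix.of fun _ _ : Unit => κ.p) := by
    intro U _ _ w hw
    refine (rel_trivial hκ hw.pos (fun j => (mat_sum _ _ j).trans hw.sum) w ?_).2
    intro a b
    rcases b with _ | j
    · rcases a with _ | i
      · exact add_zero _
      · exact add_zero _
    · rcases a with _ | i
      · show w none + - ∑ i : U, (0 : ℤ[X]) = w none
        simp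
      · exact add_zero _
  intro w w' hw hw'
  exact (key I w hw).trans hκ (key J w' hw').symm

end Pool.Agent.WFG
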