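import Pool.Agent.WFG.ElimW
import Pool.Agent.WFG.Face
import Pool.Agent.WFS.KPart

/-!
# The K-part along the elimination
-/

set_option autoImplicit false
set_option linter.unusedSectionVars false

noncomputable section

namespace Pool.Agent.WFG

open Polynomial Matrix Pool.Agent.WFS Pool.Agent.WFS.Lab

variable {n : ℕ} {I : Type} [Fintype I] [DecidableEq I]

theorem kp_diff {D D' : Matrix (Option I) (Option I) ℤ[X]} (h : kp D = kp D') (i : I)
    (v v' : Option I) : D (some i) v - D (some i) v' = D' (some i) v - D' (some i) v' := by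
  have key : ∀ v, D (some i) v - D (some i) none = D' (some i) v - D' (some i) none := by
    intro v
    rcases v with _ | j
    · rw [sub_self, sub_self]
    · exact congrFun (congrFun h i) j
  have h1 := key v
  have h2 := key v'
  linear_combination h1 - h2

theorem kp_evD (D : Matrix (Option I) (Option I) ℤ[X]) (a h : ℕ) (f : Option I → Option I)
    (i j : I) : kp (evD D a h f) i j = ∑ m ∈ Finset.range h, X ^ (a * m) *
      ((D (some i) (f^[m] (some j)) - D (some i) (f^[m] none)) -
        X ^ a * ((if f^[m + 1] (some j) = some i then 1 else 0) -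
          (if f^[m + 1] none = some i then 1 else 0))) := by
  show evD D a h f (some i) (some j) - evD D a h f (some i) none = _
  unfold evD
  rw [Matrix.of_apply, Matrix.of_apply, ← Finset.sum_sub_distrib]
  refine Finset.sum_congr rfl fun m _ => ?_
  ring

/-- the K-part after an event does not depend on the length of the runs -/
theorem kp_evD_congr {D D' : Matrix (Option I) (Option I) ℤ[X]} (hD : kp D = kp D') (a : ℕ)
    (f : Option I → Option I) {m0 h h' : ℕ} {v0 : Option I} (hf : ∀ v, f^[m0] v = v0)
    (hh : m0 ≤ h) (hh' : m0 ≤ h') : kp (evD D a h f) = kp (evD D' a h' f) := by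
  have hfm : ∀ m, m0 ≤ m → ∀ v v', f^[m] v = f^[m] v' := by
    intro m hm v v'
    obtain ⟨t, rfl⟩ := Nat.exists_eq_add_of_le hm
    rw [Function.iterate_add_apply, Function.iterate_add_apply, hf, hf]
  have key : ∀ (D : Matrix (Option I) (Option I) ℤ[X]) (h : ℕ), m0 ≤ h →
      kp (evD D a h f) = kp (evD D a m0 f) := by
    intro D h hh
    ext1 i j
    rw [kp_evD, kp_evD]
    symm
    refine Finset.sum_subset (fun x hx => ?_) (fun m _ hm => ?_)
    · rw [Finset.mem_range] at hx ⊢
      omega
    · rw [Finset.mem_range] at hm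
      rw [hfm m (by omega) (some j) none, hfm (m + 1) (by omega) (some j) none]
      simp
  rw [key D h hh, key D' h' hh']
  ext1 i j
  rw [kp_evD, kp_evD]
  refine Finset.sum_congr rfl fun m _ => ?_
  rw [kp_diff hD]

/-- the K-part after an event -/
theorem kp_evD_mul (D : Matrix (Option I) (Option I) ℤ[X]) (a h : ℕ) (f : Option I → Option I)
    {v0 : Option I} (hf : ∀ v, f^[h] v = v0) :
    (1 - kp (evD D a h f)) * (1 - (X ^ a : ℤ[X]) • (kq (mpZ f)).map C) = 1 - kp D := by
  have h1 : ∀ i v, X ^ a * (evD D a h f (some i) (f v) - evD D a h f (some i) (f none)) =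
      (evD D a h f (some i) v - evD D a h f (some i) none) -
      ((D (some i) v - X ^ a * (if f v = some i then 1 else 0)) -
        (D (some i) none - X ^ a * (if f none = some i then 1 else 0))) := by
    intro i v
    have h2 : ∀ v, X ^ a * evD D a h f (some i) (f v) = evD D a h f (some i) v -
        (D (some i) v - X ^ a * (if f v = some i then 1 else 0)) +
        X ^ (a * h) * (D (some i) v0 - X ^ a * (if f v0 = some i then 1 else 0)) := by
      intro v
      unfold evD
      rw [Matrix.of_apply, Matrix.of_apply, Finset.mul_sum]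
      have h3 := Finset.sum_range_succ (fun m => X ^ (a * m) * (D (some i) (f^[m] v) -
        X ^ a * (if f^[m + 1] v = some i then 1 else 0))) h
      have h4 := Finset.sum_range_succ' (fun m => X ^ (a * m) * (D (some i) (f^[m] v) -
        X ^ a * (if f^[m + 1] v = some i then 1 else 0))) h
      rw [h3, Function.iterate_succ_apply', hf] at h4
      have h5 : ∑ m ∈ Finset.range h, X ^ a * (X ^ (a * m) * (D (some i) (f^[m] (f v)) -
          X ^ a * (if f^[m + 1] (f v) = some i then 1 else 0))) =
          ∑ m ∈ Finset.range h, X ^ (a * (m + 1)) * (D (some i) (f^[m + 1] v) -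
          X ^ a * (if f^[m + 1 + 1] v = some i then 1 else 0)) := by
        refine Finset.sum_congr rfl fun m _ => ?_
        rw [← Function.iterate_succ_apply f m v, ← Function.iterate_succ_apply f (m + 1) v, mul_add,
          mul_one, pow_add]
        ring
      rw [h5]
      have h6 : X ^ (a * 0) * (D (some i) (f^[0] v) - X ^ a *
          (if f^[0 + 1] v = some i then (1 : ℤ[X]) else 0)) =
          (D (some i) v - X ^ a * (if f v = some i then 1 else 0)) := by
        simp
      rw [h6] at h4
      linear_combination (-1 : ℤ[X]) * h4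
    rw [mul_sub, h2 v, h2 none]
    ring
  have h2 : kp (evD D a h f) * ((X ^ a : ℤ[X]) • (kq (mpZ f)).map C) =
      kp (evD D a h f) - (kp D - (X ^ a : ℤ[X]) • (kq (mpZ f)).map C) := by
    ext1 i j
    rw [Matrix.mul_apply]
    have h3 : ∀ v : Option I, ∑ l, kp (evD D a h f) i l * (if v = some l then (1 : ℤ[X]) else 0) =
        evD D a h f (some i) v - evD D a h f (some i) none := by
      intro v
      rcases v with _ | l0
      · simp
      · rw [Finset.sum_eq_single l0]
        · simp [kp]
        · intro l _ hl
          have : ¬ (some l0 = some l) := fun h => hl (Option.some_injective _ h).symm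
          rw [if_neg this, mul_zero]
        · intro h
          exact absurd (Finset.mem_univ _) h
    have h4 : ∀ l, kp (evD D a h f) i l * ((X ^ a : ℤ[X]) • (kq (mpZ f)).map C) l j =
        X ^ a * (kp (evD D a h f) i l * (if f (some j) = some l then (1 : ℤ[X]) else 0)) -
        X ^ a * (kp (evD D a h f) i l * (if f none = some l then (1 : ℤ[X]) else 0)) := by
      intro l
      have : ((X ^ a : ℤ[X]) • (kq (mpZ f)).map C) l j = X ^ a *
          ((if f (some j) = some l then (1 : ℤ[X]) else 0) - (if f none = some l then 1 else 0)) := by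
        show X ^ a * C ((if f (some j) = some l then (1 : ℤ) else 0) -
          (if f none = some l then 1 else 0)) = _
        congr 1
        split_ifs <;> simp
      rw [this]
      ring
    rw [Finset.sum_congr rfl fun l _ => h4 l, Finset.sum_sub_distrib, ← Finset.mul_sum,
      ← Finset.mul_sum, h3, h3]
    have h5 := h1 i (some j)
    have h6 : (kp (evD D a h f) - (kp D - (X ^ a : ℤ[X]) • (kq (mpZ f)).map C)) i j =
        (evD D a h f (some i) (some j) - evD D a h f (some i) none) -
        ((D (some i) (some j) - D (some i) none) - X ^ a *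
          ((if f (some j) = some i then (1 : ℤ[X]) else 0) - (if f none = some i then 1 else 0))) := by
      show _ - (_ - X ^ a * C ((if f (some j) = some i then (1 : ℤ) else 0) -
          (if f none = some i then 1 else 0))) = _
      congr 3
      split_ifs <;> simp
    rw [h6]
    linear_combination h5
  rw [sub_mul, one_mul, mul_sub, mul_one, h2]
  abel

/-- `1 - X ^ a N` for a nilpotent integral matrix -/
theorem det_one_sub_nil {N : Matrix I I ℤ} (hN : IsNilpotent N) {a : ℕ} (ha : 1 ≤ a) :
    (1 - (X ^ a : ℤ[X]) • N.map C).det = 1 := by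
  have h1 : IsNilpotent ((X ^ a : ℤ[X]) • N.map C) := by
    obtain ⟨k, hk⟩ := hN
    refine ⟨k, ?_⟩
    rw [_root_.smul_pow]
    have : N.map (C : ℤ →+* ℤ[X]) ^ k = (N ^ k).map C := by
      have := map_pow ((C : ℤ →+* ℤ[X]).mapMatrix) N k
      exact this.symm
    rw [this, hk]
    have h0 : (0 : Matrix I I ℤ).map (C : ℤ →+* ℤ[X]) = 0 := by
      ext1 i j
      simp
    rw [h0, smul_zero]
  have h2 : IsUnit (1 - (X ^ a : ℤ[X]) • N.map C) := h1.isUnit_one_sub
  have h3 : IsUnit (1 - (X ^ a : ℤ[X]) • N.map C).det := (Matrix.isUnit_iff_isUnit_det _).1 h2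
  obtain ⟨u, hu, hu2⟩ := Polynomial.isUnit_iff.1 h3
  have h4 : (Polynomial.evalRingHom (0 : ℤ)) (1 - (X ^ a : ℤ[X]) • N.map C).det = 1 := by
    rw [RingHom.map_det]
    have : (Polynomial.evalRingHom (0 : ℤ)).mapMatrix (1 - (X ^ a : ℤ[X]) • N.map C) = 1 := by
      rw [map_sub, map_one]
      have h0 : (Polynomial.evalRingHom (0 : ℤ)).mapMatrix ((X ^ a : ℤ[X]) • N.map C) = 0 := by
        ext1 i j
        show Polynomial.eval 0 (X ^ a * C (N i j)) = 0
        rw [Polynomial.eval_mul, Polynomial.eval_pow, Polynomial.eval_X, zero_pow (by omega), zero_mul]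
      rw [h0, sub_zero]
    rw [this, Matrix.det_one]
  rw [← hu2] at h4 ⊢
  have h5 : u = 1 := by
    simpa using h4
  rw [h5, map_one]

end Pool.Agent.WFG
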