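import Pool.Agent.WFG.SysEv
import Pool.Agent.WFG.Count
import Pool.Agent.WFS.Lab.Auto

/-!
# The elimination of words

`dW F W`: the matrix of the labelled graph `F` for the finite prefix code `W`. The elimination of `w ∈ W` with runs
`< h` replaces `W` by `{w ^ j y | y ∈ W, y ≠ w, j < h}`.
-/

set_option autoImplicit false
set_option linter.unusedSectionVars false

noncomputable section

namespace Pool.Agent.WFG

open Polynomial Matrix Pool.Agent.WFS Pool.Agent.WFS.Lab

variable {n : ℕ}

/-- the word `w ^ j y` -/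
def pw (w y : List (Fin n)) (j : ℕ) : List (Fin n) := (List.replicate j w).flatten ++ y

theorem pw_zero (w y : List (Fin n)) : pw w y 0 = y := by
  simp [pw]

theorem pw_succ (w y : List (Fin n)) (j : ℕ) : pw w y (j + 1) = w ++ pw w y j := by
  simp [pw, List.replicate_succ]

theorem length_pw (w y : List (Fin n)) (j : ℕ) : (pw w y j).length = w.length * j + y.length := by
  induction j with
  | zero => simp [pw_zero]
  | succ j ih =>
    rw [pw_succ, List.length_append, ih]
    ring

theorem wf_pw {V : Type} (F : Fin n → V → V) (w y : List (Fin n)) (j : ℕ) (v : V) :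
    wf F (pw w y j) v = wf F y ((wf F w)^[j] v) := by
  induction j generalizing v with
  | zero => rw [pw_zero]; rfl
  | succ j ih => rw [pw_succ, wf_append, ih, Function.iterate_succ_apply]

/-- the words after the elimination of `w` with runs `< h` -/
def stp (h : ℕ) (W : Finset (List (Fin n))) (w : List (Fin n)) : Finset (List (Fin n)) :=
  ((W.erase w) ×ˢ Finset.range h).image fun x => pw w x.1 x.2

/-- prefix code of nonempty words -/
structure Pc (W : Finset (List (Fin n))) : Prop where
  ne : ∀ w ∈ W, w ≠ []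
  pre : ∀ u ∈ W, ∀ v ∈ W, u <+: v → u = v

theorem mem_stp {h : ℕ} {W : Finset (List (Fin n))} {w x : List (Fin n)} :
    x ∈ stp h W w ↔ ∃ y ∈ W, y ≠ w ∧ ∃ j < h, x = pw w y j := by
  unfold stp
  rw [Finset.mem_image]
  constructor
  · rintro ⟨⟨y, j⟩, hx, rfl⟩
    rw [Finset.mem_product, Finset.mem_erase, Finset.mem_range] at hx
    exact ⟨y, hx.1.2, hx.1.1, j, hx.2, rfl⟩
  · rintro ⟨y, hy, hne, j, hj, rfl⟩
    exact ⟨(y, j), by simp [hy, hne, hj], rfl⟩

theorem pw_inj {W : Finset (List (Fin n))} (hW : Pc W) {w : List (Fin n)} (hw : w ∈ W)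
    (j : ℕ) : ∀ (i : ℕ) (y y' : List (Fin n)), y ∈ W → y ≠ w → y' ∈ W → y' ≠ w →
      pw w y j <+: pw w y' i → y = y' ∧ j = i := by
  induction j with
  | zero =>
    intro i y y' hy hyw hy' hyw' h
    rw [pw_zero] at h
    cases i with
    | zero =>
      rw [pw_zero] at h
      exact ⟨hW.pre y hy y' hy' h, rfl⟩
    | succ i =>
      exfalso
      rw [pw_succ] at h
      rcases List.prefix_or_prefix_of_prefix h (List.prefix_append w (pw w y' i)) with h1 | h1
      · exact hyw (hW.pre y hy w hw h1)
      · exact hyw (hW.pre w hw y hy h1).symm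
  | succ j ih =>
    intro i y y' hy hyw hy' hyw' h
    cases i with
    | zero =>
      exfalso
      rw [pw_zero, pw_succ] at h
      exact hyw' (hW.pre w hw y' hy' ((List.prefix_append _ _).trans h)).symm
    | succ i =>
      rw [pw_succ, pw_succ, List.prefix_append_right_inj] at h
      obtain ⟨h1, h2⟩ := ih i y y' hy hyw hy' hyw' h
      exact ⟨h1, by rw [h2]⟩

theorem Pc.stp {W : Finset (List (Fin n))} (hW : Pc W) {w : List (Fin n)} (hw : w ∈ W) (h : ℕ) :
    Pc (stp h W w) := by
  refine ⟨?_, ?_⟩
  · intro x hx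
    obtain ⟨y, hy, -, j, -, rfl⟩ := mem_stp.1 hx
    intro h0
    have := congrArg List.length h0
    rw [length_pw, List.length_nil] at this
    exact hW.ne y hy (List.length_eq_zero_iff.1 (by omega))
  · intro u hu v hv huv
    obtain ⟨y, hy, hyw, j, -, rfl⟩ := mem_stp.1 hu
    obtain ⟨y', hy', hyw', j', -, rfl⟩ := mem_stp.1 hv
    obtain ⟨h1, h2⟩ := pw_inj hW hw j j' y y' hy hyw hy' hyw' huv
    rw [h1, h2]

theorem sum_stp {M : Type} [AddCommMonoid M] {W : Finset (List (Fin n))} (hW : Pc W)
    {w : List (Fin n)} (hw : w ∈ W) (h : ℕ) (g : List (Fin n) → M) :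
    ∑ x ∈ stp h W w, g x = ∑ m ∈ Finset.range h, ∑ y ∈ W.erase w, g (pw w y m) := by
  unfold stp
  rw [Finset.sum_image, Finset.sum_product_right]
  rintro ⟨y, j⟩ hx ⟨y', j'⟩ hx' he
  rw [Finset.mem_coe, Finset.mem_product, Finset.mem_erase] at hx hx'
  have he' : pw w y j = pw w y' j' := he
  obtain ⟨h1, h2⟩ := pw_inj hW hw j j' y y' hx.1.2 hx.1.1 hx'.1.2 hx'.1.1
    (by rw [he'])
  rw [h1, h2]

/-- the matrix of the words `W` -/
def dW {V : Type} [DecidableEq V] (F : Fin n → V → V) (W : Finset (List (Fin n))) :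
    Matrix V V ℤ[X] :=
  Matrix.of fun i j => ∑ w ∈ W, X ^ w.length * (if wf F w j = i then 1 else 0)

/-- the column sum -/
def pW (W : Finset (List (Fin n))) : ℤ[X] := ∑ w ∈ W, X ^ w.length

theorem dW_sub {V : Type} [DecidableEq V] (F : Fin n → V → V) {W : Finset (List (Fin n))}
    {w : List (Fin n)} (hw : w ∈ W) (i j : V) :
    dW F W i j - X ^ w.length * (if wf F w j = i then 1 else 0) =
      ∑ y ∈ W.erase w, X ^ y.length * (if wf F y j = i then 1 else 0) := by
  unfold dW
  rw [Matrix.of_apply, ← Finset.add_sum_erase W _ hw]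
  ring

theorem evD_dW {V : Type} [DecidableEq V] (F : Fin n → V → V) {W : Finset (List (Fin n))}
    (hW : Pc W) {w : List (Fin n)} (hw : w ∈ W) (h : ℕ) :
    evD (dW F W) w.length h (wf F w) = dW F (stp h W w) := by
  ext1 i j
  unfold evD
  rw [Matrix.of_apply]
  show _ = ∑ x ∈ stp h W w, X ^ x.length * (if wf F x j = i then 1 else 0)
  rw [sum_stp hW hw]
  refine Finset.sum_congr rfl fun m _ => ?_
  rw [Function.iterate_succ_apply', dW_sub F hw, Finset.mul_sum]
  refine Finset.sum_congr rfl fun y _ => ?_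
  rw [wf_pw, length_pw, pow_add]
  ring

theorem pW_stp {W : Finset (List (Fin n))} (hW : Pc W) {w : List (Fin n)} (hw : w ∈ W) (h : ℕ) :
    pW (stp h W w) = (pW W - X ^ w.length) * ∑ m ∈ Finset.range h, X ^ (w.length * m) := by
  unfold pW
  rw [sum_stp hW hw, ← Finset.add_sum_erase W _ hw, add_sub_cancel_left, Finset.mul_sum]
  refine Finset.sum_congr rfl fun m _ => ?_
  rw [Finset.sum_mul]
  refine Finset.sum_congr rfl fun y _ => ?_
  rw [length_pw, pow_add]
  ring

theorem nn_dW {V : Type} [DecidableEq V] (F : Fin n → V → V) {W : Finset (List (Fin n))}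
    (hW : ∀ w ∈ W, w ≠ []) : Pos (dW F W) := by
  intro i j
  refine PosP.sum fun w hw => PosP.mul_right (posP_X_pow ?_) ?_
  · exact List.length_pos_iff.2 (hW w hw)
  · intro d
    split_ifs
    · exact nn_one d
    · simp

theorem le_dW {V : Type} [DecidableEq V] (F : Fin n → V → V) {W : Finset (List (Fin n))}
    (hW : Pc W) {w : List (Fin n)} (hw : w ∈ W) :
    Pos (Matrix.of fun i j => dW F W i j - X ^ w.length * (if wf F w j = i then 1 else 0)) := by
  intro i j
  rw [Matrix.of_apply, dW_sub F hw]
  refine PosP.sum fun y hy => PosP.mul_right (posP_X_pow ?_) ?_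
  · exact List.length_pos_iff.2 (hW.ne y (Finset.mem_of_mem_erase hy))
  · intro d
    split_ifs
    · exact nn_one d
    · simp

theorem coeff_pW (W : Finset (List (Fin n))) (d : ℕ) :
    (pW W).coeff d = ((W.filter fun w => w.length = d).card : ℤ) := by
  unfold pW
  rw [finsetSum_coeff, Finset.card_filter]
  push_cast
  refine Finset.sum_congr rfl fun w _ => ?_
  rw [Polynomial.coeff_X_pow]
  by_cases h : w.length = d
  · simp [h]
  · rw [if_neg (Ne.symm h), if_neg h]

theorem one_le_coeff_pW {W : Finset (List (Fin n))} {w : List (Fin n)} (hw : w ∈ W) :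
    1 ≤ (pW W).coeff w.length := by
  rw [coeff_pW]
  have : 0 < (W.filter fun x => x.length = w.length).card :=
    Finset.card_pos.2 ⟨w, by simp [hw]⟩
  exact_mod_cast this

theorem dW_sum {V : Type} [Fintype V] [DecidableEq V] (F : Fin n → V → V)
    (W : Finset (List (Fin n))) (j : V) : ∑ i, dW F W i j = pW W := by
  unfold dW pW
  simp only [Matrix.of_apply]
  rw [Finset.sum_comm]
  refine Finset.sum_congr rfl fun w _ => ?_
  rw [← Finset.mul_sum, Finset.sum_ite_eq, if_pos (Finset.mem_univ _), mul_one]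

/-- the words after a sequence of eliminations -/
def stps (h : ℕ) : Finset (List (Fin n)) → List (List (Fin n)) → Finset (List (Fin n))
  | W, [] => W
  | W, w :: ws => stps h (stp h W w) ws

/-- a valid sequence of eliminations -/
def Val (h : ℕ) : Finset (List (Fin n)) → List (List (Fin n)) → Prop
  | _, [] => True
  | W, w :: ws => w ∈ W ∧ Val h (stp h W w) ws

theorem pc_stps {h : ℕ} : ∀ {ws : List (List (Fin n))} {W : Finset (List (Fin n))}, Pc W →
    Val h W ws → Pc (stps h W ws) := by
  intro ws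
  induction ws with
  | nil => exact fun hW _ => hW
  | cons w ws ih => exact fun hW hv => ih (hW.stp hv.1 h) hv.2

theorem stps_append (h : ℕ) (ws ws' : List (List (Fin n))) (W : Finset (List (Fin n))) :
    stps h W (ws ++ ws') = stps h (stps h W ws) ws' := by
  induction ws generalizing W with
  | nil => rfl
  | cons w ws ih => exact ih _

theorem val_append (h : ℕ) (ws ws' : List (List (Fin n))) (W : Finset (List (Fin n))) :
    Val h W (ws ++ ws') ↔ Val h W ws ∧ Val h (stps h W ws) ws' := by
  induction ws generalizing W with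
  | nil => simp [Val, stps]
  | cons w ws ih =>
    show w ∈ W ∧ Val h (stp h W w) (ws ++ ws') ↔ _
    rw [ih, and_assoc.symm]
    rfl

theorem evs_cons (κ : Num) (h a : ℕ) (l : List ℕ) : κ.evs h (a :: l) = (κ.ev a h).evs h l := rfl

theorem evs_append (κ : Num) (h : ℕ) (l l' : List ℕ) :
    κ.evs h (l ++ l') = (κ.evs h l).evs h l' := by
  simp [Num.evs, List.foldl_append]

theorem evs_p {h : ℕ} : ∀ {ws : List (List (Fin n))} {W : Finset (List (Fin n))} {κ : Num}, Pc W →
    Val h W ws → κ.p = pW W → (κ.evs h (ws.map List.length)).p = pW (stps h W ws)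
  | [], _, _, _, _, hp => hp
  | w :: ws, W, κ, hW, hv, hp => by
    rw [List.map_cons, evs_cons]
    refine evs_p (ws := ws) (hW.stp hv.1 h) hv.2 ?_
    rw [pW_stp hW hv.1, ← hp]
    rfl

theorem evs_ok {h : ℕ} (hh : 1 ≤ h) : ∀ {ws : List (List (Fin n))} {W : Finset (List (Fin n))}
    {κ : Num}, Pc W → Val h W ws → κ.p = pW W → κ.Ok → (κ.evs h (ws.map List.length)).Ok
  | [], _, _, _, _, _, hκ => hκ
  | w :: ws, W, κ, hW, hv, hp, hκ => by
    rw [List.map_cons, evs_cons]
    refine evs_ok hh (ws := ws) (hW.stp hv.1 h) hv.2 ?_ ?_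
    · rw [pW_stp hW hv.1, ← hp]
      rfl
    · refine ok_ev hκ _ _ (List.length_pos_iff.2 (hW.ne w hv.1)) hh ?_
      rw [hp]
      exact one_le_coeff_pW hv.1

theorem mem_stp_of_mem {h : ℕ} (hh : 1 ≤ h) {W : Finset (List (Fin n))} {w y : List (Fin n)}
    (hy : y ∈ W) (hne : y ≠ w) : y ∈ stp h W w :=
  mem_stp.2 ⟨y, hy, hne, 0, hh, (pw_zero w y).symm⟩

theorem mem_stps_of_mem {h : ℕ} (hh : 1 ≤ h) : ∀ {ws : List (List (Fin n))}
    {W : Finset (List (Fin n))} {y : List (Fin n)}, y ∈ W → y ∉ ws → y ∈ stps h W ws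
  | [], _, _, hy, _ => hy
  | w :: ws, W, y, hy, hn => by
    rw [List.mem_cons, not_or] at hn
    exact mem_stps_of_mem hh (ws := ws) (mem_stp_of_mem hh hy hn.1) hn.2

/-! ### the short words -/

/-- the words of length `< N` -/
def trn (N : ℕ) (W : Finset (List (Fin n))) : Finset (List (Fin n)) := W.filter fun w => w.length < N

theorem mem_trn {N : ℕ} {W : Finset (List (Fin n))} {x : List (Fin n)} :
    x ∈ trn N W ↔ x ∈ W ∧ x.length < N := by
  unfold trn
  rw [Finset.mem_filter]

theorem trn_stp {N h h' : ℕ} (hh : N ≤ h) (hh' : N ≤ h') {W W' : Finset (List (Fin n))}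
    {w : List (Fin n)} (hw : w ≠ []) (hT : trn N W = trn N W') :
    trn N (stp h W w) = trn N (stp h' W' w) := by
  have key : ∀ {h h' : ℕ} {W W' : Finset (List (Fin n))}, N ≤ h' → trn N W = trn N W' →
      trn N (stp h W w) ⊆ trn N (stp h' W' w) := by
    intro h h' W W' hh' hT x hx
    rw [mem_trn] at hx ⊢
    refine ⟨?_, hx.2⟩
    obtain ⟨y, hy, hyw, j, hj, rfl⟩ := mem_stp.1 hx.1
    have h2 := hx.2
    rw [length_pw] at h2
    have h3 : 1 ≤ w.length := List.length_pos_iff.2 hw
    have h4 : j ≤ w.length * j := Nat.le_mul_of_pos_left j h3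
    have h5 : y ∈ trn N W := mem_trn.2 ⟨hy, by omega⟩
    rw [hT] at h5
    exact mem_stp.2 ⟨y, (mem_trn.1 h5).1, hyw, j, by omega, rfl⟩
  exact Finset.Subset.antisymm (key hh' hT) (key hh hT.symm)

theorem exists_run (N : ℕ) : ∀ (k a c : ℕ) (T : Finset (List (Fin n))), N ≤ a + k →
    (∀ x ∈ T, x ≠ [] ∧ a ≤ x.length ∧ x.length < N) → (T.filter fun x => x.length = a).card = c →
    ∃ ws : List (List (Fin n)), (∀ w ∈ ws, w ≠ [] ∧ w.length < N) ∧
      ∀ h, N ≤ h → ∀ W : Finset (List (Fin n)), trn N W = T →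
        Val h W ws ∧ ∀ x ∈ stps h W ws, N ≤ x.length := by
  intro k
  induction k with
  | zero =>
    intro a c T ha hT _
    refine ⟨[], by simp, fun h _ W hW => ⟨trivial, fun x hx => ?_⟩⟩
    by_contra hcon
    have h1 : x ∈ trn N W := mem_trn.2 ⟨hx, by omega⟩
    rw [hW] at h1
    have := hT x h1
    omega
  | succ k ihk =>
    intro a c
    induction c with
    | zero =>
      intro T ha hT hc
      refine ihk (a + 1) _ T (by omega) (fun x hx => ?_) rfl
      obtain ⟨h1, h2, h3⟩ := hT x hx
      refine ⟨h1, ?_, h3⟩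
      rcases Nat.eq_or_lt_of_le h2 with h4 | h4
      · exfalso
        rw [Finset.card_eq_zero] at hc
        have : x ∈ T.filter fun x => x.length = a := by simp [hx, h4.symm]
        rw [hc] at this
        exact absurd this (Finset.notMem_empty _)
      · exact h4
    | succ c ihc =>
      intro T ha hT hc
      have hne : (T.filter fun x => x.length = a).Nonempty := by
        rw [← Finset.card_pos, hc]
        exact Nat.succ_pos c
      obtain ⟨w, hw⟩ := hne
      rw [Finset.mem_filter] at hw
      obtain ⟨hw1, hw2, hw3⟩ := hT w hw.1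
      have htT : trn N T = T := by
        ext x
        rw [mem_trn]
        exact ⟨fun h => h.1, fun h => ⟨h, (hT x h).2.2⟩⟩
      have ha1 : 1 ≤ a := by
        rw [← hw.2]
        exact List.length_pos_iff.2 hw1
      obtain ⟨ws, h1, h2⟩ := ihc (trn N (stp N T w)) ha (by
        intro x hx
        rw [mem_trn] at hx
        obtain ⟨y, hy, hyw, j, hj, rfl⟩ := mem_stp.1 hx.1
        refine ⟨?_, ?_, hx.2⟩
        · intro h0
          have := congrArg List.length h0
          rw [length_pw, List.length_nil] at this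
          exact (hT y hy).1 (List.length_eq_zero_iff.1 (by omega))
        · rw [length_pw]
          have := (hT y hy).2.1
          omega) (by
        have : ((trn N (stp N T w)).filter fun x => x.length = a) =
            (T.filter fun x => x.length = a).erase w := by
          ext x
          rw [Finset.mem_filter, mem_trn, Finset.mem_erase, Finset.mem_filter]
          constructor
          · rintro ⟨⟨h1, h2⟩, h3⟩
            obtain ⟨y, hy, hyw, j, hj, rfl⟩ := mem_stp.1 h1
            have h4 := (hT y hy).2.1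
            rw [length_pw] at h3
            have h5 : w.length * j = 0 := by omega
            have h6 : j = 0 := by
              rcases Nat.mul_eq_zero.1 h5 with h | h
              · omega
              · exact h
            subst h6
            rw [pw_zero]
            exact ⟨hyw, hy, by omega⟩
          · rintro ⟨h1, h2, h3⟩
            exact ⟨⟨mem_stp_of_mem (by omega) h2 h1, (hT x h2).2.2⟩, h3⟩
        rw [this, Finset.card_erase_of_mem (by simp [hw.1, hw.2]), hc, Nat.add_sub_cancel])
      refine ⟨w :: ws, ?_, ?_⟩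
      · intro x hx
        rcases List.mem_cons.1 hx with h | h
        · rw [h]
          exact ⟨hw1, hw3⟩
        · exact h1 x h
      · intro h hh W hW
        have h3 : w ∈ W := by
          have : w ∈ trn N W := by rw [hW]; exact hw.1
          exact (mem_trn.1 this).1
        have h4 := h2 h hh (stp h W w) (trn_stp hh le_rfl hw1 (by rw [hW, htT]))
        exact ⟨⟨h3, h4.1⟩, h4.2⟩

end Pool.Agent.WFG
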