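import Pool.Agent.WFG.Face

/-!
# An explicit step next to a small matrix

PROOF of `relE_add`. On `Option (I ⊕ J)` take `W (some (inl i)) = ∑_d max_j |coeff_d (M i j)| X ^ d`,
`W (some (inr j)) = w (some j)`, `W none = κ.p -` the others; `W'` likewise with `w'`. By `room` the
coefficients of `W none` are `≥ coeff_d (w none) + rm M d`, so `W` is legal for `M ⊕ Y`, `W'` for `M ⊕ Y'`
(the column `some (inl i)`: rows `inl`: row maximum + M i j ≥ 0, row `none`: `W none - ∑_i M i j ≥ 0`, rows
`inr j`: `w (some j) ≥ 0`; the column `some (inr j)`: from `hp`, and so on). Let `x^ = x` on `none` and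
`inr`, `x^ (some (inl i)) = x none`; `u^ = u` on `none`, `inr`, `0` on `inl`. Then
`mat (M ⊕ Y) W - mat (M ⊕ Y') W' = ((1 - mat (M ⊕ Y') W') u^) x^ᵀ`: the rows `inl i` of the right-hand side
are `- (W (some (inl i))) ∑ u^ = 0`, and the rest is `h` (the row `none` of `mat (M ⊕ Y') W'` differs from
that of `mat Y' w'` by a constant, and `∑ u^ = 0`). `rel_gu`, `uni_mat`, `uni_gu`, `det_of_uni` (for the
determinant of `1 - M ⊕ Y'`), `relE_of_rel`.
-/

set_option autoImplicit false
set_option linter.unusedSectionVars false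

noncomputable section

namespace Pool.Agent.WFG

open Polynomial Matrix Pool.Agent.WFS

variable {I J L : Type} [Fintype I] [DecidableEq I] [Fintype J] [DecidableEq J] [Fintype L]
  [DecidableEq L]

theorem exists_rowmax (M : Matrix I I ℤ[X]) :
    ∃ m : I → ℤ[X], ∀ i d, (m i).coeff d = (rmx M i d : ℤ) := by
  obtain ⟨N, hN⟩ := exists_rm_bd M
  exact ⟨fun i => polyOf N fun d => (rmx M i d : ℤ),
    fun i d => polyOf_coeff N _ (fun d hd => by simp [hN i d hd]) d⟩

/-- the base column of the sum -/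
def wext (κ : Num) (m : I → ℤ[X]) (w : Option J → ℤ[X]) : Option (I ⊕ J) → ℤ[X]
  | none => κ.p - ∑ i, m i - ∑ j, w (some j)
  | some (Sum.inl i) => m i
  | some (Sum.inr j) => w (some j)

theorem leg_ext {κ : Num} (hκ : κ.Ok) {M : Matrix I I ℤ[X]} {Y : Matrix J J ℤ[X]} {m : I → ℤ[X]}
    (hm : ∀ i d, (m i).coeff d = (rmx M i d : ℤ)) {w : Option J → ℤ[X]} {P : ℤ[X]}
    (hw : ∑ a, w a = P) (hp : Pos (mat Y w))
    (room : ∀ d, P.coeff d + 2 * (rm M d : ℤ) ≤ κ.p.coeff d) :
    Leg κ (Matrix.fromBlocks M 0 0 Y) (wext κ m w) := by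
  have hwp : ∀ a, Pol (w a) := by
    intro a
    have h1 := hp a none
    have e : mat Y w a none = w a := by
      rcases a with _ | i
      · exact add_zero _
      · exact add_zero _
    rw [e] at h1
    exact h1
  have hY : ∀ i j, Pol (w (some i) + Y i j) := fun i j => hp (some i) (some j)
  have hY2 : ∀ j, Pol (w none + - ∑ i, Y i j) := fun j => hp none (some j)
  have hP : ∀ d, P.coeff d = (w none).coeff d + ∑ j, (w (some j)).coeff d := by
    intro d
    rw [← hw, Fintype.sum_option, Polynomial.coeff_add, Polynomial.finsetSum_coeff]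
  have hr : ∀ d, ((rm M d : ℕ) : ℤ) = ∑ i, (rmx M i d : ℤ) := fun d => by
    rw [rm_eq, Nat.cast_sum]
  have cn : ∀ d, (wext κ m w none).coeff d =
      κ.p.coeff d - (rm M d : ℤ) - ∑ j, (w (some j)).coeff d := by
    intro d
    show (κ.p - ∑ i, m i - ∑ j, w (some j)).coeff d = _
    rw [Polynomial.coeff_sub, Polynomial.coeff_sub, Polynomial.finsetSum_coeff,
      Polynomial.finsetSum_coeff, hr]
    simp only [hm]
  have cn' : ∀ d, (w none).coeff d + (rm M d : ℤ) ≤ (wext κ m w none).coeff d := by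
    intro d
    rw [cn]
    have h1 := room d
    rw [hP] at h1
    linarith
  have hp0 : κ.p.coeff 0 = 0 := hκ.p.1
  have hs0 : ∑ j, (w (some j)).coeff 0 = 0 := Finset.sum_eq_zero fun j _ => (hwp (some j)).1
  have hr0 : (rm M 0 : ℤ) = 0 := by
    have h1 := room 0
    rw [hP, (hwp none).1, hs0, hp0] at h1
    have h2 : (0 : ℤ) ≤ (rm M 0 : ℤ) := by positivity
    linarith
  have hx0 : ∀ i, (rmx M i 0 : ℤ) = 0 := by
    intro i
    rw [hr] at hr0
    have h1 := Finset.single_le_sum (f := fun i => (rmx M i 0 : ℤ)) (fun i _ => by positivity)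
      (Finset.mem_univ i)
    have h2 : (0 : ℤ) ≤ (rmx M i 0 : ℤ) := by positivity
    have h3 : (rmx M i 0 : ℤ) ≤ ∑ i, (rmx M i 0 : ℤ) := h1
    linarith
  have hM0 : ∀ i j, (M i j).coeff 0 = 0 := by
    intro i j
    have h1 := abs_le_rmx M i j 0
    rw [hx0] at h1
    exact abs_eq_zero.1 (le_antisymm h1 (abs_nonneg _))
  have n0 : (wext κ m w none).coeff 0 = 0 := by
    rw [cn, hp0, hr0, hs0]
    norm_num
  have hrp : ∀ d, (0 : ℤ) ≤ (rm M d : ℤ) := fun d => by positivity
  have hxp : ∀ i d, (0 : ℤ) ≤ (rmx M i d : ℤ) := fun i d => by positivity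
  refine ⟨?_, mat_pos ?_ ?_ ?_⟩
  · rw [Fintype.sum_option, Fintype.sum_sum_type]
    show κ.p - ∑ i, m i - ∑ j, w (some j) + (∑ i, m i + ∑ j, w (some j)) = κ.p
    ring
  · rintro (_ | i | j)
    · exact ⟨n0, fun d => by linarith [cn' d, (hwp none).2 d, hrp d]⟩
    · show Pol (m i)
      exact ⟨by rw [hm, hx0], fun d => by rw [hm]; exact hxp i d⟩
    · exact hwp (some j)
  · rintro (i | j) (i' | j')
    · show Pol (m i + M i i')
      refine ⟨by rw [Polynomial.coeff_add, hm, hx0, hM0, add_zero], fun d => ?_⟩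
      rw [Polynomial.coeff_add, hm]
      have := (abs_le.1 (abs_le_rmx M i i' d)).1
      linarith
    · show Pol (m i + 0)
      rw [add_zero]
      exact ⟨by rw [hm, hx0], fun d => by rw [hm]; exact hxp i d⟩
    · show Pol (w (some j) + 0)
      rw [add_zero]
      exact hwp (some j)
    · exact hY j j'
  · rintro (i' | j')
    · rw [Fintype.sum_sum_type]
      show Pol (wext κ m w none + - (∑ i, M i i' + ∑ j : J, (0 : ℤ[X])))
      rw [Finset.sum_const_zero, add_zero]
      refine ⟨?_, fun d => ?_⟩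
      · rw [Polynomial.coeff_add, Polynomial.coeff_neg, Polynomial.finsetSum_coeff, n0,
          Finset.sum_eq_zero fun i _ => hM0 i i']
        norm_num
      · rw [Polynomial.coeff_add, Polynomial.coeff_neg, Polynomial.finsetSum_coeff]
        have h1 := (abs_le.1 (abs_sum_le_rm M i' d)).2
        linarith [cn' d, (hwp none).2 d]
    · rw [Fintype.sum_sum_type]
      show Pol (wext κ m w none + - (∑ i : I, (0 : ℤ[X]) + ∑ j, Y j j'))
      rw [Finset.sum_const_zero, zero_add]
      have h1 := hY2 j'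
      refine ⟨?_, fun d => ?_⟩
      · have h2 := h1.1
        rw [Polynomial.coeff_add, (hwp none).1] at h2
        rw [Polynomial.coeff_add, n0]
        exact h2
      · have h2 := h1.2 d
        rw [Polynomial.coeff_add] at h2
        rw [Polynomial.coeff_add]
        linarith [cn' d, hrp d]

/-- the row of the step -/
def xext (x : Option J → ℕ) : Option (I ⊕ J) → ℕ
  | none => x none
  | some (Sum.inl _) => x none
  | some (Sum.inr j) => x (some j)

/-- the column of the step -/
def uext (u : Option J → ℤ[X]) : Option (I ⊕ J) → ℤ[X]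
  | none => u none
  | some (Sum.inl _) => 0
  | some (Sum.inr j) => u (some j)

theorem sum_uext (u : Option J → ℤ[X]) : ∑ i, uext (I := I) u i = ∑ i, u i := by
  rw [Fintype.sum_option, Fintype.sum_sum_type, Fintype.sum_option]
  show u none + (∑ _i : I, 0 + ∑ j, u (some j)) = _
  rw [Finset.sum_const_zero, zero_add]

theorem sum_xuext (x : Option J → ℕ) (u : Option J → ℤ[X]) :
    ∑ i, (xext (I := I) x i : ℤ[X]) * uext u i = ∑ i, (x i : ℤ[X]) * u i := by
  rw [Fintype.sum_option, Fintype.sum_sum_type, Fintype.sum_option]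
  show (x none : ℤ[X]) * u none + (∑ _i : I, (x none : ℤ[X]) * 0 +
    ∑ j, (x (some j) : ℤ[X]) * u (some j)) = _
  simp only [mul_zero, Finset.sum_const_zero, zero_add]

theorem step_ext (κ : Num) (M : Matrix I I ℤ[X]) (m : I → ℤ[X]) {Y Y' : Matrix J J ℤ[X]}
    {w w' : Option J → ℤ[X]} {P : ℤ[X]} (hw : ∑ a, w a = P) (hw' : ∑ a, w' a = P)
    (x : Option J → ℕ) (u : Option J → ℤ[X]) (hu : ∑ i, u i = 0)
    (h : ∀ i j, mat Y w i j - mat Y' w' i j = (u i - ∑ l, mat Y' w' i l * u l) * (x j : ℤ[X])) :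
    ∀ a b, mat (Matrix.fromBlocks M 0 0 Y) (wext κ m w) a b -
        mat (Matrix.fromBlocks M 0 0 Y') (wext κ m w') a b =
      (uext u a - ∑ l, mat (Matrix.fromBlocks M 0 0 Y') (wext κ m w') a l * uext u l) *
        (xext x b : ℤ[X]) := by
  rw [Fintype.sum_option] at hw hw' hu
  -- the right hand factor
  have hR : ∀ a, ∑ l, mat (Matrix.fromBlocks M 0 0 Y') (wext κ m w') a l * uext u l =
      match a with
      | none => ∑ l, mat Y' w' none l * u l
      | some (Sum.inl _) => 0
      | some (Sum.inr j) => ∑ l, mat Y' w' (some j) l * u l := by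
    intro a
    rw [Fintype.sum_option, Fintype.sum_sum_type]
    rcases a with _ | i | j
    · show (wext κ m w' none + 0) * u none + (∑ _i : I, _ * (0 : ℤ[X]) +
        ∑ j, (wext κ m w' none + - ∑ i, Matrix.fromBlocks M 0 0 Y' i (Sum.inr j)) * u (some j)) =
        ∑ l, mat Y' w' none l * u l
      rw [Fintype.sum_option]
      show _ = (w' none + 0) * u none + ∑ j, (w' none + - ∑ i, Y' i j) * u (some j)
      have e : ∀ j, ∑ i, Matrix.fromBlocks M 0 0 Y' i (Sum.inr j) = ∑ i, Y' i j := by
        intro j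
        rw [Fintype.sum_sum_type]
        show ∑ _i : I, (0 : ℤ[X]) + ∑ i, Y' i j = _
        rw [Finset.sum_const_zero, zero_add]
      simp only [e, add_mul, mul_zero, Finset.sum_const_zero, Finset.sum_add_distrib,
        ← Finset.mul_sum, add_zero, zero_add]
      linear_combination (wext κ m w' none - w' none) * hu
    · show (m i + 0) * u none + (∑ _i : I, _ * (0 : ℤ[X]) + ∑ j, (m i + 0) * u (some j)) = 0
      simp only [mul_zero, Finset.sum_const_zero, add_zero, zero_add, ← Finset.mul_sum]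
      linear_combination (m i) * hu
    · show (w' (some j) + 0) * u none + (∑ _i : I, _ * (0 : ℤ[X]) +
        ∑ j', (w' (some j) + Y' j j') * u (some j')) = ∑ l, mat Y' w' (some j) l * u l
      rw [Fintype.sum_option]
      show _ = (w' (some j) + 0) * u none + ∑ j', (w' (some j) + Y' j j') * u (some j')
      simp only [mul_zero, Finset.sum_const_zero, zero_add]
  intro a b
  rw [hR]
  rcases a with _ | i | j
  · have e : ∀ j, ∑ i, Matrix.fromBlocks M 0 0 Y i (Sum.inr j) = ∑ i, Y i j := by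
      intro j
      rw [Fintype.sum_sum_type]
      show ∑ _i : I, (0 : ℤ[X]) + ∑ i, Y i j = _
      rw [Finset.sum_const_zero, zero_add]
    have e' : ∀ j, ∑ i, Matrix.fromBlocks M 0 0 Y' i (Sum.inr j) = ∑ i, Y' i j := by
      intro j
      rw [Fintype.sum_sum_type]
      show ∑ _i : I, (0 : ℤ[X]) + ∑ i, Y' i j = _
      rw [Finset.sum_const_zero, zero_add]
    have e2 : ∀ j, ∑ i, Matrix.fromBlocks M 0 0 Y i (Sum.inl j) = ∑ i, M i j := by
      intro j
      rw [Fintype.sum_sum_type]
      show ∑ i, M i j + ∑ _i : J, (0 : ℤ[X]) = _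
      rw [Finset.sum_const_zero, add_zero]
    have e2' : ∀ j, ∑ i, Matrix.fromBlocks M 0 0 Y' i (Sum.inl j) = ∑ i, M i j := by
      intro j
      rw [Fintype.sum_sum_type]
      show ∑ i, M i j + ∑ _i : J, (0 : ℤ[X]) = _
      rw [Finset.sum_const_zero, add_zero]
    have h0 : w none + 0 - (w' none + 0) = (u none - ∑ l, mat Y' w' none l * u l) *
      (x none : ℤ[X]) := h none none
    rcases b with _ | i' | j'
    · show (κ.p - ∑ i, m i - ∑ j, w (some j)) + 0 - ((κ.p - ∑ i, m i - ∑ j, w' (some j)) + 0) =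
        (u none - ∑ l, mat Y' w' none l * u l) * (x none : ℤ[X])
      linear_combination h0 + hw' - hw
    · show (κ.p - ∑ i, m i - ∑ j, w (some j)) + - ∑ i, Matrix.fromBlocks M 0 0 Y i (Sum.inl i') -
        ((κ.p - ∑ i, m i - ∑ j, w' (some j)) +
          - ∑ i, Matrix.fromBlocks M 0 0 Y' i (Sum.inl i')) =
        (u none - ∑ l, mat Y' w' none l * u l) * (x none : ℤ[X])
      rw [e2, e2']
      linear_combination h0 + hw' - hw
    · have h1 : w none + - ∑ i, Y i j' - (w' none + - ∑ i, Y' i j') =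
        (u none - ∑ l, mat Y' w' none l * u l) * (x (some j') : ℤ[X]) := h none (some j')
      show (κ.p - ∑ i, m i - ∑ j, w (some j)) + - ∑ i, Matrix.fromBlocks M 0 0 Y i (Sum.inr j') -
        ((κ.p - ∑ i, m i - ∑ j, w' (some j)) +
          - ∑ i, Matrix.fromBlocks M 0 0 Y' i (Sum.inr j')) =
        (u none - ∑ l, mat Y' w' none l * u l) * (x (some j') : ℤ[X])
      rw [e, e']
      linear_combination h1 + hw' - hw
  · rcases b with _ | i' | j'
    · show m i + 0 - (m i + 0) = (0 - 0) * _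
      ring
    · show m i + M i i' - (m i + M i i') = (0 - 0) * _
      ring
    · show m i + 0 - (m i + 0) = (0 - 0) * _
      ring
  · rcases b with _ | i' | j'
    · exact h (some j) none
    · have h0 : w (some j) + 0 - (w' (some j) + 0) =
        (u (some j) - ∑ l, mat Y' w' (some j) l * u l) * (x none : ℤ[X]) := h (some j) none
      exact h0
    · exact h (some j) (some j')

/-- (AD) an explicit step of a small block `Y` next to a small matrix `M`, tight room -/
theorem relE_add {κ : Num} (hκ : κ.Ok) {M : Matrix I I ℤ[X]} (hM : IsUnit (1 - M).det)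
    {Y Y' : Matrix J J ℤ[X]} (hY : IsUnit (1 - Y).det) (w w' : Option J → ℤ[X]) (P : ℤ[X])
    (hw : ∑ a, w a = P) (hw' : ∑ a, w' a = P) (hp : Pos (mat Y w)) (hp' : Pos (mat Y' w'))
    (x : Option J → ℕ) (u : Option J → ℤ[X]) (hu : ∑ i, u i = 0)
    (hx : ∑ i, (x i : ℤ[X]) * u i = 0)
    (h : ∀ i j, mat Y w i j - mat Y' w' i j = (u i - ∑ l, mat Y' w' i l * u l) * (x j : ℤ[X]))
    (room : ∀ d, P.coeff d + 2 * (rm M d : ℤ) ≤ κ.p.coeff d) :
    RelE κ (Matrix.fromBlocks M 0 0 Y) (Matrix.fromBlocks M 0 0 Y') := by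
  obtain ⟨m, hm⟩ := exists_rowmax M
  have hL := leg_ext hκ hm hw hp room
  have hL' := leg_ext hκ hm hw' hp' room
  have hE : IsUnit (1 - Matrix.fromBlocks M 0 0 Y).det := by
    have e : (1 - Matrix.fromBlocks M 0 0 Y : Matrix (I ⊕ J) (I ⊕ J) ℤ[X]) =
        Matrix.fromBlocks (1 - M) 0 0 (1 - Y) := by
      rw [← Matrix.fromBlocks_one]
      ext1 a b
      rcases a with a | a
      · rcases b with b | b
        · rfl
        · exact sub_zero _
      · rcases b with b | b
        · exact sub_zero _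
        · rfl
    rw [e, Matrix.det_fromBlocks_zero₂₁]
    exact hM.mul hY
  have hU := uni_mat hE hL
  have hs := step_ext κ M m hw hw' x u hu h
  have hu' : ∑ i, uext (I := I) u i = 0 := (sum_uext u).trans hu
  have hx' : ∑ i, (xext (I := I) x i : ℤ[X]) * uext u i = 0 := (sum_xuext x u).trans hx
  have hU' := uni_gu hU hL'.pos (xext x) (uext u) hu' hx' hs
  have hR := rel_gu hκ hU hU' (xext x) (uext u) hu' hx' hs
  have hE' := det_of_uni hU'
  rw [kp_mat] at hE'
  exact relE_of_rel hκ hE hE' hL hL' hR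

end Pool.Agent.WFG
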