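import Pool.Agent.WFG.Face

/-!
# The link with the frozen form

PROOF. `mat_kp`, `relE`-hypothesis with `w = ` column `none`, `rel_trivial`, `sse_of_rel`.
-/

set_option autoImplicit false
set_option linter.unusedSectionVars false

noncomputable section

namespace Pool.Agent.WFG

open Polynomial Matrix Pool.Agent.WFS

variable {I J L : Type} [Fintype I] [DecidableEq I] [Fintype J] [DecidableEq J] [Fintype L]
  [DecidableEq L]

/-- (LINK) with the frozen form: `A` on `Option (Fin k)` with column sums `n` -/
theorem sse_of_relE {k n : ℕ} (A : Matrix (Option (Fin k)) (Option (Fin k)) ℕ)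
    (hA : ∀ j, ∑ i, A i j = n)
    (h : RelE (Num.base n) (kp (Matrix.of fun i j => C (A i j : ℤ) * X))
      (0 : Matrix (Fin 0) (Fin 0) ℤ[X])) :
    Sse (toFin A) ⟨1, Matrix.of fun _ _ => n⟩ := by
  have hs : ∀ j, ∑ i, (Matrix.of fun i j => C (A i j : ℤ) * X :
      Matrix (Option (Fin k)) (Option (Fin k)) ℤ[X]) i j = C (n : ℤ) * X := by
    intro j
    simp only [Matrix.of_apply]
    rw [← Finset.sum_mul, ← map_sum, ← Nat.cast_sum, hA]
  have hpos : Pos (Matrix.of fun i j => C (A i j : ℤ) * X :
      Matrix (Option (Fin k)) (Option (Fin k)) ℤ[X]) := fun i j => pol_CX (A i j)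
  have hm := mat_kp hs
  have hw : Leg (Num.base n) (kp (Matrix.of fun i j => C (A i j : ℤ) * X :
      Matrix (Option (Fin k)) (Option (Fin k)) ℤ[X])) (fun a => (Matrix.of fun i j =>
        C (A i j : ℤ) * X : Matrix (Option (Fin k)) (Option (Fin k)) ℤ[X]) a none) :=
    ⟨hs none, by rw [hm]; exact hpos⟩
  have hw' : Leg (Num.base n) (0 : Matrix (Fin 0) (Fin 0) ℤ[X]) (fun _ => C (n : ℤ) * X) := by
    refine ⟨?_, ?_⟩
    · rw [Fintype.sum_option]
      simp [Num.base]
    · intro a b
      rcases a with _ | i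
      · rcases b with _ | j
        · show Pol (C (n : ℤ) * X + 0)
          rw [add_zero]
          exact pol_CX n
        · exact j.elim0
      · exact i.elim0
  have h1 := h _ _ hw hw'
  rw [hm] at h1
  refine sse_of_rel A (h1.trans (ok_base n) ?_)
  refine (rel_trivial (ok_base n) hw'.pos (fun j => (mat_sum _ _ j).trans hw'.sum)
    (fun _ => C (n : ℤ) * X) ?_).2
  intro a b
  rcases a with _ | i
  · rcases b with _ | j
    · exact add_zero _
    · exact j.elim0
  · exact i.elim0

end Pool.Agent.WFG
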