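import Pool.Agent.WFG.Sys
import Pool.Agent.WFS.PolyLin3

/-!
# The move with a polynomial row

PROOF of `eqv_poly_row`. `wp = X wp'`, `wm = X wm'` with `Pol (wp' i)`, `Pol (wm' i)`. From `h` in the
degrees 0 and 1 (T1 has no constant terms) `u` has no terms of degree 0 and 1: `u = X u'`. Take the matrix
`M wp'` on `Option S`: entries `T1 i j` at (some i, some j), `wp' i` at (some i, none), `X * x j` at
(none, some j), `0` at (none, none); `M wm'` likewise. `eqv_col` at `v = none` with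
`û (some l) = u' l`, `û none = 0` gives `Eqv (M wp') (M wm')`: at `some i` it is `h` divided by `X`, at
`none` it is `0 = 0 - ∑ X x_l u'_l = - ∑ x_l u_l = 0`. `eqv_elim` at `none` and `eqv_reindex`
(`{s : Option S // s ≠ none} ≃ S`) turn `M wp'` into `T1 + wp xᵀ`, `M wm'` into `T1 + wm xᵀ`.

PROOF of `rel_poly_row`. Apply it to `T1 := κ.tot D1 Q` on `V ⊕ κ.c` with `Sum.elim x 0`, `Sum.elim wp 0`,
`Sum.elim wm 0`, `Sum.elim u 0` (at the rows of the stations: `0 = 0 - y_s ∑ u`), then `eqv_exits`.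
-/

set_option autoImplicit false
set_option linter.unusedSectionVars false

noncomputable section

namespace Pool.Agent.WFG

open Polynomial Matrix Pool.Agent.WFS

variable {V V' V'' W : Type} [Fintype V] [DecidableEq V] [Fintype V'] [DecidableEq V'] [Fintype V'']
  [DecidableEq V''] [Fintype W] [DecidableEq W]

/-- the general move for polynomial matrices, with a POLYNOMIAL row `x ≥ 0`:
`T = T1 + wp xᵀ`, `T' = T1 + wm xᵀ`, `wp - wm = (1 - T1) u`, `x · u = 0` -/
theorem eqv_poly_row {S : Type} [Fintype S] [DecidableEq S] (T1 : Matrix S S ℤ[X]) (hT1 : Pos T1)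
    (x wp wm u : S → ℤ[X]) (hx : ∀ j d, 0 ≤ (x j).coeff d)
    (hp : ∀ i, Pol (wp i) ∧ (wp i).coeff 1 = 0) (hm : ∀ i, Pol (wm i) ∧ (wm i).coeff 1 = 0)
    (hxu : ∑ j, x j * u j = 0) (h : ∀ i, wp i - wm i = u i - ∑ l, T1 i l * u l) :
    Eqv (Matrix.of fun i j => T1 i j + wp i * x j) (Matrix.of fun i j => T1 i j + wm i * x j) :=
  eqv_guP hT1 wp wm x u (fun i => (hp i).1) (fun i => (hm i).1) hx hxu h

theorem rel_poly_row {κ : Num} (hκ : κ.Ok) {D D' D1 : Matrix V V ℤ[X]} (hD : Uni κ D)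
    (hD' : Uni κ D') (hD1 : Pos D1) (x wp wm u : V → ℤ[X]) (hx : ∀ j d, 0 ≤ (x j).coeff d)
    (hp : ∀ i, Pol (wp i) ∧ (wp i).coeff 1 = 0) (hm : ∀ i, Pol (wm i) ∧ (wm i).coeff 1 = 0)
    (hu : ∑ i, u i = 0) (hxu : ∑ j, x j * u j = 0)
    (h : ∀ i, wp i - wm i = u i - ∑ l, D1 i l * u l)
    (e : ∀ i j, D i j = D1 i j + wp i * x j) (e' : ∀ i j, D' i j = D1 i j + wm i * x j) :
    Rel κ D D' := by
  intro Q Q' hQ hQ'
  refine Eqv.trans ?_ (eqv_exits hκ hD' hQ hQ')
  have hpz : ∀ w : V → ℤ[X], (∀ i, Pol (w i) ∧ (w i).coeff 1 = 0) →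
      ∀ i, Pol (Sum.elim w (fun _ : κ.c => (0 : ℤ[X])) i) ∧
        (Sum.elim w (fun _ : κ.c => (0 : ℤ[X])) i).coeff 1 = 0 := by
    rintro w hw (i | s)
    · exact hw i
    · simp [Pol]
  have key := eqv_poly_row (κ.tot D1 Q) (tot_pos hκ hD1 hQ) (Sum.elim x fun _ => 0)
    (Sum.elim wp fun _ => 0) (Sum.elim wm fun _ => 0) (Sum.elim u fun _ => 0)
    (by
      rintro (j | s) d
      · exact hx j d
      · simp)
    (hpz wp hp) (hpz wm hm)
    (by
      rw [Fintype.sum_sum_type]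
      simp [hxu])
    (by
      rintro (i | s)
      · rw [Fintype.sum_sum_type]
        simp [Num.tot, h i]
      · rw [Fintype.sum_sum_type]
        simp [Num.tot, ← Finset.mul_sum, hu])
  have e1 : (Matrix.of fun i j => κ.tot D1 Q i j + Sum.elim wp (fun _ => 0) i *
      Sum.elim x (fun _ => 0) j) = κ.tot D Q := by
    ext1 i j
    rcases i with i | s <;> rcases j with j | t <;> simp [Num.tot, e]
  have e2 : (Matrix.of fun i j => κ.tot D1 Q i j + Sum.elim wm (fun _ => 0) i *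
      Sum.elim x (fun _ => 0) j) = κ.tot D' Q := by
    ext1 i j
    rcases i with i | s <;> rcases j with j | t <;> simp [Num.tot, e']
  rwa [e1, e2] at key

end Pool.Agent.WFG
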