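import Pool.Agent.WFG.Face
import Pool.Agent.WFG.SysRow

/-!
# The move with a polynomial row, at the level of K-parts

PROOF of `relE_tp`. Let `c f = max_j |coeff_f (χ j)|`, `s = ∑_f c f X ^ f` (a polynomial), `x none = s`,
`x (some j) = χ j + s` (coefficients between `0` and `2 c f`); `uu (some i) = u i`, `uu none = - ∑ u`;
`zz (some i) = z i`, `zz none = - ∑ z`; `wp`, `wm` the positive and negative parts of `zz`, coefficient by
coefficient. `x · uu = χ u + s ∑ uu = 0`. Base column of `E`: `w (some i)` has the coefficients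
`max_j |coeff_d E i j| + 2 ∑_(e ≤ d) |coeff_e (z i)| c (d - e)`, `w none = κ.p - ∑ w (some i)`.
`D = mat E w`, `D1 = D - wp xᵀ` is nonnegative (coefficientwise, by `room`), `D' = D1 + wm xᵀ = D - zz xᵀ =
mat E' w'` with `w' = w - s zz`. `(1 - D1) uu = (1 - D) uu + wp (x · uu) = zz`. `rel_poly_row`,
`relE_of_rel`.
PROOF of `relE_left`: `z = v`, `χ = φ (1 - E)`, `u = (1 - E)⁻¹ v` (unit determinant), `χ u = φ v = 0`,
`det (1 - E')` is a unit (`det (1 + v φ) = 1 + φ v = 1`).
-/

set_option autoImplicit false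
set_option linter.unusedSectionVars false

noncomputable section

namespace Pool.Agent.WFG

open Polynomial Matrix Pool.Agent.WFS

variable {I J L : Type} [Fintype I] [DecidableEq I] [Fintype J] [DecidableEq J] [Fintype L]
  [DecidableEq L]

private theorem tpq_mul_le (a y : ℤ[X]) (A B : ℕ → ℤ) (ha : ∀ e, 0 ≤ a.coeff e ∧ a.coeff e ≤ A e)
    (hy : ∀ f, 0 ≤ y.coeff f ∧ y.coeff f ≤ B f) (d : ℕ) :
    0 ≤ (a * y).coeff d ∧ (a * y).coeff d ≤ ∑ e ∈ Finset.range (d + 1), A e * B (d - e) := by
  rw [Polynomial.coeff_mul, Finset.Nat.sum_antidiagonal_eq_sum_range_succ_mk]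
  refine ⟨Finset.sum_nonneg fun e _ => mul_nonneg (ha e).1 (hy _).1, Finset.sum_le_sum fun e _ => ?_⟩
  exact mul_le_mul (ha e).2 (hy _).2 (hy _).1 ((ha e).1.trans (ha e).2)

/-- positive part -/
private def tpqP (q : ℤ[X]) : ℤ[X] := polyOf (q.natDegree + 1) fun d => max (q.coeff d) 0

private theorem tpqP_coeff (q : ℤ[X]) (d : ℕ) : (tpqP q).coeff d = max (q.coeff d) 0 := by
  unfold tpqP
  rw [polyOf_coeff]
  intro e he
  rw [Polynomial.coeff_eq_zero_of_natDegree_lt (by omega), max_self]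

private theorem tpqP_sub (q : ℤ[X]) : tpqP q - tpqP (-q) = q := by
  ext d
  rw [Polynomial.coeff_sub, tpqP_coeff, tpqP_coeff, Polynomial.coeff_neg]
  rcases le_total (q.coeff d) 0 with h | h
  · rw [max_eq_right h, max_eq_left (by linarith)]
    ring
  · rw [max_eq_left h, max_eq_right (by linarith)]
    ring

private theorem tpqP_bd (q : ℤ[X]) (d : ℕ) : 0 ≤ (tpqP q).coeff d ∧ (tpqP q).coeff d ≤ |q.coeff d| := by
  rw [tpqP_coeff]
  exact ⟨le_max_right _ _, max_le (le_abs_self _) (abs_nonneg _)⟩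

private theorem tpqP_bd' (q : ℤ[X]) (d : ℕ) :
    0 ≤ (tpqP (-q)).coeff d ∧ (tpqP (-q)).coeff d ≤ |q.coeff d| := by
  have := tpqP_bd (-q) d
  rwa [Polynomial.coeff_neg, abs_neg] at this

private theorem tpqP_low {q : ℤ[X]} (h0 : q.coeff 0 = 0) (h1 : q.coeff 1 = 0) :
    Pol (tpqP q) ∧ (tpqP q).coeff 1 = 0 := by
  refine ⟨⟨?_, fun d => (tpqP_bd q d).1⟩, ?_⟩
  · rw [tpqP_coeff, h0, max_self]
  · rw [tpqP_coeff, h1, max_self]

/-- (TP) the letter with a polynomial row: `E - E' = z χ`, `z = (1 - E) u`, `χ u = 0`, `z` of order `≥ 2` -/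
theorem relE_tp {κ : Num} (hκ : κ.Ok) {E E' : Matrix I I ℤ[X]} (hE : IsUnit (1 - E).det)
    (hE' : IsUnit (1 - E').det) (z χ u : I → ℤ[X]) (hz : ∀ i, (z i).coeff 0 = 0 ∧ (z i).coeff 1 = 0)
    (hu : ∀ i, z i = u i - ∑ j, E i j * u j) (hχ : ∑ j, χ j * u j = 0)
    (h : ∀ i j, E i j - E' i j = z i * χ j)
    (room : ∀ d, 2 * (rm E d : ℤ) + 4 * ∑ e ∈ Finset.range (d + 1),
      (∑ i, |(z i).coeff e|) * (Finset.univ.sup fun j => ((χ j).coeff (d - e)).natAbs : ℕ) ≤
        κ.p.coeff d) : RelE κ E E' := by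
  classical
  -- the bounds of the row
  let c : ℕ → ℤ := fun f => ((Finset.univ.sup fun j => ((χ j).coeff f).natAbs : ℕ) : ℤ)
  have hc0 : ∀ f, 0 ≤ c f := fun f => Int.natCast_nonneg _
  have hcχ : ∀ j f, |(χ j).coeff f| ≤ c f := fun j f =>
    abs_le_rmx (Matrix.of fun (_ : Unit) j => χ j) () j f
  obtain ⟨N1, hN1⟩ := exists_rm_bd (Matrix.of fun (_ : Unit) j => χ j)
  obtain ⟨N2, hN2⟩ := exists_rm_bd E
  let s : ℤ[X] := polyOf N1 c
  have hs : ∀ f, s.coeff f = c f := fun f => polyOf_coeff N1 c (fun d hd => by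
    have := hN1 () d hd
    show ((rmx (Matrix.of fun (_ : Unit) j => χ j) () d : ℕ) : ℤ) = 0
    rw [this, Nat.cast_zero]) f
  let x : Option I → ℤ[X] := fun a => a.elim s fun j => χ j + s
  let uu : Option I → ℤ[X] := fun a => a.elim (- ∑ i, u i) u
  let zz : Option I → ℤ[X] := fun a => a.elim (- ∑ i, z i) z
  have hxs : ∀ a f, 0 ≤ (x a).coeff f ∧ (x a).coeff f ≤ 2 * c f := by
    intro a f
    rcases a with _ | j
    · show 0 ≤ s.coeff f ∧ s.coeff f ≤ 2 * c f
      rw [hs]
      exact ⟨hc0 f, by linarith [hc0 f]⟩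
    · show 0 ≤ (χ j + s).coeff f ∧ (χ j + s).coeff f ≤ 2 * c f
      rw [Polynomial.coeff_add, hs]
      have := abs_le.1 (hcχ j f)
      exact ⟨by linarith [this.1], by linarith [this.2]⟩
  have hsuu : ∑ a, uu a = 0 := by
    rw [Fintype.sum_option]
    show - ∑ i, u i + ∑ i, u i = 0
    ring
  have hszz : ∑ a, zz a = 0 := by
    rw [Fintype.sum_option]
    show - ∑ i, z i + ∑ i, z i = 0
    ring
  have hxu : ∑ a, x a * uu a = 0 := by
    rw [Fintype.sum_option]
    show s * (- ∑ i, u i) + ∑ j, (χ j + s) * u j = 0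
    have h1 : ∀ j, (χ j + s) * u j = χ j * u j + s * u j := fun j => by ring
    rw [Finset.sum_congr rfl fun j _ => h1 j, Finset.sum_add_distrib, hχ, ← Finset.mul_sum]
    ring
  -- convolution bounds
  let B : I → ℕ → ℤ := fun i d => ∑ e ∈ Finset.range (d + 1), |(z i).coeff e| * c (d - e)
  have hB0 : ∀ i d, 0 ≤ B i d := fun i d => Finset.sum_nonneg fun e _ =>
    mul_nonneg (abs_nonneg _) (hc0 _)
  have hroom : ∀ d, 2 * (rm E d : ℤ) + 4 * ∑ i, B i d ≤ κ.p.coeff d := by
    intro d
    have h1 : ∑ i, B i d = ∑ e ∈ Finset.range (d + 1), (∑ i, |(z i).coeff e|) * c (d - e) := by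
      show ∑ i, ∑ e ∈ Finset.range (d + 1), |(z i).coeff e| * c (d - e) = _
      rw [Finset.sum_comm]
      exact Finset.sum_congr rfl fun e _ => by rw [Finset.sum_mul]
    rw [h1]
    exact room d
  have hrm : ∀ d, ((rm E d : ℕ) : ℤ) = ∑ i, (rmx E i d : ℤ) := fun d => by
    rw [rm_eq, Nat.cast_sum]
  let az : I → ℤ[X] := fun i => tpqP (z i) + tpqP (-z i)
  have haz : ∀ i d, (az i).coeff d = |(z i).coeff d| := by
    intro i d
    show (tpqP (z i) + tpqP (-z i)).coeff d = _
    rw [Polynomial.coeff_add, tpqP_coeff, tpqP_coeff, Polynomial.coeff_neg]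
    rcases le_total ((z i).coeff d) 0 with h | h
    · rw [max_eq_right h, max_eq_left (by linarith), abs_of_nonpos h, zero_add]
    · rw [max_eq_left h, max_eq_right (by linarith), abs_of_nonneg h, add_zero]
  let W : I → ℤ[X] := fun i => polyOf N2 (fun d => (rmx E i d : ℤ)) + 2 * (az i * s)
  have hW : ∀ i d, (W i).coeff d = (rmx E i d : ℤ) + 2 * B i d := by
    intro i d
    show (polyOf N2 (fun d => (rmx E i d : ℤ)) + 2 * (az i * s)).coeff d = _
    rw [Polynomial.coeff_add, polyOf_coeff N2 _ (fun e he => by rw [hN2 i e he, Nat.cast_zero])]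
    congr 1
    have h2 : (2 : ℤ[X]) = C 2 := rfl
    rw [h2, Polynomial.coeff_C_mul, Polynomial.coeff_mul,
      Finset.Nat.sum_antidiagonal_eq_sum_range_succ_mk]
    congr 1
    exact Finset.sum_congr rfl fun e _ => by rw [haz, hs]
  let w : Option I → ℤ[X] := fun a => a.elim (κ.p - ∑ i, W i) W
  let w' : Option I → ℤ[X] := fun a => w a - s * zz a
  have hsw : ∑ a, w a = κ.p := by
    rw [Fintype.sum_option]
    show κ.p - ∑ i, W i + ∑ i, W i = κ.p
    ring
  have hwn : ∀ d, (w none).coeff d = κ.p.coeff d - rm E d - 2 * ∑ i, B i d := by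
    intro d
    show (κ.p - ∑ i, W i).coeff d = _
    rw [Polynomial.coeff_sub, Polynomial.finsetSum_coeff, Finset.sum_congr rfl fun i _ => hW i d,
      Finset.sum_add_distrib, hrm, ← Finset.mul_sum]
    ring
  -- the entries of `D`
  have hlow : ∀ a, (zz a).coeff 0 = 0 ∧ (zz a).coeff 1 = 0 := by
    intro a
    rcases a with _ | i
    · show (- ∑ i, z i).coeff 0 = 0 ∧ (- ∑ i, z i).coeff 1 = 0
      rw [Polynomial.coeff_neg, Polynomial.coeff_neg, Polynomial.finsetSum_coeff,
        Polynomial.finsetSum_coeff, Finset.sum_eq_zero fun i _ => (hz i).1,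
        Finset.sum_eq_zero fun i _ => (hz i).2]
      simp
    · exact hz i
  -- the bound of the products
  let Bz : Option I → ℕ → ℤ := fun a d => a.elim (∑ i, B i d) fun i => B i d
  have hprod : ∀ (a : Option I) (q : ℤ[X]), (∀ e, 0 ≤ q.coeff e ∧ q.coeff e ≤ |(zz a).coeff e|) →
      ∀ b d, 0 ≤ (q * x b).coeff d ∧ (q * x b).coeff d ≤ 2 * Bz a d := by
    intro a q hq b d
    have hA : ∀ e, |(zz a).coeff e| ≤ a.elim (∑ i, |(z i).coeff e|) fun i => |(z i).coeff e| := by
      intro e
      rcases a with _ | i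
      · show |(- ∑ i, z i).coeff e| ≤ ∑ i, |(z i).coeff e|
        rw [Polynomial.coeff_neg, abs_neg, Polynomial.finsetSum_coeff]
        exact Finset.abs_sum_le_sum_abs _ _
      · exact le_rfl
    have h1 := tpq_mul_le q (x b) (fun e => a.elim (∑ i, |(z i).coeff e|) fun i => |(z i).coeff e|)
      (fun f => 2 * c f) (fun e => ⟨(hq e).1, (hq e).2.trans (hA e)⟩) (hxs b) d
    refine ⟨h1.1, h1.2.trans (le_of_eq ?_)⟩
    rcases a with _ | i
    · show ∑ e ∈ Finset.range (d + 1), (∑ i, |(z i).coeff e|) * (2 * c (d - e)) = 2 * ∑ i, B i d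
      show _ = 2 * ∑ i, ∑ e ∈ Finset.range (d + 1), |(z i).coeff e| * c (d - e)
      rw [Finset.sum_comm, Finset.mul_sum]
      refine Finset.sum_congr rfl fun e _ => ?_
      rw [← Finset.sum_mul]
      ring
    · show ∑ e ∈ Finset.range (d + 1), |(z i).coeff e| * (2 * c (d - e)) =
        2 * ∑ e ∈ Finset.range (d + 1), |(z i).coeff e| * c (d - e)
      rw [Finset.mul_sum]
      exact Finset.sum_congr rfl fun e _ => by ring
  have hDlow : ∀ a b d, 2 * Bz a d ≤ (mat E w a b).coeff d := by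
    intro a b d
    have hr0 : (0 : ℤ) ≤ (rm E d : ℤ) := Int.natCast_nonneg _
    have hBs : 0 ≤ ∑ i, B i d := Finset.sum_nonneg fun i _ => hB0 i d
    rcases a with _ | i
    · rcases b with _ | j
      · show 2 * ∑ i, B i d ≤ (w none + 0).coeff d
        rw [add_zero, hwn]
        linarith [hroom d]
      · show 2 * ∑ i, B i d ≤ (w none + - ∑ i, E i j).coeff d
        rw [Polynomial.coeff_add, hwn, Polynomial.coeff_neg, Polynomial.finsetSum_coeff]
        have := (abs_le.1 (abs_sum_le_rm E j d)).2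
        linarith [hroom d]
    · have hri : (0 : ℤ) ≤ (rmx E i d : ℤ) := Int.natCast_nonneg _
      rcases b with _ | j
      · show 2 * B i d ≤ (W i + 0).coeff d
        rw [add_zero, hW]
        linarith
      · show 2 * B i d ≤ (W i + E i j).coeff d
        rw [Polynomial.coeff_add, hW]
        have := (abs_le.1 (abs_le_rmx E i j d)).1
        linarith
  have hp0 : κ.p.coeff 0 = 0 := hκ.p.1
  -- everything vanishes in degree 0
  have h00 : (rm E 0 : ℤ) = 0 ∧ ∑ i, B i 0 = 0 := by
    have h1 := hroom 0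
    rw [hp0] at h1
    have h2 : (0 : ℤ) ≤ (rm E 0 : ℤ) := Int.natCast_nonneg _
    have h3 : 0 ≤ ∑ i, B i 0 := Finset.sum_nonneg fun i _ => hB0 i 0
    exact ⟨by linarith, by linarith⟩
  have hr00 : ∀ i, (rmx E i 0 : ℤ) = 0 := by
    intro i
    have h1 := h00.1
    rw [hrm] at h1
    exact (Finset.sum_eq_zero_iff_of_nonneg fun i _ => Int.natCast_nonneg _).1 h1 i
      (Finset.mem_univ i)
  have hB00 : ∀ i, B i 0 = 0 := fun i =>
    (Finset.sum_eq_zero_iff_of_nonneg fun i _ => hB0 i 0).1 h00.2 i (Finset.mem_univ i)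
  have hE00 : ∀ i j, (E i j).coeff 0 = 0 := by
    intro i j
    have := abs_le_rmx E i j 0
    rw [hr00] at this
    exact abs_eq_zero.1 (le_antisymm this (abs_nonneg _))
  have hD00 : ∀ a b, (mat E w a b).coeff 0 = 0 := by
    intro a b
    have hn0 : (w none).coeff 0 = 0 := by
      rw [hwn, hp0, h00.1, h00.2]
      ring
    have hi0 : ∀ i, (W i).coeff 0 = 0 := fun i => by
      rw [hW, hr00, hB00]
      ring
    rcases a with _ | i
    · rcases b with _ | j
      · show (w none + 0).coeff 0 = 0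
        rw [add_zero, hn0]
      · show (w none + - ∑ i, E i j).coeff 0 = 0
        rw [Polynomial.coeff_add, hn0, Polynomial.coeff_neg, Polynomial.finsetSum_coeff,
          Finset.sum_eq_zero fun i _ => hE00 i j]
        simp
    · rcases b with _ | j
      · show (W i + 0).coeff 0 = 0
        rw [add_zero, hi0]
      · show (W i + E i j).coeff 0 = 0
        rw [Polynomial.coeff_add, hi0, hE00, add_zero]
  let wp : Option I → ℤ[X] := fun a => tpqP (zz a)
  let wm : Option I → ℤ[X] := fun a => tpqP (-zz a)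
  let D1 : Matrix (Option I) (Option I) ℤ[X] := Matrix.of fun a b => mat E w a b - wp a * x b
  have hwpm : ∀ a, wp a - wm a = zz a := fun a => tpqP_sub (zz a)
  have hlow' : ∀ a, (-zz a).coeff 0 = 0 ∧ (-zz a).coeff 1 = 0 := by
    intro a
    rw [Polynomial.coeff_neg, Polynomial.coeff_neg, (hlow a).1, (hlow a).2, neg_zero]
    exact ⟨rfl, rfl⟩
  have hwp : ∀ a, Pol (wp a) ∧ (wp a).coeff 1 = 0 := fun a => tpqP_low (hlow a).1 (hlow a).2
  have hwm : ∀ a, Pol (wm a) ∧ (wm a).coeff 1 = 0 := fun a => tpqP_low (hlow' a).1 (hlow' a).2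
  have hm0 : ∀ (q : ℤ[X]) b, q.coeff 0 = 0 → (q * x b).coeff 0 = 0 := fun q b hq => by
    rw [Polynomial.mul_coeff_zero, hq, zero_mul]
  have hposD : Pos (mat E w) := by
    intro a b
    refine ⟨hD00 a b, fun d => ?_⟩
    have h1 := hDlow a b d
    have h2 : 0 ≤ Bz a d := by
      rcases a with _ | i
      · exact Finset.sum_nonneg fun i _ => hB0 i d
      · exact hB0 i d
    linarith
  have hposD1 : Pos D1 := by
    intro a b
    refine ⟨?_, fun d => ?_⟩
    · show (mat E w a b - wp a * x b).coeff 0 = 0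
      rw [Polynomial.coeff_sub, hD00, hm0 _ _ (hwp a).1.1, sub_zero]
    · show 0 ≤ (mat E w a b - wp a * x b).coeff d
      rw [Polynomial.coeff_sub]
      have h1 := hDlow a b d
      have h2 := (hprod a (wp a) (fun e => tpqP_bd (zz a) e) b d).2
      linarith
  have hD' : ∀ a b, mat E' w' a b = D1 a b + wm a * x b := by
    intro a b
    have key : mat E' w' a b = mat E w a b - zz a * x b := by
      rcases a with _ | i
      · rcases b with _ | j
        · show w none - s * zz none + 0 = w none + 0 - zz none * s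
          ring
        · show w none - s * zz none + - ∑ i, E' i j = w none + - ∑ i, E i j - zz none * (χ j + s)
          have h1 : ∑ i, E' i j = ∑ i, E i j - (∑ i, z i) * χ j := by
            rw [Finset.sum_mul, ← Finset.sum_sub_distrib]
            exact Finset.sum_congr rfl fun i _ => by linear_combination -(h i j)
          have h2 : zz none = - ∑ i, z i := rfl
          rw [h1, h2]
          ring
      · rcases b with _ | j
        · show w (some i) - s * z i + 0 = w (some i) + 0 - z i * s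
          ring
        · show w (some i) - s * z i + E' i j = w (some i) + E i j - z i * (χ j + s)
          linear_combination -(h i j)
    rw [key]
    show _ = mat E w a b - wp a * x b + wm a * x b
    linear_combination (x b) * (hwpm a)
  have hposD' : Pos (mat E' w') := by
    intro a b
    rw [hD' a b]
    refine ⟨?_, fun d => ?_⟩
    · rw [Polynomial.coeff_add, (hposD1 a b).1, hm0 _ _ (hwm a).1.1, add_zero]
    · rw [Polynomial.coeff_add]
      have h1 := (hposD1 a b).2 d
      have h2 := (hprod a (wm a) (fun e => tpqP_bd' (zz a) e) b d).1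
      linarith
  have hL : Leg κ E w := ⟨hsw, hposD⟩
  have hL' : Leg κ E' w' := by
    refine ⟨?_, hposD'⟩
    show ∑ a, (w a - s * zz a) = κ.p
    rw [Finset.sum_sub_distrib, hsw, ← Finset.mul_sum, hszz, mul_zero, sub_zero]
  have hDu : ∀ a, zz a = uu a - ∑ l, mat E w a l * uu l := by
    intro a
    rw [Fintype.sum_option]
    rcases a with _ | i
    · show - ∑ i, z i = - ∑ i, u i - ((w none + 0) * (- ∑ i, u i) +
        ∑ j, (w none + - ∑ i, E i j) * u j)
      have h2 : ∀ j, (w none + - ∑ i, E i j) * u j = w none * u j - ∑ i, E i j * u j := fun j => by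
        rw [add_mul, neg_mul, Finset.sum_mul]
        ring
      rw [Finset.sum_congr rfl fun j _ => h2 j, Finset.sum_sub_distrib, ← Finset.mul_sum,
        Finset.sum_comm (f := fun j i => E i j * u j), Finset.sum_congr rfl fun i _ => hu i,
        Finset.sum_sub_distrib]
      ring
    · show z i = u i - ((W i + 0) * (- ∑ i, u i) + ∑ j, (W i + E i j) * u j)
      have h2 : ∀ j, (W i + E i j) * u j = W i * u j + E i j * u j := fun j => by ring
      rw [Finset.sum_congr rfl fun j _ => h2 j, Finset.sum_add_distrib, ← Finset.mul_sum, hu i]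
      ring
  have hD1u : ∀ a, wp a - wm a = uu a - ∑ l, D1 a l * uu l := by
    intro a
    rw [hwpm]
    have h1 : ∑ l, D1 a l * uu l = ∑ l, mat E w a l * uu l - wp a * ∑ l, x l * uu l := by
      rw [Finset.mul_sum, ← Finset.sum_sub_distrib]
      refine Finset.sum_congr rfl fun l _ => ?_
      show (mat E w a l - wp a * x l) * uu l = _
      ring
    rw [h1, hxu, mul_zero, sub_zero]
    exact hDu a
  refine relE_of_rel hκ hE hE' hL hL' ?_
  refine rel_poly_row hκ (uni_mat hE hL) (uni_mat hE' hL') hposD1 x wp wm uu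
    (fun j d => (hxs j d).1) hwp hwm hsuu hxu hD1u ?_ hD'
  intro a b
  show mat E w a b = mat E w a b - wp a * x b + wp a * x b
  ring

/-- (TL) left multiplication by the letter `1 + v φ`, `φ` a constant row, `v` of order `≥ 2` -/
theorem relE_left {κ : Num} (hκ : κ.Ok) {E E' : Matrix I I ℤ[X]} (hE : IsUnit (1 - E).det)
    (v : I → ℤ[X]) (φ : I → ℤ) (hφ : ∑ j, C (φ j) * v j = 0)
    (hv : ∀ i, (v i).coeff 0 = 0 ∧ (v i).coeff 1 = 0)
    (h : 1 - E' = (1 + Matrix.vecMulVec v (fun j => C (φ j))) * (1 - E))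
    (room : ∀ d, 2 * (rm E d : ℤ) + 4 * ∑ e ∈ Finset.range (d + 1),
      (∑ i, |(v i).coeff e|) *
        (Finset.univ.sup fun j => ((C (φ j) - ∑ i, C (φ i) * E i j).coeff (d - e)).natAbs : ℕ) ≤
        κ.p.coeff d) : RelE κ E E' := by
  classical
  let χ : I → ℤ[X] := fun j => C (φ j) - ∑ i, C (φ i) * E i j
  let u : I → ℤ[X] := (1 - E)⁻¹.mulVec v
  have hu1 : (1 - E).mulVec u = v := by
    show (1 - E).mulVec ((1 - E)⁻¹.mulVec v) = v
    rw [Matrix.mulVec_mulVec, Matrix.mul_nonsing_inv _ hE, Matrix.one_mulVec]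
  have hu : ∀ i, v i = u i - ∑ j, E i j * u j := by
    intro i
    have := congrFun hu1 i
    rw [Matrix.sub_mulVec, Matrix.one_mulVec] at this
    exact this.symm
  have hχ : ∑ j, χ j * u j = 0 := by
    have h1 : ∑ j, χ j * u j = ∑ i, C (φ i) * (u i - ∑ j, E i j * u j) := by
      have h2 : ∀ j, χ j * u j = C (φ j) * u j - ∑ i, C (φ i) * (E i j * u j) := fun j => by
        show (C (φ j) - ∑ i, C (φ i) * E i j) * u j = _
        rw [sub_mul, Finset.sum_mul]
        exact congrArg _ (Finset.sum_congr rfl fun i _ => by ring)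
      have h3 : ∀ i, C (φ i) * (u i - ∑ j, E i j * u j) =
          C (φ i) * u i - ∑ j, C (φ i) * (E i j * u j) := fun i => by
        rw [mul_sub, Finset.mul_sum]
      rw [Finset.sum_congr rfl fun j _ => h2 j, Finset.sum_congr rfl fun i _ => h3 i,
        Finset.sum_sub_distrib, Finset.sum_sub_distrib, Finset.sum_comm]
    rw [h1, Finset.sum_congr rfl fun i _ => by rw [← hu i], hφ]
  have hdet : (1 + Matrix.vecMulVec v (fun j => C (φ j))).det = 1 := by
    have h1 := Matrix.det_one_add_replicateCol_mul_replicateRow (ι := Unit) v (fun j => C (φ j))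
    have h2 : Matrix.replicateCol Unit v * Matrix.replicateRow Unit (fun j => C (φ j)) =
        Matrix.vecMulVec v (fun j => C (φ j)) := by
      ext1 i j
      simp [Matrix.mul_apply, Matrix.vecMulVec_apply]
    rw [h2] at h1
    rw [h1]
    have h3 : (fun j => C (φ j)) ⬝ᵥ v = 0 := hφ
    rw [h3, add_zero]
  have hE' : IsUnit (1 - E').det := by
    rw [h, Matrix.det_mul, hdet, one_mul]
    exact hE
  have hd : ∀ i j, E i j - E' i j = v i * χ j := by
    intro i j
    have h1 : (1 - E') i j = ((1 + Matrix.vecMulVec v (fun j => C (φ j))) * (1 - E)) i j := by rw [h]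
    rw [add_mul, one_mul, Matrix.add_apply, Matrix.sub_apply, Matrix.sub_apply] at h1
    have h2 : (Matrix.vecMulVec v (fun j => C (φ j)) * (1 - E)) i j = v i * χ j := by
      rw [Matrix.mul_apply]
      have h4 : ∀ k, Matrix.vecMulVec v (fun j => C (φ j)) i k * (1 - E) k j =
          v i * (C (φ k) * (1 : Matrix I I ℤ[X]) k j) - v i * (C (φ k) * E k j) := fun k => by
        rw [Matrix.vecMulVec_apply, Matrix.sub_apply]
        ring
      rw [Finset.sum_congr rfl fun k _ => h4 k, Finset.sum_sub_distrib, ← Finset.mul_sum,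
        ← Finset.mul_sum]
      have h5 : ∑ k, C (φ k) * (1 : Matrix I I ℤ[X]) k j = C (φ j) := by
        simp [Matrix.one_apply]
      rw [h5]
      show _ = v i * (C (φ j) - ∑ i, C (φ i) * E i j)
      ring
    rw [h2] at h1
    linear_combination h1
  exact relE_tp hκ hE hE' v χ u hv hu hχ hd room

end Pool.Agent.WFG
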