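import Pool.Agent.WFG.Face

/-!
# The move with a constant row, at the level of K-parts

PROOF of `relE_tv`. `E - E' = z φ` with `z = (1 - E) v = (1 - E') v` (because `φ v = 0`), and `1 - E'` has
unit determinant (`det (1 + v φ) = 1 + φ v`). Let `s : ℕ` be the least number with `φ j + s ≥ 0` for all `j`
(`s = 0` or `s = - φ j0`), `x none = s`, `x (some j) = φ j + s`; `u (some i) = v i`, `u none = - ∑ v`;
`zz (some i) = z i`, `zz none = - ∑ z`. Let `m i d = max_j |coeff_d E i j| + max_j |coeff_d E' i j|`. Then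
`|s * coeff_d (z i)| ≤ m i d` (for `s = - φ j0` it is `|coeff_d (E i j0 - E' i j0)|`). Base column:
`w (some i) = ∑_d (2 m i d) X ^ d`, `w none = κ.p - ∑ w (some i)` (so `w none` has coefficients
`≥ ∑_i 2 m i d` by `room`; as polynomials: all degrees are bounded), `w' = w - s zz`. `Leg κ E w` and
`Leg κ E' w'` are checked coefficientwise, `mat E w - mat E' w' = zz xᵀ`, and `(1 - mat E' w') u = zz`.
`rel_gu` and `relE_of_rel`.
-/

set_option autoImplicit false
set_option linter.unusedSectionVars false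

noncomputable section

namespace Pool.Agent.WFG

open Polynomial Matrix Pool.Agent.WFS

variable {I J L : Type} [Fintype I] [DecidableEq I] [Fintype J] [DecidableEq J] [Fintype L]
  [DecidableEq L]

theorem mat_mulVec (E : Matrix I I ℤ[X]) (w : Option I → ℤ[X]) (u : Option I → ℤ[X])
    (hu : ∑ a, u a = 0) (a : Option I) : ∑ l, mat E w a l * u l =
      a.elim (- ∑ i, ∑ j, E i j * u (some j)) fun i => ∑ j, E i j * u (some j) := by
  rw [Fintype.sum_option] at hu ⊢
  rcases a with _ | i
  · show (w none + 0) * u none + ∑ j, (w none + - ∑ i, E i j) * u (some j) =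
      - ∑ i, ∑ j, E i j * u (some j)
    have h2 : ∀ j, (w none + - ∑ i, E i j) * u (some j) =
        w none * u (some j) - ∑ i, E i j * u (some j) := fun j => by
      rw [add_mul, neg_mul, Finset.sum_mul]
      ring
    rw [Finset.sum_congr rfl fun j _ => h2 j, Finset.sum_sub_distrib, ← Finset.mul_sum,
      Finset.sum_comm (f := fun j i => E i j * u (some j))]
    linear_combination (w none) * hu
  · show (w (some i) + 0) * u none + ∑ j, (w (some i) + E i j) * u (some j) =
      ∑ j, E i j * u (some j)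
    have h2 : ∀ j, (w (some i) + E i j) * u (some j) =
        w (some i) * u (some j) + E i j * u (some j) := fun j => by ring
    rw [Finset.sum_congr rfl fun j _ => h2 j, Finset.sum_add_distrib, ← Finset.mul_sum]
    linear_combination (w (some i)) * hu

/-- (TV) right multiplication by the letter `1 + v φ`, `φ` a constant row -/
theorem relE_tv {κ : Num} (hκ : κ.Ok) {E E' : Matrix I I ℤ[X]} (hE : IsUnit (1 - E).det)
    (v : I → ℤ[X]) (φ : I → ℤ) (hφ : ∑ j, C (φ j) * v j = 0)
    (h : 1 - E' = (1 - E) * (1 + Matrix.vecMulVec v (fun j => C (φ j))))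
    (room : ∀ d, 4 * ((rm E d : ℤ) + rm E' d) ≤ κ.p.coeff d) : RelE κ E E' := by
  -- the vector `z`
  obtain ⟨z, hzd⟩ : ∃ z : I → ℤ[X], ∀ i, z i = v i - ∑ k, E i k * v k := ⟨_, fun _ => rfl⟩
  have hEE : ∀ i j, E' i j = E i j - z i * C (φ j) := by
    intro i j
    have h1 := congrFun (congrFun h i) j
    rw [Matrix.mul_add, Matrix.mul_one, Matrix.add_apply, Matrix.mul_apply] at h1
    have h2 : ∑ k, (1 - E) i k * Matrix.vecMulVec v (fun j => C (φ j)) k j = z i * C (φ j) := by
      have h3 : ∀ k, (1 - E) i k * Matrix.vecMulVec v (fun j => C (φ j)) k j =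
          ((1 : Matrix I I ℤ[X]) i k * v k - E i k * v k) * C (φ j) := fun k => by
        rw [Matrix.sub_apply, Matrix.vecMulVec_apply]
        ring
      rw [Finset.sum_congr rfl fun k _ => h3 k, ← Finset.sum_mul, Finset.sum_sub_distrib, hzd]
      congr 2
      simp [Matrix.one_apply]
    rw [h2, Matrix.sub_apply, Matrix.sub_apply] at h1
    linear_combination -h1
  have hz' : ∀ i, v i - ∑ k, E' i k * v k = z i := by
    intro i
    have h3 : ∀ k, E' i k * v k = E i k * v k - z i * (C (φ k) * v k) := fun k => by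
      rw [hEE]
      ring
    rw [Finset.sum_congr rfl fun k _ => h3 k, Finset.sum_sub_distrib, ← Finset.mul_sum, hφ]
    linear_combination -(hzd i)
  -- the shift `s`
  let s : ℕ := Finset.univ.sup fun j => (- φ j).toNat
  have hs : ∀ j, 0 ≤ φ j + s := by
    intro j
    have h1 : (- φ j).toNat ≤ s :=
      Finset.le_sup (f := fun j => (- φ j).toNat) (Finset.mem_univ j)
    have h2 := Int.self_le_toNat (- φ j)
    have h3 : ((- φ j).toNat : ℤ) ≤ (s : ℤ) := by exact_mod_cast h1
    linarith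
  let m : I → ℕ → ℤ := fun i d => (rmx E i d : ℤ) + (rmx E' i d : ℤ)
  have hm0 : ∀ i d, 0 ≤ m i d := fun i d => by
    show (0 : ℤ) ≤ (rmx E i d : ℤ) + (rmx E' i d : ℤ)
    positivity
  have hsz : ∀ i d, |(s : ℤ) * (z i).coeff d| ≤ m i d := by
    intro i d
    rcases isEmpty_or_nonempty I with hI | hI
    · exact (hI.false i).elim
    obtain ⟨j0, -, hj0⟩ := Finset.exists_mem_eq_sup Finset.univ Finset.univ_nonempty
      (fun j => (- φ j).toNat)
    have hj0' : s = (- φ j0).toNat := hj0
    rcases le_or_gt (- φ j0) 0 with h1 | h1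
    · have : s = 0 := by rw [hj0', Int.toNat_of_nonpos h1]
      rw [this]
      simpa using hm0 i d
    · have h2 : (s : ℤ) = - φ j0 := by rw [hj0', Int.toNat_of_nonneg h1.le]
      have h3 : (s : ℤ) * (z i).coeff d = (E' i j0).coeff d - (E i j0).coeff d := by
        rw [hEE, Polynomial.coeff_sub, Polynomial.coeff_mul_C, h2]
        ring
      rw [h3]
      have h4 := abs_le_rmx E i j0 d
      have h5 := abs_le_rmx E' i j0 d
      have h6 := abs_sub ((E' i j0).coeff d) ((E i j0).coeff d)
      show _ ≤ (rmx E i d : ℤ) + (rmx E' i d : ℤ)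
      linarith
  have hM : ∀ d, ∑ i, m i d = (rm E d : ℤ) + rm E' d := by
    intro d
    rw [rm_eq, rm_eq, Nat.cast_sum, Nat.cast_sum, ← Finset.sum_add_distrib]
  have hroom : ∀ d, 4 * ∑ i, m i d ≤ κ.p.coeff d := fun d => by rw [hM]; exact room d
  have hSz : ∀ d, |(s : ℤ) * ∑ i, (z i).coeff d| ≤ ∑ i, m i d := by
    intro d
    rw [Finset.mul_sum]
    exact (Finset.abs_sum_le_sum_abs _ _).trans (Finset.sum_le_sum fun i _ => hsz i d)
  have hSE : ∀ j d, |∑ i, (E i j).coeff d| ≤ ∑ i, m i d := by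
    intro j d
    rw [hM]
    have := abs_sum_le_rm E j d
    have h1 : (0 : ℤ) ≤ (rm E' d : ℤ) := by positivity
    linarith
  have hSE' : ∀ j d, |∑ i, (E' i j).coeff d| ≤ ∑ i, m i d := by
    intro j d
    rw [hM]
    have := abs_sum_le_rm E' j d
    have h1 : (0 : ℤ) ≤ (rm E d : ℤ) := by positivity
    linarith
  have hmE : ∀ i j d, |(E i j).coeff d| ≤ m i d := fun i j d => by
    have := abs_le_rmx E i j d
    have h1 : (0 : ℤ) ≤ (rmx E' i d : ℤ) := by positivity
    show _ ≤ (rmx E i d : ℤ) + (rmx E' i d : ℤ)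
    linarith
  have hmE' : ∀ i j d, |(E' i j).coeff d| ≤ m i d := fun i j d => by
    have := abs_le_rmx E' i j d
    have h1 : (0 : ℤ) ≤ (rmx E i d : ℤ) := by positivity
    show _ ≤ (rmx E i d : ℤ) + (rmx E' i d : ℤ)
    linarith
  obtain ⟨N1, hN1⟩ := exists_rm_bd E
  obtain ⟨N2, hN2⟩ := exists_rm_bd E'
  let N := N1 + N2
  have hf : ∀ i d, N ≤ d → 2 * m i d = 0 := by
    intro i d hd
    show 2 * ((rmx E i d : ℤ) + (rmx E' i d : ℤ)) = 0
    rw [hN1 i d (by omega), hN2 i d (by omega)]
    simp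
  have hw := leg_of_coeff hκ (E := E) N (fun i d => 2 * m i d) hf
    (fun i d => by linarith [hm0 i d])
    (fun i j d => by linarith [(abs_le.1 (hmE i j d)).1, hm0 i d])
    (fun d => by
      rw [← Finset.mul_sum]
      have h1 : 0 ≤ ∑ i, m i d := Finset.sum_nonneg fun i _ => hm0 i d
      linarith [hroom d])
    (fun j d => by
      rw [← Finset.mul_sum]
      have h1 : 0 ≤ ∑ i, m i d := Finset.sum_nonneg fun i _ => hm0 i d
      linarith [hroom d, (abs_le.1 (hSE j d)).2])
  let w : Option I → ℤ[X] := fun a => a.elim (κ.p - ∑ i, polyOf N (fun d => 2 * m i d))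
    fun i => polyOf N (fun d => 2 * m i d)
  let zz : Option I → ℤ[X] := fun a => a.elim (- ∑ i, z i) z
  let w' : Option I → ℤ[X] := fun a => w a - (s : ℤ[X]) * zz a
  have hzz : ∑ a, zz a = 0 := by
    rw [Fintype.sum_option]
    show - ∑ i, z i + ∑ i, z i = 0
    ring
  have hc : ∀ i d, (polyOf N (fun d => 2 * m i d)).coeff d = 2 * m i d :=
    fun i d => polyOf_coeff N _ (hf i) d
  have hscoef : ∀ (q : ℤ[X]) d, ((s : ℤ[X]) * q).coeff d = (s : ℤ) * q.coeff d := by
    intro q d
    rw [← Polynomial.C_eq_natCast, Polynomial.coeff_C_mul]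
  have hw's : ∀ i d, (w' (some i)).coeff d = 2 * m i d - (s : ℤ) * (z i).coeff d := by
    intro i d
    show (polyOf N (fun d => 2 * m i d) - (s : ℤ[X]) * z i).coeff d = _
    rw [Polynomial.coeff_sub, hc, hscoef]
  have hw'n : ∀ d, (w' none).coeff d = κ.p.coeff d - 2 * ∑ i, m i d + (s : ℤ) * ∑ i, (z i).coeff d := by
    intro d
    show (κ.p - ∑ i, polyOf N (fun d => 2 * m i d) - (s : ℤ[X]) * (- ∑ i, z i)).coeff d = _
    rw [Polynomial.coeff_sub, Polynomial.coeff_sub, hscoef, Polynomial.coeff_neg,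
      Polynomial.finsetSum_coeff, Polynomial.finsetSum_coeff]
    simp only [hc]
    rw [← Finset.mul_sum]
    ring
  have hp0 : κ.p.coeff 0 = 0 := hκ.p.1
  have hS0 : ∑ i, m i 0 = 0 := by
    have h1 := hroom 0
    have h2 : 0 ≤ ∑ i, m i 0 := Finset.sum_nonneg fun i _ => hm0 i 0
    rw [hp0] at h1
    linarith
  have hm00 : ∀ i, m i 0 = 0 := fun i =>
    (Finset.sum_eq_zero_iff_of_nonneg fun i _ => hm0 i 0).1 hS0 i (Finset.mem_univ i)
  have hz0 : ∀ i, (s : ℤ) * (z i).coeff 0 = 0 := fun i => by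
    have := hsz i 0
    rw [hm00] at this
    exact abs_nonpos_iff.1 this
  have hE'0 : ∀ i j, (E' i j).coeff 0 = 0 := fun i j => by
    have := hmE' i j 0
    rw [hm00] at this
    exact abs_nonpos_iff.1 this
  have hw'1 : Leg κ E' w' := by
    refine ⟨?_, mat_pos ?_ ?_ ?_⟩
    · show ∑ a, (w a - (s : ℤ[X]) * zz a) = κ.p
      rw [Finset.sum_sub_distrib, ← Finset.mul_sum, hzz, hw.sum]
      ring
    · intro a
      rcases a with _ | i
      · refine ⟨?_, fun d => ?_⟩
        · rw [hw'n, hp0, hS0, Finset.mul_sum, Finset.sum_eq_zero fun i _ => hz0 i]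
          simp
        · rw [hw'n]
          have h1 : 0 ≤ ∑ i, m i d := Finset.sum_nonneg fun i _ => hm0 i d
          linarith [hroom d, (abs_le.1 (hSz d)).1]
      · refine ⟨?_, fun d => ?_⟩
        · rw [hw's, hm00, hz0]
          simp
        · rw [hw's]
          linarith [hm0 i d, (abs_le.1 (hsz i d)).2]
    · intro i j
      refine ⟨?_, fun d => ?_⟩
      · rw [Polynomial.coeff_add, hw's, hm00, hz0, hE'0]
        simp
      · rw [Polynomial.coeff_add, hw's]
        linarith [hm0 i d, (abs_le.1 (hsz i d)).2, (abs_le.1 (hmE' i j d)).1]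
    · intro j
      refine ⟨?_, fun d => ?_⟩
      · rw [Polynomial.coeff_add, hw'n, Polynomial.coeff_neg, Polynomial.finsetSum_coeff, hp0, hS0,
          Finset.mul_sum, Finset.sum_eq_zero fun i _ => hz0 i,
          Finset.sum_eq_zero fun i _ => hE'0 i j]
        simp
      · rw [Polynomial.coeff_add, hw'n, Polynomial.coeff_neg, Polynomial.finsetSum_coeff]
        linarith [hroom d, (abs_le.1 (hSz d)).1, (abs_le.1 (hSE' j d)).2]
  -- the move
  let u : Option I → ℤ[X] := fun a => a.elim (- ∑ i, v i) v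
  let x : Option I → ℕ := fun a => a.elim s fun j => (φ j + s).toNat
  have hx : ∀ j, ((x (some j) : ℕ) : ℤ[X]) = C (φ j) + (s : ℤ[X]) := by
    intro j
    show (((φ j + s).toNat : ℕ) : ℤ[X]) = _
    have h1 : ((((φ j + s).toNat : ℕ) : ℤ) : ℤ[X]) = ((φ j + s : ℤ) : ℤ[X]) := by
      rw [Int.toNat_of_nonneg (hs j)]
    rw [Int.cast_natCast] at h1
    rw [h1, Int.cast_add, Int.cast_natCast, ← Polynomial.C_eq_intCast]
    rfl
  have hu0 : ∑ a, u a = 0 := by
    rw [Fintype.sum_option]
    show - ∑ i, v i + ∑ i, v i = 0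
    ring
  have hux : ∑ a, ((x a : ℕ) : ℤ[X]) * u a = 0 := by
    rw [Fintype.sum_option]
    have h1 : ∀ j, ((x (some j) : ℕ) : ℤ[X]) * u (some j) = C (φ j) * v j + (s : ℤ[X]) * v j :=
      fun j => by
        rw [hx]
        show (C (φ j) + (s : ℤ[X])) * v j = _
        ring
    rw [Finset.sum_congr rfl fun j _ => h1 j, Finset.sum_add_distrib, hφ, ← Finset.mul_sum]
    show (s : ℤ[X]) * (- ∑ i, v i) + (0 + (s : ℤ[X]) * ∑ i, v i) = 0
    ring
  have hmove : ∀ a b, mat E w a b - mat E' w' a b =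
      (u a - ∑ l, mat E' w' a l * u l) * ((x b : ℕ) : ℤ[X]) := by
    intro a b
    have h1 : u a - ∑ l, mat E' w' a l * u l = zz a := by
      rw [mat_mulVec E' w' u hu0 a]
      rcases a with _ | i
      · show - ∑ i, v i - - ∑ i, ∑ j, E' i j * v j = - ∑ i, z i
        rw [← Finset.sum_congr rfl fun i _ => hz' i, Finset.sum_sub_distrib]
        ring
      · exact hz' i
    rw [h1]
    rcases b with _ | j
    · have h2 : ∀ (F : Matrix I I ℤ[X]) (y : Option I → ℤ[X]), mat F y a none = y a := by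
        intro F y
        rcases a with _ | i
        · exact add_zero _
        · exact add_zero _
      rw [h2, h2]
      show w a - (w a - (s : ℤ[X]) * zz a) = zz a * (s : ℤ[X])
      ring
    · rw [hx]
      rcases a with _ | i
      · show w none + - ∑ i, E i j - (w none - (s : ℤ[X]) * (- ∑ i, z i) + - ∑ i, E' i j) =
          (- ∑ i, z i) * (C (φ j) + (s : ℤ[X]))
        rw [Finset.sum_congr rfl fun i _ => hEE i j, Finset.sum_sub_distrib, ← Finset.sum_mul]
        ring
      · show w (some i) + E i j - (w (some i) - (s : ℤ[X]) * z i + E' i j) =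
          z i * (C (φ j) + (s : ℤ[X]))
        rw [hEE]
        ring
  have hU := uni_mat hE hw
  have hU' := uni_gu hU hw'1.pos x u hu0 hux hmove
  have hE' : IsUnit (1 - E').det := by
    have := det_of_uni hU'
    rwa [kp_mat] at this
  exact relE_of_rel hκ hE hE' hw hw'1 (rel_gu hκ hU hU' x u hu0 hux hmove)

end Pool.Agent.WFG
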