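import Pool.Agent.WFG.FaceSt
import Pool.Agent.WFG.Bridge

/-!
# Extension of K-parts by zero to larger index sets

`relE_ext`: `F` on `L` is the extension by zero of `E` on `I` along an injection. `relE_bl`: `1 - g` and
`1 - bl k g`.
-/

set_option autoImplicit false
set_option linter.unusedSectionVars false

noncomputable section

namespace Pool.Agent.WFG

open Polynomial Matrix Pool.Agent.WFS Pool.WFS.Lad

variable {I J L ι κ : Type} [Fintype I] [DecidableEq I] [Fintype J] [DecidableEq J] [Fintype L]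
  [DecidableEq L] [Fintype ι] [DecidableEq ι] [Fintype κ] [DecidableEq κ]

/-- `F` is the extension of `E` by zero along `f` -/
structure IsExt (f : I → L) (E : Matrix I I ℤ[X]) (F : Matrix L L ℤ[X]) : Prop where
  inj : Function.Injective f
  eq : ∀ i j, F (f i) (f j) = E i j
  row : ∀ l l', (∀ i, f i ≠ l) → F l l' = 0
  col : ∀ l l', (∀ i, f i ≠ l') → F l l' = 0

theorem IsExt.det {f : I → L} {E : Matrix I I ℤ[X]} {F : Matrix L L ℤ[X]} (h : IsExt f E F) :
    ∃ e : I ⊕ {l : L // ∀ i, f i ≠ l} ≃ L,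
      F.submatrix e e = Matrix.fromBlocks E 0 0 (0 : Matrix {l : L // ∀ i, f i ≠ l} _ ℤ[X]) := by
  classical
  let e1 : I ≃ {l : L // ∃ i, f i = l} := Equiv.ofBijective (fun i => ⟨f i, i, rfl⟩)
    ⟨fun i j hij => h.inj (congrArg Subtype.val hij), fun l => by
      obtain ⟨l, i, hi⟩ := l
      exact ⟨i, Subtype.ext hi⟩⟩
  let e2 : {l : L // ∀ i, f i ≠ l} ≃ {l : L // ¬ ∃ i, f i = l} :=
    Equiv.subtypeEquivRight fun l => by push Not; rfl
  let e := (e1.sumCongr e2).trans (Equiv.sumCompl fun l : L => ∃ i, f i = l)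
  refine ⟨e, ?_⟩
  have ei : ∀ i, e (Sum.inl i) = f i := fun i => rfl
  have er : ∀ x, e (Sum.inr x) = x.1 := fun x => rfl
  ext1 a b
  rcases a with i | x
  · rcases b with j | y
    · show F (e (Sum.inl i)) (e (Sum.inl j)) = E i j
      rw [ei, ei, h.eq]
    · show F (e (Sum.inl i)) (e (Sum.inr y)) = 0
      rw [er]
      exact h.col _ _ y.2
  · show F (e (Sum.inr x)) (e b) = _
    rw [er, h.row _ _ x.2]
    rcases b with j | y
    · rfl
    · rfl

theorem rm_submatrix (E : Matrix I I ℤ[X]) (e : J ≃ I) (d : ℕ) : rm (E.submatrix e e) d = rm E d := by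
  unfold rm
  rw [← Equiv.sum_comp e (fun i => Finset.univ.sup fun j => ((E i j).coeff d).natAbs)]
  refine Finset.sum_congr rfl fun i _ => ?_
  apply le_antisymm
  · exact Finset.sup_le fun j _ =>
      Finset.le_sup (f := fun j => ((E (e i) j).coeff d).natAbs) (Finset.mem_univ (e j))
  · refine Finset.sup_le fun j _ => ?_
    have := Finset.le_sup (f := fun j => ((E (e i) (e j)).coeff d).natAbs)
      (Finset.mem_univ (e.symm j))
    rwa [Equiv.apply_symm_apply] at this

theorem rm_fromBlocks (E : Matrix I I ℤ[X]) (F : Matrix J J ℤ[X]) (d : ℕ) :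
    rm (Matrix.fromBlocks E 0 0 F) d = rm E d + rm F d := by
  unfold rm
  rw [Fintype.sum_sum_type]
  congr 1
  · refine Finset.sum_congr rfl fun i _ => le_antisymm (Finset.sup_le fun b _ => ?_)
      (Finset.sup_le fun j _ => ?_)
    · rcases b with j | j
      · exact Finset.le_sup (f := fun j => ((E i j).coeff d).natAbs) (Finset.mem_univ j)
      · show ((0 : ℤ[X]).coeff d).natAbs ≤ _
        simp
    · exact Finset.le_sup (f := fun b => ((Matrix.fromBlocks E 0 0 F (Sum.inl i) b).coeff d).natAbs)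
        (Finset.mem_univ (Sum.inl j))
  · refine Finset.sum_congr rfl fun i _ => le_antisymm (Finset.sup_le fun b _ => ?_)
      (Finset.sup_le fun j _ => ?_)
    · rcases b with j | j
      · show ((0 : ℤ[X]).coeff d).natAbs ≤ _
        simp
      · exact Finset.le_sup (f := fun j => ((F i j).coeff d).natAbs) (Finset.mem_univ j)
    · exact Finset.le_sup (f := fun b => ((Matrix.fromBlocks E 0 0 F (Sum.inr i) b).coeff d).natAbs)
        (Finset.mem_univ (Sum.inr j))

theorem rm_zero (d : ℕ) : rm (0 : Matrix I J ℤ[X]) d = 0 := by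
  unfold rm
  refine Finset.sum_eq_zero fun i _ => ?_
  rw [← Nat.bot_eq_zero, Finset.sup_eq_bot_iff]
  intro j _
  simp

theorem IsExt.rm_eq {f : I → L} {E : Matrix I I ℤ[X]} {F : Matrix L L ℤ[X]} (h : IsExt f E F)
    (d : ℕ) : rm F d = rm E d := by
  obtain ⟨e, he⟩ := h.det
  rw [← rm_submatrix F e d, he, rm_fromBlocks, rm_zero, add_zero]

theorem det_submatrix_one_sub (E : Matrix I I ℤ[X]) (e : J ≃ I) :
    (1 - E.submatrix e e).det = (1 - E).det := by
  have : (1 - E.submatrix e e) = (1 - E).submatrix e e := by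
    ext1 i j
    simp [Matrix.one_apply]
  rw [this, Matrix.det_submatrix_equiv_self]

theorem det_fromBlocks_one_sub (E : Matrix I I ℤ[X]) (F : Matrix J J ℤ[X]) :
    (1 - Matrix.fromBlocks E 0 0 F).det = (1 - E).det * (1 - F).det := by
  have : (1 - Matrix.fromBlocks E 0 0 F) = Matrix.fromBlocks (1 - E) 0 0 (1 - F) := by
    ext1 a b
    rcases a with i | i
    · rcases b with j | j
      · simp [Matrix.one_apply]
      · simp
    · rcases b with j | j
      · simp
      · simp [Matrix.one_apply]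
  rw [this, Matrix.det_fromBlocks_zero₂₁]

theorem pol_zero : Pol 0 := ⟨by simp, fun d => by simp⟩

theorem mat_none (E : Matrix I I ℤ[X]) (w : Option I → ℤ[X]) (a : Option I) :
    mat E w a none = w a := by
  rcases a with _ | i
  · exact add_zero _
  · exact add_zero _

theorem leg_stab {τ : Num} {E : Matrix I I ℤ[X]} {w : Option I → ℤ[X]} (hw : Leg τ E w) :
    Leg τ (Matrix.fromBlocks E 0 0 (0 : Matrix J J ℤ[X]))
      (fun a => a.elim (w none) fun x => Sum.elim (fun i => w (some i)) (fun _ => 0) x) := by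
  have hp : ∀ a, Pol (w a) := fun a => by
    have := hw.pos a none
    rwa [mat_none] at this
  refine ⟨?_, mat_pos ?_ ?_ ?_⟩
  · rw [← hw.sum, Fintype.sum_option, Fintype.sum_option, Fintype.sum_sum_type]
    simp
  · intro a
    rcases a with _ | i | j
    · exact hp none
    · exact hp (some i)
    · exact pol_zero
  · intro a b
    rcases a with i | i
    · rcases b with j | j
      · exact hw.pos (some i) (some j)
      · show Pol (w (some i) + 0)
        rw [add_zero]
        exact hp _
    · rcases b with j | j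
      · show Pol (0 + 0)
        rw [add_zero]
        exact pol_zero
      · show Pol (0 + 0)
        rw [add_zero]
        exact pol_zero
  · intro b
    rcases b with j | j
    · have h1 : ∑ i, Matrix.fromBlocks E 0 0 (0 : Matrix J J ℤ[X]) i (Sum.inl j) = ∑ i, E i j := by
        rw [Fintype.sum_sum_type]
        simp
      show Pol (w none + - ∑ i, Matrix.fromBlocks E 0 0 (0 : Matrix J J ℤ[X]) i (Sum.inl j))
      rw [h1]
      exact hw.pos none (some j)
    · have h1 : ∑ i, Matrix.fromBlocks E 0 0 (0 : Matrix J J ℤ[X]) i (Sum.inr j) = 0 := by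
        rw [Fintype.sum_sum_type]
        simp
      show Pol (w none + - ∑ i, Matrix.fromBlocks E 0 0 (0 : Matrix J J ℤ[X]) i (Sum.inr j))
      rw [h1, neg_zero, add_zero]
      exact hp none

theorem relE_ext {τ : Num} (hτ : τ.Ok) {f : I → L} {E : Matrix I I ℤ[X]} {F : Matrix L L ℤ[X]}
    (h : IsExt f E F) (hE : IsUnit (1 - E).det) : RelE τ E F := by
  intro w w' hw hw'
  obtain ⟨e, he⟩ := h.det
  have h1 := relE_stab (J := {l : L // ∀ i, f i ≠ l}) hτ hE
  have hF : IsUnit (1 - F).det := by
    rw [← det_submatrix_one_sub F e, he, det_fromBlocks_one_sub]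
    simpa using hE
  have h2 := relE_reindex hτ hF e
  rw [he] at h2
  exact (h1.trans hτ ⟨_, leg_stab hw⟩ h2.symm) w w' hw hw'

theorem IsExt.isUnit {f : I → L} {E : Matrix I I ℤ[X]} {F : Matrix L L ℤ[X]} (h : IsExt f E F)
    (hE : IsUnit (1 - E).det) : IsUnit (1 - F).det := by
  obtain ⟨e, he⟩ := h.det
  rw [← det_submatrix_one_sub F e, he, det_fromBlocks_one_sub]
  simpa using hE

/-- legality is preserved by the extension -/
theorem IsExt.leg {τ : Num} {f : I → L} {E : Matrix I I ℤ[X]} {F : Matrix L L ℤ[X]}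
    (h : IsExt f E F) (hE : ∃ w, Leg τ E w) : ∃ w, Leg τ F w := by
  classical
  obtain ⟨w, hw⟩ := hE
  have hp : ∀ a, Pol (w a) := fun a => by
    have := hw.pos a none
    rwa [mat_none] at this
  -- the base column
  let g : L → ℤ[X] := fun l => if hl : ∃ i, f i = l then w (some hl.choose) else 0
  have hg : ∀ i, g (f i) = w (some i) := by
    intro i
    have hl : ∃ i', f i' = f i := ⟨i, rfl⟩
    show (if hl : ∃ i', f i' = f i then w (some hl.choose) else 0) = _
    rw [dif_pos hl, h.inj hl.choose_spec]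
  have hg0 : ∀ l, (∀ i, f i ≠ l) → g l = 0 := by
    intro l hl
    show (if hl : ∃ i', f i' = l then w (some hl.choose) else 0) = 0
    rw [dif_neg]
    push Not
    exact hl
  have hsum : ∀ G : L → ℤ[X], (∀ l, (∀ i, f i ≠ l) → G l = 0) → ∑ l, G l = ∑ i, G (f i) := by
    intro G hG
    rw [← Finset.sum_image (s := Finset.univ) (g := f) (f := G) (fun a _ b _ hab => h.inj hab)]
    symm
    refine Finset.sum_subset (Finset.subset_univ _) fun l _ hl => hG l fun i hi => hl ?_
    exact Finset.mem_image.2 ⟨i, Finset.mem_univ _, hi⟩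
  refine ⟨fun a => a.elim (w none) g, ⟨?_, mat_pos ?_ ?_ ?_⟩⟩
  · rw [← hw.sum, Fintype.sum_option, Fintype.sum_option]
    show w none + ∑ l, g l = _
    rw [hsum g hg0]
    simp only [hg]
  · intro a
    rcases a with _ | l
    · exact hp none
    · show Pol (g l)
      by_cases hl : ∃ i, f i = l
      · obtain ⟨i, rfl⟩ := hl
        rw [hg]
        exact hp _
      · push Not at hl
        rw [hg0 l hl]
        exact pol_zero
  · intro l l'
    show Pol (g l + F l l')
    by_cases hl : ∃ i, f i = l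
    · obtain ⟨i, rfl⟩ := hl
      rw [hg]
      by_cases hl' : ∃ j, f j = l'
      · obtain ⟨j, rfl⟩ := hl'
        rw [h.eq]
        exact hw.pos (some i) (some j)
      · push Not at hl'
        rw [h.col _ _ hl', add_zero]
        exact hp _
    · push Not at hl
      rw [hg0 l hl, h.row _ _ hl, add_zero]
      exact pol_zero
  · intro l'
    show Pol (w none + - ∑ l, F l l')
    rw [hsum (fun l => F l l') fun l hl => h.row _ _ hl]
    by_cases hl' : ∃ j, f j = l'
    · obtain ⟨j, rfl⟩ := hl'
      simp only [h.eq]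
      exact hw.pos none (some j)
    · push Not at hl'
      simp only [h.col _ _ hl', Finset.sum_const_zero, neg_zero, add_zero]
      exact hp none

theorem isExt_inl (E : Matrix I I ℤ[X]) :
    IsExt Sum.inl E (Matrix.fromBlocks E 0 0 (0 : Matrix J J ℤ[X])) := by
  refine ⟨Sum.inl_injective, fun _ _ => rfl, fun l l' hl => ?_, fun l l' hl => ?_⟩
  · rcases l with i | i
    · exact absurd rfl (hl i)
    · rcases l' with j | j <;> rfl
  · rcases l' with j | j
    · exact absurd rfl (hl j)
    · rcases l with i | i <;> rfl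

theorem isExt_inr (E : Matrix J J ℤ[X]) :
    IsExt Sum.inr E (Matrix.fromBlocks (0 : Matrix I I ℤ[X]) 0 0 E) := by
  refine ⟨Sum.inr_injective, fun _ _ => rfl, fun l l' hl => ?_, fun l l' hl => ?_⟩
  · rcases l with i | i
    · rcases l' with j | j <;> rfl
    · exact absurd rfl (hl i)
  · rcases l' with j | j
    · rcases l with i | i <;> rfl
    · exact absurd rfl (hl j)

/-- `1 - g` and `1 - bl k g` -/
theorem isExt_bl (k : κ) (g : SL ι ℤ[X]) :
    IsExt (fun i => (i, k)) (1 - (g : Matrix ι ι ℤ[X]))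
      (1 - ((bl k g : SL (ι × κ) ℤ[X]) : Matrix (ι × κ) (ι × κ) ℤ[X])) := by
  have e : ∀ l l' : ι × κ, (1 - ((bl k g : SL (ι × κ) ℤ[X]) : Matrix (ι × κ) (ι × κ) ℤ[X])) l l' =
      if l.2 = k ∧ l'.2 = k then (1 - (g : Matrix ι ι ℤ[X])) l.1 l'.1 else 0 := by
    intro l l'
    rw [coe_bl, Matrix.sub_apply, Matrix.add_apply, K_apply]
    split_ifs with h
    · rw [Matrix.sub_apply, Matrix.sub_apply]
      ring
    · ring
  refine ⟨fun i j h => (Prod.mk.inj h).1, fun i j => ?_, fun l l' hl => ?_, fun l l' hl => ?_⟩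
  · rw [e]
    simp
  · rw [e, if_neg]
    rintro ⟨h1, -⟩
    exact hl l.1 (Prod.ext rfl h1.symm)
  · rw [e, if_neg]
    rintro ⟨-, h1⟩
    exact hl l'.1 (Prod.ext rfl h1.symm)

theorem relE_bl {τ : Num} (hτ : τ.Ok) (k : κ) (g : SL ι ℤ[X]) :
    RelE τ (1 - (g : Matrix ι ι ℤ[X]))
      (1 - ((bl k g : SL (ι × κ) ℤ[X]) : Matrix (ι × κ) (ι × κ) ℤ[X])) :=
  relE_ext hτ (isExt_bl k g) (det_one_sub_one_sub g)

end Pool.Agent.WFG
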