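import Pool.Agent.WFS.Basic

/-!
# The general move

`A = A' + w xᵀ` with `x ≥ 0`, `A'^d w = 0` for some `d` and `x · A'^j w = 0` for all `j` gives `A ~ A'`.
-/

set_option autoImplicit false

namespace Pool.Agent.WFG

open Pool.Agent.WFS Matrix

/-- a matrix bordered by a column `p`, a row `y` and a corner `g` -/
def blk {ι : Type} (X : Matrix ι ι ℕ) (p y : ι → ℕ) (g : ℕ) : Matrix (ι ⊕ Unit) (ι ⊕ Unit) ℕ :=
  Matrix.of fun a b => Sum.elim (fun i => Sum.elim (fun j => X i j) (fun _ => p i) b)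
    (fun _ => Sum.elim (fun j => y j) (fun _ => g) b) a

/-- the border of `X` by a zero column, the row `y` and the corner `g` -/
def brd {ι : Type} (X : Matrix ι ι ℕ) (y : ι → ℕ) (g : ℕ) : Matrix (ι ⊕ Unit) (ι ⊕ Unit) ℕ :=
  blk X (fun _ => 0) y g

theorem brd_mulVec {ι : Type} [Fintype ι] (X : Matrix ι ι ℕ) (y : ι → ℕ) (g : ℕ)
    (u : ι ⊕ Unit → ℕ) : (brd X y g).mulVec u =
      Sum.elim (X.mulVec fun i => u (Sum.inl i))
        (fun _ => y ⬝ᵥ (fun i => u (Sum.inl i)) + g * u (Sum.inr ())) := by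
  funext a
  rcases a with a | a
  · show ∑ b, brd X y g (Sum.inl a) b * u b = ∑ j, X a j * u (Sum.inl j)
    rw [Fintype.sum_sum_type]
    simp [brd, blk]
  · show ∑ b, brd X y g (Sum.inr a) b * u b = ∑ j, y j * u (Sum.inl j) + g * u (Sum.inr ())
    rw [Fintype.sum_sum_type]
    simp [brd, blk]

/-- the iterates of `brd X y g` -/
theorem brd_iter {ι : Type} [Fintype ι] (X : Matrix ι ι ℕ) (y : ι → ℕ) (g : ℕ)
    (u u' : ι ⊕ Unit → ℕ) (h0 : u (Sum.inr ()) = u' (Sum.inr ()))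
    (h : ∀ j, y ⬝ᵥ (X.mulVec)^[j] (fun i => u (Sum.inl i)) =
      y ⬝ᵥ (X.mulVec)^[j] (fun i => u' (Sum.inl i))) (j : ℕ) :
    (fun i => ((brd X y g).mulVec)^[j] u (Sum.inl i)) = (X.mulVec)^[j] (fun i => u (Sum.inl i)) ∧
    (fun i => ((brd X y g).mulVec)^[j] u' (Sum.inl i)) = (X.mulVec)^[j] (fun i => u' (Sum.inl i)) ∧
    ((brd X y g).mulVec)^[j] u (Sum.inr ()) = ((brd X y g).mulVec)^[j] u' (Sum.inr ()) := by
  induction j with
  | zero => exact ⟨rfl, rfl, h0⟩
  | succ j ih =>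
    obtain ⟨i1, i2, i3⟩ := ih
    have e1 := Function.iterate_succ_apply' (brd X y g).mulVec j u
    have e2 := Function.iterate_succ_apply' (brd X y g).mulVec j u'
    rw [brd_mulVec, i1] at e1
    rw [brd_mulVec, i2] at e2
    rw [e1, e2, i3, h j, Function.iterate_succ_apply', Function.iterate_succ_apply']
    exact ⟨rfl, rfl, rfl⟩

/-- THE COLUMN LEMMA -/
theorem cl (d : ℕ) : ∀ (ι : Type) [Fintype ι] [DecidableEq ι] (X : Matrix ι ι ℕ) (p p' y : ι → ℕ)
    (g : ℕ), (X.mulVec)^[d] p = (X.mulVec)^[d] p' →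
    (∀ j, y ⬝ᵥ (X.mulVec)^[j] p = y ⬝ᵥ (X.mulVec)^[j] p') →
    Sse (toFin (blk X p y g)) (toFin (blk X p' y g)) := by
  induction d with
  | zero =>
    intro ι _ _ X p p' y g h _
    have h' : p = p' := h
    rw [h']
    exact Sse.refl _
  | succ d ih =>
    intro ι _ _ X p p' y g h hy
    -- the factorization
    have key : ∀ q : ι → ℕ, Sse (toFin (blk X q y g)) (toFin (blk (brd X y g)
        (Sum.elim (X.mulVec q) (fun _ => y ⬝ᵥ q)) (Sum.elim (fun _ => 0) (fun _ => 1)) 0)) := by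
      intro q
      let R : Matrix (ι ⊕ Unit) ((ι ⊕ Unit) ⊕ Unit) ℕ := Matrix.of fun a b =>
        Sum.elim (fun b' => if a = b' then 1 else 0) (fun _ => Sum.elim q (fun _ => 0) a) b
      let S : Matrix ((ι ⊕ Unit) ⊕ Unit) (ι ⊕ Unit) ℕ := Matrix.of fun a b =>
        Sum.elim (fun a' => brd X y g a' b) (fun _ => Sum.elim (fun _ => 0) (fun _ => 1) b) a
      refine (est_toFin R S ?_ ?_).sse
      · ext a b
        rw [Matrix.mul_apply, Fintype.sum_sum_type]
        rcases a with a | a <;> rcases b with b | b <;> simp [R, S, brd, blk]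
      · ext a b
        rw [Matrix.mul_apply, Fintype.sum_sum_type]
        rcases a with (a | a) | a <;> rcases b with (b | b) | b <;>
          simp [R, S, brd, blk, Matrix.mulVec, dotProduct]
    refine (key p).trans (Sse.trans ?_ (key p').symm)
    have hy' := hy 0
    have hy'' : y ⬝ᵥ p = y ⬝ᵥ p' := hy'
    have h1 := brd_iter X y g (Sum.elim (X.mulVec p) (fun _ => y ⬝ᵥ p))
      (Sum.elim (X.mulVec p') (fun _ => y ⬝ᵥ p')) hy'' (fun j => hy (j + 1))
    refine ih _ _ _ _ _ _ ?_ ?_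
    · obtain ⟨i1, i2, i3⟩ := h1 d
      funext a
      rcases a with a | a
      · have e1 := congrFun i1 a
        have e2 := congrFun i2 a
        have e3 : (X.mulVec)^[d] (X.mulVec p) = (X.mulVec)^[d] (X.mulVec p') := h
        exact e1.trans ((congrFun e3 a).trans e2.symm)
      · exact i3
    · intro j
      obtain ⟨i1, i2, i3⟩ := h1 j
      show ∑ b, _ * _ = ∑ b, _ * _
      rw [Fintype.sum_sum_type, Fintype.sum_sum_type]
      simpa using i3

/-- two nonnegative integer columns with the same difference -/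
theorem cast_iter {ι : Type} [Fintype ι] [DecidableEq ι] (X : Matrix ι ι ℕ) (q : ι → ℕ) (j : ℕ) :
    (fun i => (((X.mulVec)^[j] q i : ℕ) : ℤ)) =
      ((X.map (Nat.cast : ℕ → ℤ)) ^ j).mulVec (fun i => (q i : ℤ)) := by
  induction j with
  | zero => simp
  | succ j ih =>
    rw [Function.iterate_succ_apply', pow_succ', ← Matrix.mulVec_mulVec, ← ih]
    funext i
    show ((∑ a, X i a * (X.mulVec)^[j] q a : ℕ) : ℤ) = ∑ a, (X i a : ℤ) * _
    push_cast
    rfl

/-- THE GENERAL MOVE -/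
theorem gu {k : ℕ} (A A' : Matrix (Fin k) (Fin k) ℕ) (w : Fin k → ℤ) (x : Fin k → ℕ) (d : ℕ)
    (hA : ∀ i j, (A i j : ℤ) = A' i j + w i * x j)
    (h1 : ((A'.map (Nat.cast : ℕ → ℤ)) ^ d).mulVec w = 0)
    (h2 : ∀ j, (fun i => (x i : ℤ)) ⬝ᵥ ((A'.map (Nat.cast : ℕ → ℤ)) ^ j).mulVec w = 0) :
    Sse ⟨k, A⟩ ⟨k, A'⟩ := by
  classical
  let wp : Fin k → ℕ := fun i => (w i).toNat
  let wm : Fin k → ℕ := fun i => (- w i).toNat
  have hw : ∀ i, w i = (wp i : ℤ) - wm i := by
    intro i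
    show w i = ((w i).toNat : ℤ) - ((- w i).toNat : ℤ)
    omega
  have hz : ∀ i, wp i = 0 ∨ wm i = 0 := by
    intro i
    show (w i).toNat = 0 ∨ (- w i).toNat = 0
    omega
  let N : Matrix (Fin k) (Fin k) ℕ := fun i j => A' i j - wm i * x j
  have hle : ∀ i j, wm i * x j ≤ A' i j := by
    intro i j
    rcases hz i with h | h
    · have h3 := hA i j
      rw [hw i, h] at h3
      have h4 : (0 : ℤ) ≤ A i j := Int.natCast_nonneg _
      have h5 : ((wm i * x j : ℕ) : ℤ) ≤ A' i j := by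
        push_cast
        rw [h3] at h4
        push_cast at h4
        linarith
      exact_mod_cast h5
    · rw [h, zero_mul]
      exact Nat.zero_le _
  have hN : ∀ i j, (N i j : ℤ) = A' i j - wm i * x j := by
    intro i j
    show ((A' i j - wm i * x j : ℕ) : ℤ) = _
    rw [Nat.cast_sub (hle i j)]
    push_cast
    ring
  let Az : Matrix (Fin k) (Fin k) ℤ := A'.map (Nat.cast : ℕ → ℤ)
  let Nz : Matrix (Fin k) (Fin k) ℤ := N.map (Nat.cast : ℕ → ℤ)
  have h2' : ∀ j, ∑ i, (x i : ℤ) * (Az ^ j).mulVec w i = 0 := h2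
  have hNA : ∀ j, (Nz ^ j).mulVec w = (Az ^ j).mulVec w := by
    intro j
    induction j with
    | zero => simp
    | succ j ih =>
      rw [pow_succ', ← Matrix.mulVec_mulVec, ih, pow_succ', ← Matrix.mulVec_mulVec]
      funext i
      show ∑ a, (N i a : ℤ) * (Az ^ j).mulVec w a = ∑ a, (A' i a : ℤ) * (Az ^ j).mulVec w a
      have h3 : ∀ a, (N i a : ℤ) * (Az ^ j).mulVec w a = (A' i a : ℤ) * (Az ^ j).mulVec w a -
          wm i * ((x a : ℤ) * (Az ^ j).mulVec w a) := by
        intro a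
        rw [hN]
        ring
      rw [Finset.sum_congr rfl fun a _ => h3 a, Finset.sum_sub_distrib, ← Finset.mul_sum, h2' j]
      ring
  -- the two factorizations
  let S : Matrix (Fin k ⊕ Unit) (Fin k) ℕ := Matrix.of fun p j =>
    Sum.elim (fun i => N i j) (fun _ => x j) p
  let Rm : (Fin k → ℕ) → Matrix (Fin k) (Fin k ⊕ Unit) ℕ := fun u =>
    Matrix.of fun i p => Sum.elim (fun j => if i = j then 1 else 0) (fun _ => u i) p
  have hRS : ∀ (u : Fin k → ℕ) (i j : Fin k), (Rm u * S) i j = N i j + u i * x j := by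
    intro u i j
    rw [Matrix.mul_apply, Fintype.sum_sum_type]
    simp [Rm, S]
  have e1 : A = Rm wp * S := by
    ext i j
    rw [hRS]
    have h3 := hA i j
    have h4 := hN i j
    have h5 : (A i j : ℤ) = ((N i j + wp i * x j : ℕ) : ℤ) := by
      push_cast
      rw [h4, h3, hw i]
      ring
    exact_mod_cast h5
  have e2 : A' = Rm wm * S := by
    ext i j
    rw [hRS]
    have h4 := hN i j
    have h5 : (A' i j : ℤ) = ((N i j + wm i * x j : ℕ) : ℤ) := by
      push_cast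
      rw [h4]
      ring
    exact_mod_cast h5
  have hSR : ∀ u : Fin k → ℕ, S * Rm u = blk N (N.mulVec u) x (x ⬝ᵥ u) := by
    intro u
    ext p q
    rw [Matrix.mul_apply]
    rcases p with p | p <;> rcases q with q | q <;> simp [S, Rm, blk, Matrix.mulVec, dotProduct]
  -- sums of wp and wm
  have hx : x ⬝ᵥ wp = x ⬝ᵥ wm := by
    have h3 := h2' 0
    rw [pow_zero, Matrix.one_mulVec] at h3
    have h4 : ∀ i, (x i : ℤ) * w i = (x i : ℤ) * wp i - (x i : ℤ) * wm i := by
      intro i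
      rw [hw i]
      ring
    rw [Finset.sum_congr rfl fun i _ => h4 i, Finset.sum_sub_distrib] at h3
    have h5 : ((∑ i, x i * wp i : ℕ) : ℤ) = ((∑ i, x i * wm i : ℕ) : ℤ) := by
      push_cast
      linarith
    show ∑ i, x i * wp i = ∑ i, x i * wm i
    exact_mod_cast h5
  have hwz : (fun i => (wp i : ℤ)) - (fun i => (wm i : ℤ)) = w := by
    funext i
    exact (hw i).symm
  have hit : ∀ (u : Fin k → ℕ) (j : ℕ), (fun i => (((N.mulVec)^[j] (N.mulVec u) i : ℕ) : ℤ)) =
      (Nz ^ (j + 1)).mulVec (fun i => (u i : ℤ)) := by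
    intro u j
    have h3 := cast_iter N u (j + 1)
    rw [Function.iterate_succ_apply] at h3
    exact h3
  have hdiff : ∀ j, (Nz ^ (j + 1)).mulVec (fun i => (wp i : ℤ)) -
      (Nz ^ (j + 1)).mulVec (fun i => (wm i : ℤ)) = (Az ^ (j + 1)).mulVec w := by
    intro j
    rw [← Matrix.mulVec_sub, hwz, hNA]
  have s1 : Sse (toFin A) (toFin (S * Rm wp)) := (est_toFin (Rm wp) S e1 rfl).sse
  have s2 : Sse (toFin A') (toFin (S * Rm wm)) := (est_toFin (Rm wm) S e2 rfl).sse
  rw [hSR] at s1 s2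
  rw [hx] at s1
  have s3 : Sse (toFin (blk N (N.mulVec wp) x (x ⬝ᵥ wm))) (toFin (blk N (N.mulVec wm) x (x ⬝ᵥ wm))) := by
    refine cl d _ N _ _ x _ ?_ ?_
    · have h3 := hdiff d
      have h0 : (Az ^ (d + 1)).mulVec w = 0 := by
        rw [pow_succ', ← Matrix.mulVec_mulVec, h1, Matrix.mulVec_zero]
      rw [h0, ← hit, ← hit] at h3
      funext i
      have h4 := congrFun h3 i
      have h5 : (((N.mulVec)^[d] (N.mulVec wp) i : ℕ) : ℤ) = (((N.mulVec)^[d] (N.mulVec wm) i : ℕ) : ℤ) :=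
        sub_eq_zero.1 h4
      exact_mod_cast h5
    · intro j
      have h3 := h2' (j + 1)
      rw [← hdiff j, ← hit, ← hit] at h3
      have h4 : ∀ i, (x i : ℤ) * ((fun i => (((N.mulVec)^[j] (N.mulVec wp) i : ℕ) : ℤ)) -
          (fun i => (((N.mulVec)^[j] (N.mulVec wm) i : ℕ) : ℤ))) i =
          ((x i * (N.mulVec)^[j] (N.mulVec wp) i : ℕ) : ℤ) - ((x i * (N.mulVec)^[j] (N.mulVec wm) i : ℕ) : ℤ) := by
        intro i
        push_cast
        show (x i : ℤ) * (_ - _) = _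
        ring
      rw [Finset.sum_congr rfl fun i _ => h4 i, Finset.sum_sub_distrib, ← Nat.cast_sum,
        ← Nat.cast_sum] at h3
      exact_mod_cast sub_eq_zero.1 h3
  exact (sse_toFin_fin A).trans (s1.trans (s3.trans (s2.symm.trans (sse_toFin_fin A').symm)))

end Pool.Agent.WFG
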