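import Pool.Agent.WFG.FaceSt
import Pool.Agent.WFS.Room

/-!
# The room step for systems

`κ.room a b h`: `b` constant letters of degree `a` (a column `X^a φ`, `∑ φ = b`) are eliminated at once, with runs
`≤ h`. `D' = N0 (1 + w φ 1ᵀ)`, `N0 = D - X^a φ 1ᵀ`, `w = X^a (1 + s + .. + s^(h-1))`, `s = b X^a`.

PROOFS. `ok_room`: as `ok_ev` (`PosP` lemmas in `WFS/Room.lean`, `Pol` and `PosP` are the same). `uni_room`: positivity
clear; column sums `(p - s) (1 + w b) = (p - s) (1 + s + .. + s^h)` (`gs_succ`); `inv`: on vectors `u` with `∑ u = 0`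
`D' u = N0 u = D u`. `exi_room` clear. `eqv_room`: `room_step` of `WFS/Room.lean` with `N0 i j = D i j - X^a φ i`, its
stations `c ⊕ Unit` are reindexed to `Option c` (`eqv_reindex` with an equivalence `V ⊕ Option c ≃ V ⊕ (c ⊕ Unit)`).
`rel_room`: as `rel_ev` in `SysEv.lean` (`eqv_exits`, `exi_exists`).
`relE_room'`: `rel_room` with `D = mat E w`, `D' = mat E' w'`; the new matrix is `mat E w1` with
`w1 i = w i - X^a φ i + (∑ l, (mat E w i l - X^a φ i) φ l) (X^a gs s h)` (the K-part does not change because the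
correction is a column times `1ᵀ`), then `relE_of_rel`.
`leg_room`: `w (some i) = ∑_d (max_j |coeff_d (E i j)|) X^d`, `w none` = the rest, as in `leg_of_rm`; the row `none` has in
every column a coefficient of degree `a` which is `≥ κ.p.coeff a - 2 rm E a ≥ b`; `φ = b e_none`.
`room_growth`: `p' = (p - s) (1 + s + .. + s^h)`, `s = b X^N`, `b = p_N / 2` (floor); for `d = j N + i`, `N ≤ i < 2 N`,
`j ≤ h` (take `h = Δ`): `p'_d ≥ b^j (p - s)_i` (all terms are nonnegative), `p_N ≥ n^N / (2 N) ≥ 8 C0 r^(-N) ..`,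
`b ≥ n^N / (8 N)`, `(p - s)_i ≥ n^i / (4 i) ≥ n^i / (8 N)`, so `p'_d r^d ≥ ((n r)^N / (8 N))^j (n r)^i / (8 N) ≥ C0`
because `(n r)^N ≥ 16 N C0` and `n r ≥ 1`.
-/

set_option autoImplicit false
set_option linter.unusedSectionVars false

noncomputable section

namespace Pool.Agent.WFG

open Polynomial Matrix Pool.Agent.WFS

/-- the elimination of `b` constant letters of degree `a` at once, with runs `≤ h` -/
def Num.room (κ : Num) (a b h : ℕ) : Num where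
  c := Option κ.c
  fc := inferInstance
  dc := inferInstance
  p := (κ.p - X ^ a * (b : ℤ[X])) * gs (X ^ a * (b : ℤ[X])) (h + 1)
  q := fun s => s.elim ((κ.p - X ^ a * (b : ℤ[X])) * (b : ℤ[X])) κ.q
  y := fun s => s.elim (X ^ a * (X ^ a * (b : ℤ[X])) ^ h)
    (fun s => κ.y s * gs (X ^ a * (b : ℤ[X])) (h + 1))
  Z := Matrix.of fun s s' => match s, s' with
    | some s, some s' => κ.Z s s'
    | some s, none => κ.y s * (b : ℤ[X])
    | none, some _ => 0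
    | none, none => X ^ a * (b : ℤ[X])

variable {V V' I J : Type} [Fintype V] [DecidableEq V] [Fintype V'] [DecidableEq V'] [Fintype I]
  [DecidableEq I] [Fintype J] [DecidableEq J]

/-- the matrix after the room step -/
def roomD (D : Matrix V V ℤ[X]) (φ : V → ℕ) (a h : ℕ) : Matrix V V ℤ[X] :=
  Matrix.of fun i j => (D i j - X ^ a * (φ i : ℤ[X])) +
    (∑ l, (D i l - X ^ a * (φ i : ℤ[X])) * (φ l : ℤ[X])) *
      (X ^ a * gs (X ^ a * ((∑ l, φ l : ℕ) : ℤ[X])) h)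

/-- the exits after the room step -/
def roomQ {κ : Num} (D : Matrix V V ℤ[X]) (Q : Matrix V κ.c ℤ[X]) (φ : V → ℕ) (a h : ℕ) :
    Matrix V (κ.room a (∑ l, φ l) h).c ℤ[X] :=
  Matrix.of fun i s => match s with
    | some s => Q i s
    | none => ∑ l, (D i l - X ^ a * (φ i : ℤ[X])) * (φ l : ℤ[X])

private theorem cf_rr (a b d : ℕ) :
    (X ^ a * (b : ℤ[X])).coeff d = if d = a then (b : ℤ) else 0 := by
  rw [← Polynomial.C_eq_natCast, Polynomial.coeff_mul_C, Polynomial.coeff_X_pow]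
  split_ifs <;> simp

private theorem nnS_rr (a b d : ℕ) : 0 ≤ (X ^ a * (b : ℤ[X])).coeff d :=
  nn_mul (nn_pow nn_X a) (nn_natCast _) d

private theorem gs_nn_rr (a b k d : ℕ) : 0 ≤ (gs (X ^ a * (b : ℤ[X])) k).coeff d :=
  nn_sum (fun j _ => nn_pow (nnS_rr a b) j) d

private theorem posS_rr {a : ℕ} (ha : 1 ≤ a) (b : ℕ) : PosP (X ^ a * (b : ℤ[X])) :=
  (posP_X_pow ha).mul_right (nn_natCast _)

private theorem pol_sub_rr {p : ℤ[X]} (hp : Pol p) {a b : ℕ} (ha : 1 ≤ a)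
    (h1 : (b : ℤ) ≤ p.coeff a) : PosP (p - X ^ a * (b : ℤ[X])) := by
  refine ⟨?_, fun d => ?_⟩
  · rw [coeff_sub, hp.1, cf_rr, if_neg (by omega), sub_zero]
  · rw [coeff_sub, cf_rr]
    split_ifs with hd
    · subst hd
      linarith
    · rw [sub_zero]
      exact hp.2 d

theorem ok_room {κ : Num} (hκ : κ.Ok) (a b h : ℕ) (ha : 1 ≤ a) (h1 : (b : ℤ) ≤ κ.p.coeff a) :
    (κ.room a b h).Ok := by
  have hp := pol_sub_rr hκ.p ha h1
  refine ⟨?_, ?_, ?_, ?_⟩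
  · exact PosP.mul_right hp (gs_nn_rr a b (h + 1))
  · rintro (_ | s)
    · exact PosP.mul_right hp (nn_natCast _)
    · exact hκ.q s
  · rintro (_ | s)
    · exact PosP.mul_right (posP_X_pow ha) (nn_pow (nnS_rr a b) h)
    · exact PosP.mul_right (hκ.y s) (gs_nn_rr a b (h + 1))
  · rintro (_ | s) (_ | s')
    · exact posS_rr ha b
    · exact PosP.zero
    · exact PosP.mul_right (hκ.y s) (nn_natCast _)
    · exact hκ.Z s s'

private theorem sumN0_rr {κ : Num} {D : Matrix V V ℤ[X]} (hD : ∀ j, ∑ i, D i j = κ.p) (φ : V → ℕ)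
    (a : ℕ) (j : V) : ∑ i, (D i j - X ^ a * (φ i : ℤ[X])) =
      κ.p - X ^ a * ((∑ l, φ l : ℕ) : ℤ[X]) := by
  rw [Finset.sum_sub_distrib, hD, ← Finset.mul_sum]
  push_cast
  rfl

private theorem sumQ_rr {κ : Num} {D : Matrix V V ℤ[X]} (hD : ∀ j, ∑ i, D i j = κ.p) (φ : V → ℕ)
    (a : ℕ) : ∑ i, ∑ l, (D i l - X ^ a * (φ i : ℤ[X])) * (φ l : ℤ[X]) =
      (κ.p - X ^ a * ((∑ l, φ l : ℕ) : ℤ[X])) * ((∑ l, φ l : ℕ) : ℤ[X]) := by
  rw [Finset.sum_comm]
  have h1 : ∀ l, ∑ i, (D i l - X ^ a * (φ i : ℤ[X])) * (φ l : ℤ[X]) =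
      (κ.p - X ^ a * ((∑ l, φ l : ℕ) : ℤ[X])) * (φ l : ℤ[X]) := fun l => by
    rw [← Finset.sum_mul, sumN0_rr hD]
  rw [Finset.sum_congr rfl fun l _ => h1 l, ← Finset.mul_sum]
  congr 1
  push_cast
  rfl

theorem uni_room {κ : Num} {D : Matrix V V ℤ[X]} (hD : Uni κ D) (φ : V → ℕ) (a h : ℕ) (ha : 1 ≤ a)
    (hle : Pos (Matrix.of fun i j => D i j - X ^ a * (φ i : ℤ[X]))) :
    Uni (κ.room a (∑ l, φ l) h) (roomD D φ a h) := by
  refine ⟨?_, ?_, ?_⟩
  · intro i j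
    refine PosP.add (hle i j) (PosP.mul_right (PosP.sum fun l _ => ?_) ?_)
    · exact PosP.mul_right (hle i l) (nn_natCast _)
    · exact nn_mul (nn_pow nn_X a) (gs_nn_rr a _ h)
  · intro j
    show ∑ i, ((D i j - X ^ a * (φ i : ℤ[X])) +
      (∑ l, (D i l - X ^ a * (φ i : ℤ[X])) * (φ l : ℤ[X])) *
      (X ^ a * gs (X ^ a * ((∑ l, φ l : ℕ) : ℤ[X])) h)) =
      (κ.p - X ^ a * ((∑ l, φ l : ℕ) : ℤ[X])) * gs (X ^ a * ((∑ l, φ l : ℕ) : ℤ[X])) (h + 1)
    rw [Finset.sum_add_distrib, ← Finset.sum_mul, sumN0_rr hD.sum, sumQ_rr hD.sum, gs_succ]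
    ring
  · intro z hz
    obtain ⟨u, hu, huz⟩ := hD.inv z hz
    refine ⟨u, hu, fun i => ?_⟩
    rw [← huz i]
    congr 1
    have h1 : ∀ j, roomD D φ a h i j * u j = D i j * u j +
        (- (X ^ a * (φ i : ℤ[X])) + (∑ l, (D i l - X ^ a * (φ i : ℤ[X])) * (φ l : ℤ[X])) *
      (X ^ a * gs (X ^ a * ((∑ l, φ l : ℕ) : ℤ[X])) h)) * u j := by
      intro j
      unfold roomD
      rw [Matrix.of_apply]
      ring
    rw [Finset.sum_congr rfl fun j _ => h1 j, Finset.sum_add_distrib, ← Finset.mul_sum, hu, mul_zero,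
      add_zero]

theorem exi_room {κ : Num} {D : Matrix V V ℤ[X]} (hD : Uni κ D) (φ : V → ℕ) (a h : ℕ)
    (hle : Pos (Matrix.of fun i j => D i j - X ^ a * (φ i : ℤ[X])))
    {Q : Matrix V κ.c ℤ[X]} (hQ : Exi κ Q) : Exi (κ.room a (∑ l, φ l) h) (roomQ D Q φ a h) := by
  refine ⟨?_, ?_⟩
  · rintro i (_ | s)
    · exact PosP.sum fun l _ => PosP.mul_right (hle i l) (nn_natCast _)
    · exact hQ.pos i s
  · rintro (_ | s)
    · exact sumQ_rr hD.sum φ a
    · exact hQ.sum s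

theorem eqv_room {κ : Num} (hκ : κ.Ok) {D : Matrix V V ℤ[X]} (hD : Uni κ D) (φ : V → ℕ)
    (a h : ℕ) (ha : 1 ≤ a) (hle : Pos (Matrix.of fun i j => D i j - X ^ a * (φ i : ℤ[X])))
    {Q : Matrix V κ.c ℤ[X]} (hQ : Exi κ Q) :
    Eqv (κ.tot D Q) ((κ.room a (∑ l, φ l) h).tot (roomD D φ a h) (roomQ D Q φ a h)) := by
  have hN0 : ∀ i j, PosP (D i j - X ^ a * (φ i : ℤ[X])) := fun i j => hle i j
  have h1 := room_step (fun i j => D i j - X ^ a * (φ i : ℤ[X])) φ a h ha Q κ.y κ.Z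
    hN0 hQ.pos hκ.y hκ.Z
  have h2 : totM (Matrix.of fun i j => (D i j - X ^ a * (φ i : ℤ[X])) + X ^ a * (φ i : ℤ[X])) Q κ.y
      κ.Z = κ.tot D Q := by
    unfold totM Num.tot
    congr 1
    ext1 i j
    exact sub_add_cancel _ _
  rw [h2] at h1
  refine h1.trans ?_
  let e : V ⊕ Option κ.c ≃ V ⊕ (κ.c ⊕ Unit) :=
    Equiv.sumCongr (Equiv.refl V) (Equiv.optionEquivSumPUnit κ.c)
  have h3 := eqv_reindex (totM (c := κ.c ⊕ Unit)
        (Matrix.of fun i j => (D i j - X ^ a * (φ i : ℤ[X])) +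
          (∑ l, (D i l - X ^ a * (φ i : ℤ[X])) * (φ l : ℤ[X])) *
          (X ^ a * gs (X ^ a * ((∑ l, φ l : ℕ) : ℤ[X])) h))
        (Matrix.of fun i k => Sum.elim (fun k => Q i k)
          (fun _ => ∑ l, (D i l - X ^ a * (φ i : ℤ[X])) * (φ l : ℤ[X])) k)
        (Sum.elim (fun k => κ.y k * gs (X ^ a * ((∑ l, φ l : ℕ) : ℤ[X])) (h + 1))
          (fun _ => X ^ a * (X ^ a * ((∑ l, φ l : ℕ) : ℤ[X])) ^ h))
        (Matrix.of fun k k' => Sum.elim
          (fun k => Sum.elim (fun k' => κ.Z k k') (fun _ => κ.y k * ((∑ l, φ l : ℕ) : ℤ[X])) k')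
          (fun _ => Sum.elim (fun _ => 0) (fun _ => X ^ a * ((∑ l, φ l : ℕ) : ℤ[X])) k') k)) e
  refine h3.trans ?_
  have h4 : (totM (c := κ.c ⊕ Unit)
        (Matrix.of fun i j => (D i j - X ^ a * (φ i : ℤ[X])) +
          (∑ l, (D i l - X ^ a * (φ i : ℤ[X])) * (φ l : ℤ[X])) *
          (X ^ a * gs (X ^ a * ((∑ l, φ l : ℕ) : ℤ[X])) h))
        (Matrix.of fun i k => Sum.elim (fun k => Q i k)
          (fun _ => ∑ l, (D i l - X ^ a * (φ i : ℤ[X])) * (φ l : ℤ[X])) k)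
        (Sum.elim (fun k => κ.y k * gs (X ^ a * ((∑ l, φ l : ℕ) : ℤ[X])) (h + 1))
          (fun _ => X ^ a * (X ^ a * ((∑ l, φ l : ℕ) : ℤ[X])) ^ h))
        (Matrix.of fun k k' => Sum.elim
          (fun k => Sum.elim (fun k' => κ.Z k k') (fun _ => κ.y k * ((∑ l, φ l : ℕ) : ℤ[X])) k')
          (fun _ => Sum.elim (fun _ => 0) (fun _ => X ^ a * ((∑ l, φ l : ℕ) : ℤ[X])) k') k)).submatrix
          e e = (κ.room a (∑ l, φ l) h).tot (roomD D φ a h) (roomQ D Q φ a h) := by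
    ext1 p q
    rcases p with i | _ | s <;> rcases q with j | _ | s' <;> rfl
  rw [h4]
  exact Eqv.refl _

private theorem room_ex_rr {κ : Num} (hκ : κ.Ok) {D : Matrix V V ℤ[X]} (hD : Uni κ D)
    (a b h : ℕ) (ha : 1 ≤ a) (φ : V → ℕ) (hφ : ∑ i, φ i = b)
    (hle : Pos (Matrix.of fun i j => D i j - X ^ a * (φ i : ℤ[X])))
    {Q : Matrix V κ.c ℤ[X]} (hQ : Exi κ Q) :
    ∃ R : Matrix V (κ.room a b h).c ℤ[X], Exi (κ.room a b h) R ∧
      Eqv (κ.tot D Q) ((κ.room a b h).tot (roomD D φ a h) R) := by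
  subst hφ
  exact ⟨roomQ D Q φ a h, exi_room hD φ a h hle hQ, eqv_room hκ hD φ a h ha hle hQ⟩

private theorem le_p_rr [Nonempty V] {κ : Num} {D : Matrix V V ℤ[X]} (hD : ∀ j, ∑ i, D i j = κ.p)
    (a b : ℕ) (φ : V → ℕ) (hφ : ∑ i, φ i = b)
    (hle : Pos (Matrix.of fun i j => D i j - X ^ a * (φ i : ℤ[X]))) :
    (b : ℤ) ≤ κ.p.coeff a := by
  obtain ⟨j⟩ := ‹Nonempty V›
  have h2 := congrArg (fun q => Polynomial.coeff q a) (sumN0_rr hD φ a j)
  simp only [finsetSum_coeff] at h2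
  rw [hφ, coeff_sub, cf_rr, if_pos rfl] at h2
  have h3 : 0 ≤ ∑ i, (D i j - X ^ a * (φ i : ℤ[X])).coeff a :=
    Finset.sum_nonneg fun i _ => (hle i j).2 a
  linarith

/-- `b` constant letters of degree `a` are eliminated in two systems -/
theorem rel_room [Nonempty V] [Nonempty V'] {κ : Num} (hκ : κ.Ok) {D : Matrix V V ℤ[X]}
    {D' : Matrix V' V' ℤ[X]} (hD : Uni κ D) (hD' : Uni κ D') (a b h : ℕ) (ha : 1 ≤ a) (φ : V → ℕ)
    (hφ : ∑ i, φ i = b) (hle : Pos (Matrix.of fun i j => D i j - X ^ a * (φ i : ℤ[X])))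
    (φ' : V' → ℕ) (hφ' : ∑ i, φ' i = b)
    (hle' : Pos (Matrix.of fun i j => D' i j - X ^ a * (φ' i : ℤ[X]))) :
    Rel κ D D' ↔ Rel (κ.room a b h) (roomD D φ a h) (roomD D' φ' a h) := by
  have hκ' := ok_room hκ a b h ha (le_p_rr hD.sum a b φ hφ hle)
  have hE : Uni (κ.room a b h) (roomD D φ a h) := by
    have := uni_room hD φ a h ha hle
    rwa [hφ] at this
  have hE' : Uni (κ.room a b h) (roomD D' φ' a h) := by
    have := uni_room hD' φ' a h ha hle'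
    rwa [hφ'] at this
  constructor
  · intro hR Q Q' hQ hQ'
    obtain ⟨R, hR1⟩ := exi_exists (V := V) hκ
    obtain ⟨R', hR1'⟩ := exi_exists (V := V') hκ
    obtain ⟨S, hS, hS1⟩ := room_ex_rr hκ hD a b h ha φ hφ hle hR1
    obtain ⟨S', hS', hS1'⟩ := room_ex_rr hκ hD' a b h ha φ' hφ' hle' hR1'
    refine (eqv_exits hκ' hE hQ hS).trans ?_
    refine hS1.symm.trans ?_
    refine (hR R R' hR1 hR1').trans ?_
    refine hS1'.trans ?_
    exact eqv_exits hκ' hE' hS' hQ'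
  · intro hR Q Q' hQ hQ'
    obtain ⟨S, hS, hS1⟩ := room_ex_rr hκ hD a b h ha φ hφ hle hQ
    obtain ⟨S', hS', hS1'⟩ := room_ex_rr hκ hD' a b h ha φ' hφ' hle' hQ'
    refine hS1.trans ?_
    refine (hR _ _ hS hS').trans ?_
    exact hS1'.symm

private theorem hle_mat_rr {κ : Num} {E : Matrix I I ℤ[X]} {w : Option I → ℤ[X]} (hw : Leg κ E w)
    {a : ℕ} (ha : 1 ≤ a) (φ : Option I → ℕ) (hφw : ∀ i j, (φ i : ℤ) ≤ (mat E w i j).coeff a) :
    Pos (Matrix.of fun i j => mat E w i j - X ^ a * (φ i : ℤ[X])) := by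
  intro i j
  exact pol_sub_rr (hw.pos i j) ha (hφw i j)

private theorem room_mat_rr {κ : Num} {E : Matrix I I ℤ[X]}
    (hE : IsUnit (1 - E).det) (a b h : ℕ) (ha : 1 ≤ a)
    {w : Option I → ℤ[X]} (hw : Leg κ E w)
    (φ : Option I → ℕ) (hφ : ∑ i, φ i = b) (hφw : ∀ i j, (φ i : ℤ) ≤ (mat E w i j).coeff a) :
    ∃ w1, Leg (κ.room a b h) E w1 ∧ roomD (mat E w) φ a h = mat E w1 := by
  have hU := uni_room (uni_mat hE hw) φ a h ha (hle_mat_rr hw ha φ hφw)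
  rw [hφ] at hU
  let w1 : Option I → ℤ[X] := fun i => (w i - X ^ a * (φ i : ℤ[X])) +
      (∑ l, (mat E w i l - X ^ a * (φ i : ℤ[X])) * (φ l : ℤ[X])) *
      (X ^ a * gs (X ^ a * ((∑ l, φ l : ℕ) : ℤ[X])) h)
  have h1 : roomD (mat E w) φ a h = mat E w1 := by
    ext1 i j
    have h2 : ∀ (v : Option I → ℤ[X]), mat E v i j = v i + (mat E w i j - w i) := by
      intro v
      rcases j with _ | j <;> rcases i with _ | i
      · show v none + 0 = v none + (w none + 0 - w none)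
        ring
      · show v (some i) + 0 = v (some i) + (w (some i) + 0 - w (some i))
        ring
      · show v none + - ∑ i, E i j = v none + (w none + - ∑ i, E i j - w none)
        ring
      · show v (some i) + E i j = v (some i) + (w (some i) + E i j - w (some i))
        ring
    rw [h2 w1]
    show (mat E w i j - X ^ a * (φ i : ℤ[X])) +
      (∑ l, (mat E w i l - X ^ a * (φ i : ℤ[X])) * (φ l : ℤ[X])) *
      (X ^ a * gs (X ^ a * ((∑ l, φ l : ℕ) : ℤ[X])) h) = (w i - X ^ a * (φ i : ℤ[X])) +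
      (∑ l, (mat E w i l - X ^ a * (φ i : ℤ[X])) * (φ l : ℤ[X])) *
      (X ^ a * gs (X ^ a * ((∑ l, φ l : ℕ) : ℤ[X])) h) + (mat E w i j - w i)
    ring
  refine ⟨w1, ⟨?_, ?_⟩, h1⟩
  · rw [← mat_sum E w1 none, ← hU.sum none, h1]
  · rw [← h1]
    exact hU.pos

/-- the room step for K-parts, with explicit legal base columns -/
theorem relE_room' {κ : Num} (hκ : κ.Ok) {E : Matrix I I ℤ[X]} {E' : Matrix J J ℤ[X]}
    (hE : IsUnit (1 - E).det) (hE' : IsUnit (1 - E').det) (a b h : ℕ) (ha : 1 ≤ a)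
    {w : Option I → ℤ[X]} {w' : Option J → ℤ[X]} (hw : Leg κ E w) (hw' : Leg κ E' w')
    (φ : Option I → ℕ) (hφ : ∑ i, φ i = b) (hφw : ∀ i j, (φ i : ℤ) ≤ (mat E w i j).coeff a)
    (φ' : Option J → ℕ) (hφ' : ∑ i, φ' i = b) (hφw' : ∀ i j, (φ' i : ℤ) ≤ (mat E' w' i j).coeff a) :
    RelE κ E E' ↔ RelE (κ.room a b h) E E' := by
  obtain ⟨w1, hw1, h1⟩ := room_mat_rr hE a b h ha hw φ hφ hφw
  obtain ⟨w1', hw1', h1'⟩ := room_mat_rr hE' a b h ha hw' φ' hφ' hφw'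
  have hU := uni_mat hE hw
  have hU' := uni_mat hE' hw'
  have hle := hle_mat_rr hw ha φ hφw
  have hle' := hle_mat_rr hw' ha φ' hφw'
  have hκ' := ok_room hκ a b h ha (le_p_rr hU.sum a b φ hφ hle)
  have key := rel_room hκ hU hU' a b h ha φ hφ hle φ' hφ' hle'
  rw [h1, h1'] at key
  constructor
  · intro hR
    exact relE_of_rel hκ' hE hE' hw1 hw1' (key.1 (hR w w' hw hw'))
  · intro hR
    exact relE_of_rel hκ hE hE' hw hw' (key.2 (hR w1 w1' hw1 hw1'))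

/-- legality with `b` spare constant letters of degree `a` -/
theorem leg_room {κ : Num} (hκ : κ.Ok) {E : Matrix I I ℤ[X]} (a b : ℕ)
    (h : ∀ d, 2 * (rm E d : ℤ) + (if d = a then (b : ℤ) else 0) ≤ κ.p.coeff d) :
    ∃ (w : Option I → ℤ[X]) (φ : Option I → ℕ), Leg κ E w ∧ ∑ i, φ i = b ∧
      ∀ i j, (φ i : ℤ) ≤ (mat E w i j).coeff a := by
  have hb0 : ∀ d, (0 : ℤ) ≤ if d = a then (b : ℤ) else 0 := fun d => by
    split_ifs
    · exact Int.natCast_nonneg _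
    · exact le_rfl
  obtain ⟨N, hN⟩ := exists_rm_bd E
  have hr : ∀ d, ((rm E d : ℕ) : ℤ) = ∑ i, (rmx E i d : ℤ) := fun d => by
    rw [rm_eq, Nat.cast_sum]
  have hL := leg_of_coeff hκ N (fun i d => (rmx E i d : ℤ)) (by
      intro i d hd
      simp [hN i d hd]) (by
      intro i d
      positivity) (by
      intro i j d
      have := (abs_le.1 (abs_le_rmx E i j d)).1
      linarith) (by
      intro d
      rw [← hr]
      have h1 : (0 : ℤ) ≤ (rm E d : ℤ) := by positivity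
      linarith [h d, hb0 d]) (by
      intro j d
      rw [← hr]
      have := (abs_le.1 (abs_sum_le_rm E j d)).2
      linarith [h d, hb0 d])
  refine ⟨_, fun i => i.elim b (fun _ => 0), hL, ?_, ?_⟩
  · rw [Fintype.sum_option]
    simp
  · have hc : ∀ i d, (polyOf N fun d => (rmx E i d : ℤ)).coeff d = rmx E i d := fun i d =>
      polyOf_coeff N _ (fun d hd => by simp [hN i d hd]) d
    have hn : (κ.p - ∑ i, polyOf N fun d => (rmx E i d : ℤ)).coeff a =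
        κ.p.coeff a - rm E a := by
      rw [Polynomial.coeff_sub, Polynomial.finsetSum_coeff, hr]
      simp only [hc]
    have ha := h a
    rw [if_pos rfl] at ha
    rintro (_ | i) j
    · show (b : ℤ) ≤ _
      rcases j with _ | j
      · show (b : ℤ) ≤ ((κ.p - ∑ i, polyOf N fun d => (rmx E i d : ℤ)) + 0).coeff a
        rw [add_zero, hn]
        have h1 : (0 : ℤ) ≤ (rm E a : ℤ) := by positivity
        linarith
      · show (b : ℤ) ≤ ((κ.p - ∑ i, polyOf N fun d => (rmx E i d : ℤ)) + - ∑ i, E i j).coeff a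
        rw [Polynomial.coeff_add, hn, Polynomial.coeff_neg, Polynomial.finsetSum_coeff]
        have := (abs_le.1 (abs_sum_le_rm E j a)).2
        linarith
    · show ((0 : ℕ) : ℤ) ≤ _
      rw [Nat.cast_zero]
      exact (hL.pos (some i) j).2 a

/-- exponential growth in all degrees after the room step -/
theorem room_growth {κ : Num} (hκ : κ.Ok) {n N : ℕ} (hn : 2 ≤ n) (hN : 1 ≤ N)
    (h1 : ∀ d, N ≤ d → d < 2 * N → (n : ℤ) ^ d ≤ 2 * d * κ.p.coeff d)
    (r C0 : ℝ) (hr : 0 < r) (hr1 : r ≤ 1) (hC0 : 1 ≤ C0) (hrN : 16 * N * C0 ≤ (n * r) ^ N)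
    (Δ d : ℕ) (hd : N ≤ d) (hd2 : d ≤ Δ) :
    C0 ≤ ((κ.room N ((κ.p.coeff N).toNat / 2) Δ).p.coeff d : ℝ) * r ^ d := by
  set b : ℕ := (κ.p.coeff N).toNat / 2 with hb
  have hNR : (1 : ℝ) ≤ N := by exact_mod_cast hN
  have hn1 : (1 : ℝ) ≤ n := by exact_mod_cast (by omega : 1 ≤ n)
  -- `n r ≥ 1`
  have hnr0 : 0 < n * r := by positivity
  have hnr : 1 ≤ n * r := by
    by_contra hlt
    push Not at hlt
    have h2 : (n * r) ^ N ≤ 1 := pow_le_one₀ hnr0.le hlt.le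
    nlinarith
  -- `n ^ N ≥ 16 N`
  have hnN : 16 * (N : ℝ) ≤ (n : ℝ) ^ N := by
    have h2 : (n * r) ^ N ≤ (n : ℝ) ^ N := by
      refine pow_le_pow_left₀ hnr0.le ?_ N
      nlinarith
    nlinarith
  have hpN0 := hκ.p.2 N
  have hpNR : (n : ℝ) ^ N ≤ 2 * N * (κ.p.coeff N : ℝ) := by
    exact_mod_cast h1 N le_rfl (by omega)
  have hpN8 : (8 : ℝ) ≤ (κ.p.coeff N : ℝ) := by
    by_contra hlt
    push Not at hlt
    nlinarith
  have hpN8' : 8 ≤ κ.p.coeff N := by exact_mod_cast hpN8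
  have hb2 : 2 * (b : ℤ) ≤ κ.p.coeff N := by omega
  have hb4 : κ.p.coeff N ≤ 4 * (b : ℤ) := by omega
  have hb2R : 2 * (b : ℝ) ≤ (κ.p.coeff N : ℝ) := by exact_mod_cast hb2
  have hb4R : (κ.p.coeff N : ℝ) ≤ 4 * (b : ℝ) := by exact_mod_cast hb4
  have hbR : (n : ℝ) ^ N ≤ 8 * N * (b : ℝ) := by nlinarith
  -- the decomposition of `d`
  let j : ℕ := d / N - 1
  let i : ℕ := d - N * j
  have hdiv : N * (d / N) + d % N = d := Nat.div_add_mod d N
  have hmod : d % N < N := Nat.mod_lt d (by omega)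
  have hq1 : 1 ≤ d / N := (Nat.one_le_div_iff (by omega)).2 hd
  have hNj : N * j = N * (d / N) - N := by
    show N * (d / N - 1) = _
    rw [Nat.mul_sub, mul_one]
  have hNq : N ≤ N * (d / N) := Nat.le_mul_of_pos_right N hq1
  have hi : i = N + d % N := by
    show d - N * j = _
    omega
  have hdij : d = i + N * j := by
    show d = d - N * j + N * j
    omega
  have hi1 : N ≤ i := by omega
  have hi2 : i < 2 * N := by omega
  have hjΔ : j < Δ + 1 := by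
    have : j ≤ d := by
      show d / N - 1 ≤ d
      have := Nat.div_le_self d N
      omega
    omega
  -- the coefficient
  let q : ℤ[X] := κ.p - X ^ N * (b : ℤ[X])
  have hq : PosP q := pol_sub_rr hκ.p hN (by linarith)
  have hcoef : (b : ℤ) ^ j * q.coeff i ≤ (κ.room N b Δ).p.coeff d := by
    show _ ≤ (q * gs (X ^ N * (b : ℤ[X])) (Δ + 1)).coeff d
    unfold gs
    rw [Finset.mul_sum, Polynomial.finsetSum_coeff]
    have h2 : (q * (X ^ N * (b : ℤ[X])) ^ j).coeff d = (b : ℤ) ^ j * q.coeff i := by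
      rw [mul_pow, ← pow_mul, ← mul_assoc, ← Polynomial.C_eq_natCast, ← map_pow,
        Polynomial.coeff_mul_C, hdij, Polynomial.coeff_mul_X_pow, mul_comm]
    rw [← h2]
    exact Finset.single_le_sum (f := fun j => (q * (X ^ N * (b : ℤ[X])) ^ j).coeff d)
      (fun j _ => (hq.mul_right (nn_pow (nnS_rr N b) j)).2 d) (Finset.mem_range.2 hjΔ)
  have hqi : (n : ℝ) ^ i ≤ 8 * N * (q.coeff i : ℝ) := by
    have hqc : q.coeff i = κ.p.coeff i - if i = N then (b : ℤ) else 0 := by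
      show (κ.p - X ^ N * (b : ℤ[X])).coeff i = _
      rw [coeff_sub, cf_rr]
    by_cases hiN : i = N
    · rw [if_pos hiN, hiN] at hqc
      rw [hiN, hqc]
      push_cast
      nlinarith
    · rw [if_neg hiN, sub_zero] at hqc
      rw [hqc]
      have h2 : (n : ℝ) ^ i ≤ 2 * i * (κ.p.coeff i : ℝ) := by exact_mod_cast h1 i hi1 hi2
      have h3 : (i : ℝ) ≤ 2 * N := by exact_mod_cast hi2.le
      have h4 : (0 : ℝ) ≤ (κ.p.coeff i : ℝ) := by exact_mod_cast hκ.p.2 i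
      nlinarith
  have hcR : (b : ℝ) ^ j * (q.coeff i : ℝ) ≤ ((κ.room N b Δ).p.coeff d : ℝ) := by
    exact_mod_cast hcoef
  have hrN0 : 0 < r ^ N := pow_pos hr N
  have hri0 : 0 < r ^ i := pow_pos hr i
  -- `b r ^ N ≥ 1`
  have hbr : 1 ≤ (b : ℝ) * r ^ N := by
    have h2 : 16 * (N : ℝ) * C0 ≤ 8 * N * ((b : ℝ) * r ^ N) := by
      calc 16 * (N : ℝ) * C0 ≤ (n * r) ^ N := hrN
        _ = (n : ℝ) ^ N * r ^ N := mul_pow _ _ _
        _ ≤ (8 * N * (b : ℝ)) * r ^ N := mul_le_mul_of_nonneg_right hbR hrN0.le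
        _ = _ := by ring
    by_contra hlt
    push Not at hlt
    nlinarith
  have hqr : C0 ≤ (q.coeff i : ℝ) * r ^ i := by
    have h2 : 16 * (N : ℝ) * C0 ≤ 8 * N * ((q.coeff i : ℝ) * r ^ i) := by
      calc 16 * (N : ℝ) * C0 ≤ (n * r) ^ N := hrN
        _ ≤ (n * r) ^ i := pow_le_pow_right₀ hnr hi1
        _ = (n : ℝ) ^ i * r ^ i := mul_pow _ _ _
        _ ≤ (8 * N * (q.coeff i : ℝ)) * r ^ i := mul_le_mul_of_nonneg_right hqi hri0.le
        _ = _ := by ring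
    by_contra hlt
    push Not at hlt
    nlinarith
  calc C0 ≤ (q.coeff i : ℝ) * r ^ i := hqr
    _ ≤ ((b : ℝ) * r ^ N) ^ j * ((q.coeff i : ℝ) * r ^ i) :=
      le_mul_of_one_le_left (by linarith) (one_le_pow₀ hbr)
    _ = ((b : ℝ) ^ j * (q.coeff i : ℝ)) * r ^ d := by
      have h5 : r ^ d = r ^ i * (r ^ N) ^ j := by
        rw [← pow_mul, ← pow_add, ← hdij]
      rw [h5, mul_pow]
      ring
    _ ≤ _ := mul_le_mul_of_nonneg_right hcR (pow_pos hr d).le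

end Pool.Agent.WFG
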