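import Pool.Agent.WFS.PolyLin2

/-!
# Unital systems with stations

A system is a matrix `D` over `ℤ[X]` on the states `V` (all column sums equal to `p`), together with
finitely many further vertices (stations) `c`; `Q` are the columns of the stations, `y s` the entry of the
row of the station `s` in every column of `V`, `Z` the matrix of the stations. `Num` is the numerical part
(it does not depend on `V`): `p`, the column sums `q` of `Q`, `y` and `Z`. `Rel κ D D'`: the two
systems are strong shift equivalent, for all exits `Q`, `Q'` with the column sums `κ.q`.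
-/

set_option autoImplicit false
set_option linter.unusedSectionVars false

noncomputable section

namespace Pool.Agent.WFG

open Polynomial Matrix Pool.Agent.WFS

/-- nonnegative coefficients and no constant term -/
def Pol (q : ℤ[X]) : Prop := q.coeff 0 = 0 ∧ ∀ d, 0 ≤ q.coeff d

/-- the numerical part of a system -/
structure Num where
  /-- the stations -/
  c : Type
  fc : Fintype c
  dc : DecidableEq c
  /-- the column sum of `D` -/
  p : ℤ[X]
  /-- the column sums of the exits -/
  q : c → ℤ[X]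
  /-- the rows of the stations -/
  y : c → ℤ[X]
  /-- the matrix of the stations -/
  Z : Matrix c c ℤ[X]

attribute [instance] Num.fc Num.dc

/-- nonnegativity -/
structure Num.Ok (κ : Num) : Prop where
  p : Pol κ.p
  q : ∀ s, Pol (κ.q s)
  y : ∀ s, Pol (κ.y s)
  Z : Pos κ.Z

/-- no stations, column sum `n X` -/
def Num.base (n : ℕ) : Num where
  c := Empty
  fc := inferInstance
  dc := inferInstance
  p := C (n : ℤ) * X
  q := fun s => s.elim
  y := fun s => s.elim
  Z := Matrix.of fun s _ => s.elim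

/-- the elimination of one letter of degree `a` with runs of length `< h` (one new station) -/
def Num.ev (κ : Num) (a h : ℕ) : Num where
  c := Option κ.c
  fc := inferInstance
  dc := inferInstance
  p := (κ.p - X ^ a) * ∑ m ∈ Finset.range h, X ^ (a * m)
  q := fun s => s.elim (κ.p - X ^ a) κ.q
  y := fun s => s.elim (X ^ (a * h)) (fun s => κ.y s * ∑ m ∈ Finset.range h, X ^ (a * m))
  Z := Matrix.of fun s s' => match s, s' with
    | some s, some s' => κ.Z s s'
    | some s, none => κ.y s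
    | none, some _ => 0
    | none, none => X ^ a

/-- the total matrix -/
def Num.tot (κ : Num) {V : Type} (D : Matrix V V ℤ[X]) (Q : Matrix V κ.c ℤ[X]) :
    Matrix (V ⊕ κ.c) (V ⊕ κ.c) ℤ[X] :=
  Matrix.fromBlocks D Q (Matrix.of fun s _ => κ.y s) κ.Z

variable {V V' V'' W : Type} [Fintype V] [DecidableEq V] [Fintype V'] [DecidableEq V'] [Fintype V'']
  [DecidableEq V''] [Fintype W] [DecidableEq W]

/-- `D` is nonnegative, all its column sums are `κ.p`, and `1 - D` is unimodular on the vectors of sum 0 -/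
structure Uni (κ : Num) (D : Matrix V V ℤ[X]) : Prop where
  pos : Pos D
  sum : ∀ j, ∑ i, D i j = κ.p
  inv : ∀ z : V → ℤ[X], ∑ i, z i = 0 → ∃ u : V → ℤ[X], ∑ i, u i = 0 ∧
    ∀ i, u i - ∑ j, D i j * u j = z i

/-- exits -/
structure Exi (κ : Num) (Q : Matrix V κ.c ℤ[X]) : Prop where
  pos : ∀ i s, Pol (Q i s)
  sum : ∀ s, ∑ i, Q i s = κ.q s

/-- strong shift equivalence of the two systems, for all exits -/
def Rel (κ : Num) (D : Matrix V V ℤ[X]) (D' : Matrix V' V' ℤ[X]) : Prop :=
  ∀ Q Q', Exi κ Q → Exi κ Q' → Eqv (κ.tot D Q) (κ.tot D' Q')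

/-- the matrix of a map -/
def mapM (f : V → V) : Matrix V V ℤ[X] := Matrix.of fun i j => if f j = i then 1 else 0

/-- the matrix after the elimination of the letter `X ^ a * mapM f` with runs of length `< h` -/
def evD (D : Matrix V V ℤ[X]) (a h : ℕ) (f : V → V) : Matrix V V ℤ[X] :=
  Matrix.of fun i j => ∑ m ∈ Finset.range h,
    X ^ (a * m) * (D i (f^[m] j) - X ^ a * (if f^[m + 1] j = i then 1 else 0))

/-- the exits after the elimination of a letter -/
def evQ {κ : Num} (D : Matrix V V ℤ[X]) (Q : Matrix V κ.c ℤ[X]) (a h : ℕ) (f : V → V) (v0 : V) :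
    Matrix V (κ.ev a h).c ℤ[X] :=
  Matrix.of fun i s => match s with
    | some s => Q i s
    | none => D i v0 - X ^ a * (if f v0 = i then 1 else 0)

/-- merging along `π` (the columns of the result are the columns of `C`) -/
def mergeM (π : V → W) (C : Matrix V W ℤ[X]) : Matrix W W ℤ[X] :=
  Matrix.of fun w w' => ∑ i, if π i = w then C i w' else 0

theorem tot_pos {κ : Num} (hκ : κ.Ok) {D : Matrix V V ℤ[X]} {Q : Matrix V κ.c ℤ[X]} (hD : Pos D)
    (hQ : Exi κ Q) : Pos (κ.tot D Q) := by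
  rintro (i | s) (j | t)
  · exact hD i j
  · exact hQ.pos i t
  · exact hκ.y s
  · exact hκ.Z s t

theorem exi_exists [Nonempty V] {κ : Num} (hκ : κ.Ok) : ∃ Q : Matrix V κ.c ℤ[X], Exi κ Q := by
  obtain ⟨i0⟩ := ‹Nonempty V›
  refine ⟨Matrix.of fun i s => if i = i0 then κ.q s else 0, ⟨?_, ?_⟩⟩
  · intro i s
    rw [Matrix.of_apply]
    split_ifs with h
    · exact hκ.q s
    · exact ⟨by simp, fun d => by simp⟩
  · intro s
    simp [Matrix.of_apply]

/-- the exits may be changed -/
theorem eqv_exits {κ : Num} (hκ : κ.Ok) {D : Matrix V V ℤ[X]} (hD : Uni κ D)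
    {Q Q' : Matrix V κ.c ℤ[X]} (hQ : Exi κ Q) (hQ' : Exi κ Q') :
    Eqv (κ.tot D Q) (κ.tot D Q') := by
  have hmix : ∀ F : Finset κ.c, Exi κ (Matrix.of fun i s => if s ∈ F then Q' i s else Q i s) := by
    intro F
    refine ⟨fun i s => ?_, fun s => ?_⟩
    · rw [Matrix.of_apply]
      split_ifs
      · exact hQ'.pos i s
      · exact hQ.pos i s
    · by_cases h : s ∈ F
      · simp only [Matrix.of_apply, h, if_true]
        exact hQ'.sum s
      · simp only [Matrix.of_apply, h, if_false]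
        exact hQ.sum s
  have key : ∀ F : Finset κ.c, Eqv (κ.tot D Q)
      (κ.tot D (Matrix.of fun i s => if s ∈ F then Q' i s else Q i s)) := by
    intro F
    induction F using Finset.induction_on with
    | empty =>
      have : (Matrix.of fun i s => if s ∈ (∅ : Finset κ.c) then Q' i s else Q i s) = Q := by
        ext1 i s
        simp
      rw [this]
      exact Eqv.refl _
    | insert a F ha ih =>
      refine ih.trans ?_
      obtain ⟨u, hu0, hu⟩ := hD.inv (fun i => Q i a - Q' i a) (by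
        rw [Finset.sum_sub_distrib, hQ.sum, hQ'.sum, sub_self])
      refine eqv_col (tot_pos hκ hD.pos (hmix F)) (tot_pos hκ hD.pos (hmix _)) (Sum.inr a)
        (Sum.elim u fun _ => 0) rfl ?_ ?_
      · rintro (i | s) (j | t) hj
        · rfl
        · have hta : t ≠ a := fun h => hj (by rw [h])
          show (if t ∈ F then Q' i t else Q i t) = (if t ∈ insert a F then Q' i t else Q i t)
          simp [hta]
        · rfl
        · rfl
      · rintro (i | s)
        · rw [Fintype.sum_sum_type]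
          show (if a ∈ F then Q' i a else Q i a) - (if a ∈ insert a F then Q' i a else Q i a) =
            u i - (∑ l, D i l * u l + ∑ t, _ * 0)
          rw [if_neg ha, if_pos (Finset.mem_insert_self a F)]
          simp only [mul_zero, Finset.sum_const_zero, add_zero]
          exact (hu i).symm
        · rw [Fintype.sum_sum_type]
          show κ.Z s a - κ.Z s a = 0 - (∑ l, κ.y s * u l + ∑ t, _ * 0)
          simp only [mul_zero, Finset.sum_const_zero, add_zero, ← Finset.mul_sum, hu0, sub_self]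
  have h := key Finset.univ
  have e : (Matrix.of fun i s => if s ∈ (Finset.univ : Finset κ.c) then Q' i s else Q i s) = Q' := by
    ext1 i s
    simp
  rwa [e] at h

theorem Rel.refl {κ : Num} (hκ : κ.Ok) {D : Matrix V V ℤ[X]} (hD : Uni κ D) : Rel κ D D :=
  fun _ _ hQ hQ' => eqv_exits hκ hD hQ hQ'

theorem Rel.symm {κ : Num} {D : Matrix V V ℤ[X]} {D' : Matrix V' V' ℤ[X]} (h : Rel κ D D') :
    Rel κ D' D :=
  fun Q Q' hQ hQ' => (h Q' Q hQ' hQ).symm

theorem Rel.trans [Nonempty V'] {κ : Num} (hκ : κ.Ok) {D : Matrix V V ℤ[X]}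
    {D' : Matrix V' V' ℤ[X]} {D'' : Matrix V'' V'' ℤ[X]} (h : Rel κ D D') (h' : Rel κ D' D'') :
    Rel κ D D'' := by
  intro Q Q'' hQ hQ''
  obtain ⟨Q', hQ'⟩ := exi_exists (V := V') hκ
  exact (h Q Q' hQ hQ').trans (h' Q' Q'' hQ' hQ'')

theorem rel_of_eqv {κ : Num} (hκ : κ.Ok) {D : Matrix V V ℤ[X]} {D' : Matrix V' V' ℤ[X]}
    (hD : Uni κ D) (hD' : Uni κ D') {Q : Matrix V κ.c ℤ[X]} {Q' : Matrix V' κ.c ℤ[X]}
    (hQ : Exi κ Q) (hQ' : Exi κ Q') (h : Eqv (κ.tot D Q) (κ.tot D' Q')) : Rel κ D D' :=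
  fun _ _ h1 h2 => (eqv_exits hκ hD h1 hQ).trans (h.trans (eqv_exits hκ hD' hQ' h2))

/-- THE MOVE `D - D' = ((1 - D') u) xᵀ`, i.e. `1 - D' = (1 - D) (1 + u xᵀ)`, with a constant row `x ≥ 0`,
`x · u = 0`, `∑ u = 0` -/
theorem uni_gu {κ : Num} {D D' : Matrix V V ℤ[X]} (hD : Uni κ D) (hD' : Pos D') (x : V → ℕ)
    (u : V → ℤ[X]) (hu : ∑ i, u i = 0) (hx : ∑ i, (x i : ℤ[X]) * u i = 0)
    (h : ∀ i j, D i j - D' i j = (u i - ∑ l, D' i l * u l) * (x j : ℤ[X])) : Uni κ D' := by
  let w : V → ℤ[X] := fun i => u i - ∑ l, D' i l * u l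
  have hDw : ∀ i j, D' i j = D i j - w i * (x j : ℤ[X]) := fun i j => by
    have := h i j
    linear_combination -this
  have hwD : ∀ i, w i = u i - ∑ l, D i l * u l := by
    intro i
    have h1 : ∑ l, D' i l * u l = ∑ l, D i l * u l - w i * ∑ l, (x l : ℤ[X]) * u l := by
      rw [Finset.mul_sum, ← Finset.sum_sub_distrib]
      refine Finset.sum_congr rfl fun l _ => ?_
      rw [hDw]
      ring
    show u i - ∑ l, D' i l * u l = _
    rw [h1, hx, mul_zero, sub_zero]
  have hsw : ∑ i, w i = 0 := by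
    have h1 : ∑ i, ∑ l, D i l * u l = 0 := by
      rw [Finset.sum_comm]
      have h2 : ∀ l, ∑ i, D i l * u l = κ.p * u l := fun l => by rw [← Finset.sum_mul, hD.sum]
      rw [Finset.sum_congr rfl fun l _ => h2 l, ← Finset.mul_sum, hu, mul_zero]
    rw [Finset.sum_congr rfl fun i _ => hwD i, Finset.sum_sub_distrib, hu, h1, sub_zero]
  refine ⟨hD', fun j => ?_, fun z hz => ?_⟩
  · rw [Finset.sum_congr rfl fun i _ => hDw i j, Finset.sum_sub_distrib, hD.sum, ← Finset.sum_mul, hsw,
      zero_mul, sub_zero]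
  · obtain ⟨u2, h2, h3⟩ := hD.inv z hz
    let c : ℤ[X] := ∑ j, (x j : ℤ[X]) * u2 j
    refine ⟨fun i => u2 i - u i * c, ?_, fun i => ?_⟩
    · rw [Finset.sum_sub_distrib, h2, ← Finset.sum_mul, hu, zero_mul, sub_zero]
    · have h4 : ∑ j, D' i j * (u2 j - u j * c) =
          ∑ j, D i j * u2 j - (∑ j, D i j * u j) * c - w i * c := by
        have h5 : ∀ j, D' i j * (u2 j - u j * c) = D i j * u2 j - D i j * u j * c -
            w i * ((x j : ℤ[X]) * u2 j) + w i * c * ((x j : ℤ[X]) * u j) := fun j => by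
          rw [hDw]
          ring
        rw [Finset.sum_congr rfl fun j _ => h5 j, Finset.sum_add_distrib, Finset.sum_sub_distrib,
          Finset.sum_sub_distrib, ← Finset.sum_mul, ← Finset.mul_sum, ← Finset.mul_sum, hx, mul_zero,
          add_zero]
      show u2 i - u i * c - ∑ j, D' i j * (u2 j - u j * c) = z i
      rw [h4, ← h3 i]
      linear_combination c * (hwD i)

theorem rel_gu {κ : Num} (hκ : κ.Ok) {D D' : Matrix V V ℤ[X]} (hD : Uni κ D) (hD' : Uni κ D')
    (x : V → ℕ) (u : V → ℤ[X]) (hu : ∑ i, u i = 0) (hx : ∑ i, (x i : ℤ[X]) * u i = 0)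
    (h : ∀ i j, D i j - D' i j = (u i - ∑ l, D' i l * u l) * (x j : ℤ[X])) : Rel κ D D' := by
  intro Q Q' hQ hQ'
  refine Eqv.trans ?_ (eqv_exits hκ hD' hQ hQ')
  refine poly_gu (tot_pos hκ hD.pos hQ) (tot_pos hκ hD'.pos hQ) (Sum.elim x fun _ => 0)
    (Sum.elim u fun _ => 0) ?_ ?_
  · rw [Fintype.sum_sum_type]
    simpa using hx
  · have e1 : ∀ i, ∑ l, κ.tot D' Q (Sum.inl i) l * (Sum.elim u fun _ => 0 : V ⊕ κ.c → ℤ[X]) l =
        ∑ l, D' i l * u l := by
      intro i
      rw [Fintype.sum_sum_type]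
      show ∑ l, D' i l * u l + ∑ t, _ * 0 = _
      simp
    have e2 : ∀ s, ∑ l, κ.tot D' Q (Sum.inr s) l * (Sum.elim u fun _ => 0 : V ⊕ κ.c → ℤ[X]) l =
        0 := by
      intro s
      rw [Fintype.sum_sum_type]
      show ∑ l, κ.y s * u l + ∑ t, _ * 0 = _
      rw [← Finset.mul_sum, hu]
      simp
    rintro (i | s) (j | t)
    · rw [e1]
      exact h i j
    · rw [e1]
      show Q i t - Q i t = _ * ((0 : ℕ) : ℤ[X])
      simp
    · rw [e2]
      show κ.y s - κ.y s = (0 - 0) * (x j : ℤ[X])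
      simp
    · rw [e2]
      show κ.Z s t - κ.Z s t = (0 - 0) * ((0 : ℕ) : ℤ[X])
      simp

/-- two matrices which agree on the vectors of sum 0 -/
theorem rel_const {κ : Num} (hκ : κ.Ok) {D D' : Matrix V V ℤ[X]} (hD : Uni κ D) (hD' : Pos D')
    (z : V → ℤ[X]) (hz : ∑ i, z i = 0) (h : ∀ i j, D i j - D' i j = z i) :
    Uni κ D' ∧ Rel κ D D' := by
  obtain ⟨u, hu0, hu⟩ := hD.inv z hz
  have h1 : ∑ i, (((1 : ℕ) : ℤ[X])) * u i = 0 := by simpa using hu0
  have h2 : ∀ i j, D i j - D' i j = (u i - ∑ l, D' i l * u l) * ((1 : ℕ) : ℤ[X]) := by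
    intro i j
    have h3 : ∑ l, D' i l * u l = ∑ l, D i l * u l - z i * ∑ l, u l := by
      rw [Finset.mul_sum, ← Finset.sum_sub_distrib]
      refine Finset.sum_congr rfl fun l _ => ?_
      have := h i l
      linear_combination (-u l) * this
    rw [h i j, h3, hu0, mul_zero, sub_zero, hu i]
    simp
  have h3 := uni_gu hD hD' (fun _ => 1) u hu0 h1 h2
  exact ⟨h3, rel_gu hκ hD h3 (fun _ => 1) u hu0 h1 h2⟩

theorem pol_CX (n : ℕ) : Pol (C (n : ℤ) * X) := by
  refine ⟨by simp, fun d => ?_⟩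
  rw [Polynomial.coeff_C_mul, Polynomial.coeff_X]
  split_ifs
  · simp
  · simp

theorem ok_base (n : ℕ) : (Num.base n).Ok :=
  ⟨pol_CX n, fun s => s.elim, fun s => s.elim, fun s => s.elim⟩

/-- the link with matrices over `ℕ` -/
theorem sse_of_rel {n : ℕ} (A : Matrix V V ℕ)
    (h : Rel (Num.base n) (Matrix.of fun i j => C (A i j : ℤ) * X : Matrix V V ℤ[X])
      (Matrix.of fun _ _ : Unit => (C (n : ℤ) * X : ℤ[X]))) :
    Sse (toFin A) ⟨1, Matrix.of fun _ _ => n⟩ := by
  have h1 := h (Matrix.of fun _ s => s.elim) (Matrix.of fun _ s => s.elim)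
    ⟨fun _ s => s.elim, fun s => s.elim⟩ ⟨fun _ s => s.elim, fun s => s.elim⟩
  have key : ∀ (U : Type) [Fintype U] [DecidableEq U] (T : Matrix U U ℤ[X])
      (Q : Matrix U (Num.base n).c ℤ[X]), Eqv T ((Num.base n).tot T Q) := by
    intro U _ _ T Q
    have h2 := eqv_reindex T (Equiv.sumEmpty U Empty)
    have h3 : T.submatrix (Equiv.sumEmpty U Empty) (Equiv.sumEmpty U Empty) =
        (Num.base n).tot T Q := by
      ext1 i j
      rcases i with i | i
      · rcases j with j | j
        · rfl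
        · exact Empty.elim j
      · exact Empty.elim i
    rw [h3] at h2
    exact h2
  have h4 := (key V _ _).trans (h1.trans (key Unit _ _).symm)
  have h5 := h4 1 1 le_rfl le_rfl (bd_linear A) (bd_linear (Matrix.of fun _ _ : Unit => n))
  have h6 := (sse_linear A).trans (h5.trans (sse_linear (Matrix.of fun _ _ : Unit => n)).symm)
  refine h6.trans ?_
  have h7 := sse_reindex (Matrix.of fun _ _ : Fin 1 => n) (Equiv.ofUnique Unit (Fin 1))
  exact h7.symm.trans (sse_toFin_fin _).symm

end Pool.Agent.WFG
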