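import Pool.Agent.WFG.Sys

/-!
# Merging and splitting of states

PROOFS. `uni_merge`. Column sums: `∑_w mergeM π C w w' = ∑_i C i w'` (Finset.sum_comm), and every `w'` is
`π j`. Nonnegativity is clear in both directions (for `D` from `hC`). `inv` forward: for `z` on `W` with
sum 0 put `z~ i = z (π i)` at one chosen preimage of every `w` and `0` elsewhere, take `u` for `z~`, and
`u' w = ∑_(π i = w) u i`; then `(C' u') w = ∑_(π i = w) ∑_j C i (π j) u_j`. Backward: for `z` on `V` push
`z` forward, take `u'` for it, and `u i = z i + ∑_w C i w * u' w`; its push forward is `u'`, because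
`u' - D' u' = π_* z`; hence `u - D u = z`.
`rel_merge`: for exits `Q` on `V` apply `eqv_merge` with `Sum.map π id : V ⊕ κ.c → W ⊕ κ.c` and the matrix
`fromBlocks C Q (of fun s _ => κ.y s) κ.Z`; the result is `κ.tot (mergeM π C) Q1`, `Q1 w s` the sum of the
`Q i s` over `π i = w`; then `eqv_exits` (with `uni_merge`).
`rel_trivial`: `W = Unit`, `C i () = r i` (first show `Uni κ (of fun _ _ : Unit => κ.p)`: a vector on `Unit`
with sum 0 is 0; then `Uni κ D` by `uni_merge` backwards). `rel_reindex`: `eqv_reindex` with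
`e.sumCongr (Equiv.refl _)`.
-/

set_option autoImplicit false
set_option linter.unusedSectionVars false

noncomputable section

namespace Pool.Agent.WFG

open Polynomial Matrix Pool.Agent.WFS

variable {V V' V'' W : Type} [Fintype V] [DecidableEq V] [Fintype V'] [DecidableEq V'] [Fintype V'']
  [DecidableEq V''] [Fintype W] [DecidableEq W]

/-- push forward of a vector -/
private def pfM (π : V → W) (u : V → ℤ[X]) : W → ℤ[X] := fun w => ∑ i, if π i = w then u i else 0

private theorem sum_mul_pfM (π : V → W) (u : V → ℤ[X]) (F : W → ℤ[X]) :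
    ∑ w, F w * pfM π u w = ∑ i, F (π i) * u i := by
  unfold pfM
  simp only [Finset.mul_sum]
  rw [Finset.sum_comm]
  refine Finset.sum_congr rfl fun i _ => ?_
  rw [Finset.sum_eq_single (π i)]
  · rw [if_pos rfl]
  · intro w _ hw
    rw [if_neg hw.symm, mul_zero]
  · intro hc
    exact absurd (Finset.mem_univ _) hc

private theorem sum_pfM (π : V → W) (u : V → ℤ[X]) : ∑ w, pfM π u w = ∑ i, u i := by
  have h := sum_mul_pfM π u (fun _ => 1)
  simpa using h

private theorem pfM_pfM (π : V → W) (σ : W → V) (hσ : ∀ w, π (σ w) = w) (z : W → ℤ[X]) (w : W) :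
    pfM π (pfM σ z) w = z w := by
  have h := sum_mul_pfM σ z (fun i => if π i = w then 1 else 0)
  simp only [hσ, ite_mul, one_mul, zero_mul, Finset.sum_ite_eq', Finset.mem_univ, if_true] at h
  exact h

private theorem pol_zeroM : Pol 0 := ⟨by simp, fun d => by simp⟩

private theorem pol_sumM {ι : Type} (s : Finset ι) (f : ι → ℤ[X]) (h : ∀ i ∈ s, Pol (f i)) :
    Pol (∑ i ∈ s, f i) := by
  refine ⟨?_, fun d => ?_⟩
  · rw [Polynomial.finsetSum_coeff]
    exact Finset.sum_eq_zero fun i hi => (h i hi).1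
  · rw [Polynomial.finsetSum_coeff]
    exact Finset.sum_nonneg fun i hi => (h i hi).2 d

private theorem colM (π : V → W) (C : Matrix V W ℤ[X]) (w' : W) :
    ∑ w, mergeM π C w w' = ∑ i, C i w' := sum_pfM π fun i => C i w'

private theorem pos_mergeM (π : V → W) (C : Matrix V W ℤ[X]) (hC : ∀ i w, Pol (C i w)) :
    Pos (mergeM π C) := by
  intro w w'
  refine pol_sumM _ _ fun i _ => ?_
  split_ifs
  · exact hC i w'
  · exact pol_zeroM

private theorem mulM (π : V → W) (C : Matrix V W ℤ[X]) (v : W → ℤ[X]) (w : W) :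
    ∑ w', mergeM π C w w' * v w' = ∑ i, if π i = w then ∑ w', C i w' * v w' else 0 := by
  unfold mergeM
  simp only [Matrix.of_apply, Finset.sum_mul]
  rw [Finset.sum_comm]
  refine Finset.sum_congr rfl fun i _ => ?_
  by_cases h : π i = w
  · simp [h]
  · simp [h]

/-- MERGING of states with equal columns (and, backwards, SPLITTING) -/
theorem uni_merge {κ : Num} {D : Matrix V V ℤ[X]} (π : V → W) (hπ : Function.Surjective π)
    (C : Matrix V W ℤ[X]) (hC : ∀ i w, Pol (C i w)) (h : ∀ i j, D i j = C i (π j)) :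
    Uni κ D ↔ Uni κ (mergeM π C) := by
  constructor
  · intro hD
    refine ⟨pos_mergeM π C hC, fun w' => ?_, fun z hz => ?_⟩
    · obtain ⟨j, rfl⟩ := hπ w'
      rw [colM, ← hD.sum j]
      exact Finset.sum_congr rfl fun i _ => (h i j).symm
    · obtain ⟨σ, hσ⟩ := hπ.hasRightInverse
      obtain ⟨u, hu, hu2⟩ := hD.inv (pfM σ z) (by rw [sum_pfM, hz])
      refine ⟨pfM π u, by rw [sum_pfM, hu], fun w => ?_⟩
      rw [sum_mul_pfM π u (fun w' => mergeM π C w w')]
      have h1 : ∑ j, mergeM π C w (π j) * u j =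
          ∑ i, if π i = w then ∑ j, D i j * u j else 0 := by
        unfold mergeM
        simp only [Matrix.of_apply, Finset.sum_mul]
        rw [Finset.sum_comm]
        refine Finset.sum_congr rfl fun i _ => ?_
        by_cases hi : π i = w
        · simp [hi, h]
        · simp [hi]
      rw [h1]
      have h2 : pfM π u w - (∑ i, if π i = w then ∑ j, D i j * u j else 0) =
          pfM π (pfM σ z) w := by
        unfold pfM
        rw [← Finset.sum_sub_distrib]
        refine Finset.sum_congr rfl fun i _ => ?_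
        by_cases hi : π i = w
        · rw [if_pos hi, if_pos hi, if_pos hi, hu2 i]
          rfl
        · rw [if_neg hi, if_neg hi, if_neg hi, sub_zero]
      rw [h2, pfM_pfM π σ hσ]
  · intro hD'
    have hcol : ∀ w, ∑ i, C i w = κ.p := fun w => by rw [← colM π C w, hD'.sum]
    refine ⟨fun i j => ?_, fun j => ?_, fun z hz => ?_⟩
    · rw [h i j]
      exact hC i (π j)
    · rw [← hcol (π j)]
      exact Finset.sum_congr rfl fun i _ => h i j
    · obtain ⟨u', hu, hu2⟩ := hD'.inv (pfM π z) (by rw [sum_pfM, hz])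
      have h3 : ∀ w, pfM π (fun i => z i + ∑ w', C i w' * u' w') w = u' w := by
        intro w
        have h4 : pfM π (fun i => z i + ∑ w', C i w' * u' w') w =
            pfM π z w + ∑ w', mergeM π C w w' * u' w' := by
          rw [mulM]
          unfold pfM
          rw [← Finset.sum_add_distrib]
          refine Finset.sum_congr rfl fun i _ => ?_
          by_cases hi : π i = w
          · simp [hi]
          · simp [hi]
        rw [h4, ← hu2 w]
        ring
      refine ⟨fun i => z i + ∑ w', C i w' * u' w', ?_, fun i => ?_⟩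
      · rw [Finset.sum_add_distrib, hz, zero_add, Finset.sum_comm]
        have h5 : ∀ w, ∑ i, C i w * u' w = κ.p * u' w := fun w => by
          rw [← Finset.sum_mul, hcol]
        rw [Finset.sum_congr rfl fun w _ => h5 w, ← Finset.mul_sum, hu, mul_zero]
      · have h6 : ∑ j, D i j * (z j + ∑ w', C j w' * u' w') = ∑ w, C i w * u' w := by
          have h7 := sum_mul_pfM π (fun i => z i + ∑ w', C i w' * u' w') (fun w => C i w)
          simp only [h3] at h7
          rw [h7]
          exact Finset.sum_congr rfl fun j _ => by rw [h i j]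
        rw [h6]
        ring

theorem rel_merge {κ : Num} (hκ : κ.Ok) {D : Matrix V V ℤ[X]} (hD : Uni κ D) (π : V → W)
    (hπ : Function.Surjective π) (C : Matrix V W ℤ[X]) (hC : ∀ i w, Pol (C i w))
    (h : ∀ i j, D i j = C i (π j)) : Rel κ D (mergeM π C) := by
  intro Q Q' hQ hQ'
  have hD' : Uni κ (mergeM π C) := (uni_merge π hπ C hC h).1 hD
  let Q₀ : Matrix (V ⊕ κ.c) (W ⊕ κ.c) ℤ[X] :=
    Matrix.fromBlocks C Q (Matrix.of fun s _ => κ.y s) κ.Z
  have hQ₀ : ∀ s w, (Q₀ s w).coeff 0 = 0 ∧ ∀ d, 0 ≤ (Q₀ s w).coeff d := by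
    rintro (i | s) (w | t)
    · exact hC i w
    · exact hQ.pos i t
    · exact hκ.y s
    · exact hκ.Z s t
  have h1 := eqv_merge (Sum.map π id) (κ.tot D Q) Q₀ hQ₀ (by
    rintro (i | s) (j | t)
    · exact h i j
    · rfl
    · rfl
    · rfl)
  let Q1 : Matrix W κ.c ℤ[X] := Matrix.of fun w s => ∑ i, if π i = w then Q i s else 0
  have h2 : (Matrix.of fun w w' => ∑ s, if Sum.map π id s = w then Q₀ s w' else 0) =
      κ.tot (mergeM π C) Q1 := by
    ext1 w w'
    rw [Matrix.of_apply, Fintype.sum_sum_type]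
    rcases w with w | s
    · have h3 : (∑ s : κ.c, if Sum.map π id (Sum.inr s : V ⊕ κ.c) = Sum.inl w then
          Q₀ (Sum.inr s) w' else 0) = 0 := Finset.sum_eq_zero fun s _ => if_neg (by simp)
      rw [h3, add_zero]
      rcases w' with w' | t
      · show _ = ∑ i, if π i = w then C i w' else 0
        refine Finset.sum_congr rfl fun i _ => ?_
        simp [Q₀]
      · show _ = ∑ i, if π i = w then Q i t else 0
        refine Finset.sum_congr rfl fun i _ => ?_
        simp [Q₀]
    · have h3 : (∑ i : V, if Sum.map π id (Sum.inl i : V ⊕ κ.c) = Sum.inr s then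
          Q₀ (Sum.inl i) w' else 0) = 0 := Finset.sum_eq_zero fun s _ => if_neg (by simp)
      rw [h3, zero_add, Finset.sum_eq_single s]
      · rcases w' with w' | t
        · simp [Q₀, Num.tot]
        · simp [Q₀, Num.tot]
      · intro t _ ht
        exact if_neg (by simpa using ht)
      · intro hc
        exact absurd (Finset.mem_univ _) hc
  rw [h2] at h1
  refine h1.trans (eqv_exits hκ hD' ⟨fun w s => ?_, fun s => ?_⟩ hQ')
  · refine pol_sumM _ _ fun i _ => ?_
    split_ifs
    · exact hQ.pos i s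
    · exact pol_zeroM
  · rw [← hQ.sum s]
    exact sum_pfM π fun i => Q i s

/-- all columns equal -/
theorem rel_trivial [Nonempty V] {κ : Num} (hκ : κ.Ok) {D : Matrix V V ℤ[X]} (hD : Pos D)
    (hs : ∀ j, ∑ i, D i j = κ.p) (r : V → ℤ[X]) (h : ∀ i j, D i j = r i) :
    Uni κ D ∧ Rel κ D (Matrix.of fun _ _ : Unit => κ.p) := by
  obtain ⟨j₀⟩ := ‹Nonempty V›
  have hC : ∀ (i : V) (w : Unit), Pol ((Matrix.of fun i _ => r i : Matrix V Unit ℤ[X]) i w) := by
    intro i w
    have := hD i j₀
    rw [h i j₀] at this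
    exact this
  have h1 : mergeM (fun _ : V => ()) (Matrix.of fun i _ => r i : Matrix V Unit ℤ[X]) =
      (Matrix.of fun _ _ : Unit => κ.p) := by
    ext1 w w'
    show (∑ i, if () = w then r i else 0) = κ.p
    rw [← hs j₀]
    refine Finset.sum_congr rfl fun i _ => ?_
    rw [if_pos rfl, h i j₀]
  have h2 : Uni κ (Matrix.of fun _ _ : Unit => κ.p) := by
    refine ⟨fun _ _ => hκ.p, fun _ => by simp, fun z hz => ?_⟩
    refine ⟨0, by simp, fun i => ?_⟩
    have hz2 : z () = 0 := by simpa using hz
    obtain ⟨⟩ := i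
    rw [hz2]
    simp
  have hπ : Function.Surjective (fun _ : V => ()) := fun w => ⟨j₀, rfl⟩
  have h3 : Uni κ D := by
    refine (uni_merge (fun _ : V => ()) hπ (Matrix.of fun i _ => r i) hC (fun i j => h i j)).2 ?_
    rw [h1]
    exact h2
  refine ⟨h3, ?_⟩
  have h4 := rel_merge hκ h3 (fun _ : V => ()) hπ (Matrix.of fun i _ => r i) hC (fun i j => h i j)
  rwa [h1] at h4

theorem rel_reindex {κ : Num} (hκ : κ.Ok) {D : Matrix V V ℤ[X]} (hD : Uni κ D) (e : V' ≃ V) :
    Uni κ (D.submatrix e e) ∧ Rel κ D (D.submatrix e e) := by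
  have h1 : Uni κ (D.submatrix e e) := by
    refine ⟨fun i j => hD.pos (e i) (e j), fun j => ?_, fun z hz => ?_⟩
    · rw [← hD.sum (e j)]
      exact Equiv.sum_comp e fun i => D i (e j)
    · obtain ⟨u, hu, hu2⟩ := hD.inv (fun i => z (e.symm i)) (by
        rw [← hz]
        exact Equiv.sum_comp e.symm z)
      refine ⟨fun i => u (e i), ?_, fun i => ?_⟩
      · rw [← hu]
        exact Equiv.sum_comp e u
      · have h2 := hu2 (e i)
        rw [e.symm_apply_apply] at h2
        rw [← h2]
        congr 1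
        exact Equiv.sum_comp e fun j => D (e i) j * u j
  refine ⟨h1, fun Q Q' hQ hQ' => ?_⟩
  have h2 := eqv_reindex (κ.tot D Q) (e.sumCongr (Equiv.refl κ.c))
  have h3 : (κ.tot D Q).submatrix (e.sumCongr (Equiv.refl κ.c)) (e.sumCongr (Equiv.refl κ.c)) =
      κ.tot (D.submatrix e e) (Q.submatrix e id) := by
    ext1 i j
    rcases i with i | s <;> rcases j with j | t <;> rfl
  rw [h3] at h2
  refine h2.trans (eqv_exits hκ h1 ⟨fun i s => hQ.pos (e i) s, fun s => ?_⟩ hQ')
  rw [← hQ.sum s]
  exact Equiv.sum_comp e fun i => Q i s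

end Pool.Agent.WFG
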